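import Pool.Agent.Helper31_Amp.Names
import Pool.Agent.Helper31_Con.Main

section

/-!
# Closed facts and the semantic rules
-/

namespace Helper31Con.Amp

open Function Filter Fm

variable {con θ : Fm} (I : IfaceS (RA con θ))

/-! ### Closed facts -/

lemma ev_dec : ∃ f : ℕ → ℕ, Ev fun X => ∀ j < 16, ∀ a b c d N, a ≤ N → b ≤ N → c ≤ N → d ≤ N →
    f N ≤ X.S → RA con θ j a b c d → X.E 1 (I.A j (nT a) (nT b) (nT c) (nT d)) := by
  obtain ⟨f, _, h⟩ := dec_allA I.toIface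
  refine ⟨f, ((ev_rich h).and (ev_pr PB.id)).mono ?_⟩
  rintro X ⟨h1, h2⟩ j hj a b c d N ha hb hc hd hS hR
  exact h2 _ (((h1 N j hj a b c d ha hb hc hd).1 hR).mono hS hS)

lemma ev_nmc : Ev fun X => ∀ a, a + 1 ≤ X.S → tc (nT a) + 1 ≤ X.S →
    X.E (2 * (a + 1)) (I.A 16 (nT a) (nT (tc (nT a))) o o) := by
  have r0 := ev_rule I [.n1 (x 0) 1 o] (.rl 16 o (x 0) o o) (by simp [At.Wf, Al])
    (fun e h => h)
  have r1 := ev_rule I [.n1 (x 0) 2 (x 1), .rl 16 (x 2) (x 1) o o]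
    (.rl 16 (.succ (x 2)) (x 0) o o) (by simp [At.Wf, Al]) (fun e h h1 => by
      have h1' : e 1 = tc (Tm.num (e 2)) := h1
      have h' : e 0 = nd 2 (e 1) := h
      show e 0 = tc (Tm.num (e 2 + 1))
      rw [h', h1']; rfl)
  refine ((r0.and r1).and ev_n1).mono ?_
  rintro X ⟨⟨r0, r1⟩, hn⟩ a
  induction a with
  | zero =>
    intro _ ht
    exact (r0 _ [1] (Cx.ok1 (X.ok_num ht)) (.cons (hn 1 0 ht) .nil)).mono (by simp)
  | succ a ih =>
    intro h1 h2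
    have h3 : tc (nT (a + 1)) = nd 2 (tc (nT a)) := rfl
    have h4 := lt_nd_r 2 (tc (nT a))
    rw [h3] at h2 ⊢
    exact (r1 _ [1, _] (Cx.ok3 (X.ok_num h2) (X.ok_num (n := tc (nT a)) (by omega))
      (X.ok_num (n := a) (by omega))) (.cons (hn 2 _ h2) (.cons (ih (by omega) (by omega))
        .nil))).mono (by simp; omega)

lemma ev_c0 : ∃ f : ℕ → ℕ, Ev fun X => ∀ a N, a ≤ N → tc (nT a) ≤ N → fc con ≤ N →
    fc (con.sub 0 (nT a)) ≤ N → N + 1 ≤ X.S → f N ≤ X.S →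
    X.E (2 * (a + 1) + 2) (I.A 21 (nT a) (nT (fc (con.sub 0 (nT a)))) o o) := by
  obtain ⟨f, hf⟩ := ev_dec I
  have r := ev_rule I [.rl 16 (x 0) (x 1) o o, .rl 5 (nT (fc con)) o (x 1) (x 2)]
    (.rl 21 (x 0) (x 2) o o) (by simp [At.Wf, Al]) (fun e h h1 => by
      have h' : e 1 = tc (Tm.num (e 0)) := h
      have h1' : SbF ((nT (fc con)).val e) 0 (e 1) (e 2) := h1
      rw [Tm.val_num] at h1'
      obtain ⟨φ, r', h2, h3, h4⟩ := h1'
      obtain rfl := fc_inj h2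
      obtain rfl := tc_inj (h'.symm.trans h3)
      exact h4)
  refine ⟨f, (((hf.and r).and (ev_nmc I))).mono ?_⟩
  rintro X ⟨⟨hf, r⟩, hn⟩ a N h1 h2 h3 h4 hS hfS
  have key := r (tl [nT a, nT (tc (nT a)), nT (fc (con.sub 0 (nT a)))]) [2 * (a + 1), 1]
    (Cx.ok3 (X.ok_num (by omega)) (X.ok_num (by omega)) (X.ok_num (by omega)))
    (.cons (hn a (by omega) (by omega)) (.cons (by
      show X.E 1 (I.A 5 ((nT (fc con)).sb _) _ _ _)
      rw [Tm.sb_num]
      exact hf 5 (by omega) _ _ _ _ N h3 (Nat.zero_le _) h2 h4 hfS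
        ⟨con, nT a, rfl, rfl, rfl⟩) .nil))
  exact key.mono (by simp)

/-! ### Soundness of the transfer of provable finite consistency statements -/

lemma prov_bot {l : List Fm} {k k' : ℕ} {φ : Fm} (h : Prov l k φ) (h' : Prov l k' (neg φ)) :
    ∃ n, Prov l n .bot := by
  obtain ⟨L, h1, _⟩ := h
  obtain ⟨L', h1', _⟩ := h'
  refine ⟨_, (neg φ :: L') ++ (φ :: L), ⟨h1'.append h1, Or.inr (Or.inr (Or.inl ⟨φ, ?_, ?_⟩))⟩,
    le_rfl⟩
  · exact List.mem_append_right _ List.mem_cons_self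
  · exact List.mem_append_left _ List.mem_cons_self

lemma exists_list {T Ps : List Fm} (h : ∀ P ∈ Ps, ∃ k, Prov T k P) :
    ∃ L, IsProof T L ∧ ∀ P ∈ Ps, P ∈ L := by
  induction Ps with
  | nil => exact ⟨[], trivial, by simp⟩
  | cons P Ps ih =>
    obtain ⟨L, h1, h2⟩ := ih fun Q hQ => h Q (List.mem_cons_of_mem _ hQ)
    obtain ⟨_, L', h3, _⟩ := h P List.mem_cons_self
    refine ⟨(P :: L') ++ L, h3.append h1, fun Q hQ => ?_⟩
    rcases List.mem_cons.mp hQ with rfl | hQ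
    · exact List.mem_append_left _ List.mem_cons_self
    · exact List.mem_append_right _ (h2 Q hQ)

lemma prov_cut {T Ps : List Fm} {k : ℕ} {φ : Fm} (h : ∀ P ∈ Ps, ∃ k, Prov T k P)
    (h' : Prov Ps k φ) : ∃ n, Prov T n φ := by
  obtain ⟨L, h1, h2⟩ := exists_list h
  obtain ⟨L', h3, _⟩ := h'
  exact ⟨_, L' ++ L, cut_list (h3.mono fun ψ hψ => List.mem_append_left _ hψ) h1 h2, le_rfl⟩

/-- `Bs` refutes the false finite consistency statements. -/
def Ref (con : Fm) (Bs : List Fm) : Prop := ∀ (T : List Fm) (m : ℕ), (∀ φ ∈ T, Fm.Sentence φ) →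
  Prov T m .bot → ∃ k, Prov Bs k (neg (conN con T m))

lemma cP_lc (hcon : IsCon con) {T : List Fm} (hT : ∀ φ ∈ T, Fm.Sentence φ) (m : ℕ) :
    cP con (lc T) m ↔ ¬ Prov T m .bot := hcon.sat T (as [lc T, m]) hT rfl

lemma sem_trans (hcon : IsCon con) {Bs : List Fm} (hBs : Ref con Bs) {a w m u t c0 : ℕ}
    (h1 : PRr a w) (h2 : SBX c0 1 u w) (h3 : u = tc (nT m)) (h4 : c0 = fc (con.sub 0 (nT t)))
    (h5 : ∀ n, cP con a n) (h6 : LSR a) (h7 : LSR t) (h8 : ∀ β ∈ Bs, PRr a (fc β)) :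
    cP con t m := by
  obtain ⟨l, rfl, hl⟩ := h6
  obtain ⟨T, rfl, hT⟩ := h7
  rw [cP_lc hcon hT]
  intro hp
  obtain ⟨k, hk⟩ := hBs T m hT hp
  have h9 : w = fc (conN con T m) := h2.2 _ _ h4 h3
  obtain ⟨k', hk'⟩ := h1 l _ rfl h9
  obtain ⟨k'', hk''⟩ := prov_cut (fun β hβ => h8 β hβ l β rfl rfl) hk
  obtain ⟨n, hn⟩ := prov_bot hk' hk''
  exact (cP_lc hcon hl n).mp (h5 n) hn

lemma sem_down (hcon : IsCon con) {L t t' m₁ m₂ y n e : ℕ} (h1 : PfR L t) (h2 : PfR t' L)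
    (h3 : PLR L m₁) (h4 : PLR t' m₂) (h5 : LSR t) (h6 : LSR t') (h7 : y = m₁ + m₂ + e + n)
    (h8 : cP con t y) : cP con t' n := by
  obtain ⟨l, T, rfl, rfl, hL⟩ := h1
  obtain ⟨S, l', rfl, e1, hS⟩ := h2
  obtain rfl := lc_inj e1
  obtain ⟨l1, e2, rfl⟩ := h3
  obtain rfl := lc_inj e2
  obtain ⟨l2, e3, rfl⟩ := h4
  obtain rfl := lc_inj e3
  obtain ⟨T', e4, hT⟩ := h5
  obtain rfl := lc_inj e4
  obtain ⟨S', e5, hS'⟩ := h6
  obtain rfl := lc_inj e5
  rw [cP_lc hcon hS']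
  rintro ⟨P, hP, hlen⟩
  refine (cP_lc hcon hT y).mp h8 ?_
  have q1 : IsProof T (S ++ l) :=
    cut_list (hS.mono fun φ hφ => List.mem_append_left _ hφ) hL fun P hP => hP
  have q2 : IsProof T ((Fm.bot :: P) ++ (S ++ l)) :=
    cut_list (hP.mono fun φ hφ => List.mem_append_left _ hφ) q1
      fun P hP => List.mem_append_left _ hP
  refine ⟨P ++ (S ++ l), q2, ?_⟩
  rw [plen_cons] at hlen ⊢
  rw [plen_append, plen_append]
  omega

include I in
/-- Rich sets refute the false finite consistency statements. -/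
lemma exists_ref (hcon : IsCon con) : ∃ Bs : List Fm, (∀ β ∈ Bs, TrueS β) ∧ Ref con Bs := by
  obtain ⟨c0, h0⟩ := horn5 (α₁ := I.A 13 (x 2) (x 0) o o) (α₂ := I.A 14 (x 2) (x 3) o o)
    (α₃ := I.A 11 (x 0) o o o) (α₄ := eq (x 2) (ndT (ndT (nT 5) o) (x 4)))
    (α₅ := le (x 3) (x 1)) (β := neg con)
    (fun e h1 h2 h3 h4 h5 h6 => by
      rw [I.sat _ _ _ _ _ _ (by simp [Al]) (by simp [Al]) (by simp) (by simp)] at h1 h2
      rw [I.sat _ _ _ _ _ _ (by simp [Al]) (by simp) (by simp) (by simp)] at h3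
      have h1' : PfR (e 2) (e 0) := h1
      have h2' : PLR (e 2) (e 3) := h2
      have h3' : LSR (e 0) := h3
      have h4' : e 2 = nd (nd 5 0) (e 4) := by
        have : (x 2).val e = (ndT (ndT (nT 5) o) (x 4)).val e := h4
        rwa [val_ndT, val_ndT, Tm.val_num] at this
      have h5' : e 3 ≤ e 1 := h5
      obtain ⟨l, T, e1, e2, hL⟩ := h1'
      obtain ⟨l', e3, e4⟩ := h2'
      obtain rfl := lc_inj (e1.symm.trans e3)
      obtain ⟨T', e5, hT⟩ := h3'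
      obtain rfl := lc_inj (e2.symm.trans e5)
      have h7 := (hcon.sat T e hT e2).mp h6
      rw [h4'] at e1
      cases l with
      | nil => have := nd_pos (nd 5 0) (e 4); simp only [lc] at e1; omega
      | cons φ l =>
        have h8 : nd (nd 5 0) (e 4) = nd (fc φ) (lc l) := e1
        have h9 : fc Fm.bot = fc φ := (nd_inj.mp h8).1
        obtain rfl := fc_inj h9
        exact h7 ⟨l, hL, by omega⟩)
  obtain ⟨f, _, h1⟩ := dec_allA I.toIface
  obtain ⟨f2, _, h2⟩ := eq_fact (x 2) (ndT (ndT (nT 5) o) (x 4))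
  obtain ⟨f3, _, h3⟩ := le_fact (x 3) (x 1)
  obtain ⟨Bs, hBs, h⟩ := rich_iff.mp (h0.and (h1.and (h2.and h3)))
  refine ⟨Bs, hBs, fun T m hT hp => ?_⟩
  obtain ⟨h0, h1, h2, h3⟩ := h Bs fun β hβ => hβ
  obtain ⟨P, hP, hlen⟩ := hp
  set e := as [lc T, m, lc (.bot :: P), plen (.bot :: P), lc P] with he
  set N := lc T + m + lc (.bot :: P) + plen (.bot :: P) + lc P with hN
  have he' : ∀ k, e k ≤ N := as_le (by
    simp only [List.forall_mem_cons, List.not_mem_nil, IsEmpty.forall_iff, implies_true,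
      and_true]
    omega)
  have q1 := (h1 N 13 (by omega) (lc (.bot :: P)) (lc T) 0 0
    (by omega) (by omega) (by omega) (by omega)).1 ⟨.bot :: P, T, rfl, rfl, hP⟩
  have q2 := (h1 N 14 (by omega) (lc (.bot :: P)) (plen (.bot :: P)) 0 0
    (by omega) (by omega) (by omega) (by omega)).1 ⟨.bot :: P, rfl, rfl⟩
  have q3 := (h1 N 11 (by omega) (lc T) 0 0 0
    (by omega) (by omega) (by omega) (by omega)).1 ⟨T, rfl, hT⟩
  have q4 := h2 e N he' (by rw [val_ndT, val_ndT, Tm.val_num]; rfl)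
  have q5 := h3 e N he' hlen
  set M := f N + f2 N + f3 N + c0 * (N + 1) with hM
  have := h0 e N M _ _ _ _ _ he' (by omega)
    (by rw [I.cl _ _ _ _ _ _ (by simp [Al]) (by simp [Al]) (by simp) (by simp)]
        exact q1.mono le_rfl (by omega))
    (by rw [I.cl _ _ _ _ _ _ (by simp [Al]) (by simp [Al]) (by simp) (by simp)]
        exact q2.mono le_rfl (by omega))
    (by rw [I.cl _ _ _ _ _ _ (by simp [Al]) (by simp) (by simp) (by simp)]
        exact q3.mono le_rfl (by omega))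
    (q4.mono le_rfl (by omega)) (q5.mono le_rfl (by omega))
  have e3 : (neg con).cl e = neg (conN con T m) := by
    rw [hcon.conN_eq]
    refine congrArg neg (Fm.cl_congr fun k hk => ?_)
    have := hcon.free k hk
    interval_cases k <;> rfl
  rw [e3] at this
  exact ⟨_, this.prov⟩

end Helper31Con.Amp

end

section

/-!
# Transfer of provable finite consistency statements
-/

namespace Helper31Con.Amp

open Function Filter Fm

lemma forall2_rep {α β : Type} {P : ℕ → α → Prop} {g : β → α} {l : List β}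
    {c : ℕ} (h : ∀ b ∈ l, P c (g b)) : List.Forall₂ P (List.replicate l.length c) (l.map g) := by
  induction l with
  | nil => exact .nil
  | cons b l ih =>
    exact .cons (h b List.mem_cons_self) (ih fun c hc => h c (List.mem_cons_of_mem _ hc))

variable {con θ : Fm} (I : IfaceS (RA con θ))

/-- The transfer rule. -/
lemma ev_trans (hcon : IsCon con) {Bs : List Fm} (hBs : Ref con Bs) :
    Ev fun X => ∀ (a w m u t c0' c0 : Tm) (n₁ n₂ n₃ n₄ n₅ n₆ n₇ n₈ : ℕ),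
      X.Ok a → X.Ok w → X.Ok m → X.Ok u → X.Ok t → X.Ok c0' → X.Ok c0 →
      X.E n₁ (I.A 17 a w o o) → X.E n₂ (I.A 19 c0' (nT 1) u w) → X.E n₃ (I.A 16 m u o o) →
      X.E n₄ (Fm.eq c0' c0) → X.E n₅ (I.A 21 t c0 o o) → X.E n₆ (I.A 22 a o o o) →
      X.E n₇ (I.A 11 a o o o) → X.E n₈ (I.A 11 t o o o) →
      (∀ β ∈ Bs, X.E 3 (I.A 17 a (nT (fc β)) o o)) →
      X.E (n₁ + n₂ + n₃ + n₄ + n₅ + n₆ + n₇ + n₈ + Bs.length * 3 + 1) (I.A 23 t m o o) := by
  have r := ev_rule I (.rl 17 (x 0) (x 1) o o :: .rl 19 (x 5) (nT 1) (x 3) (x 1) ::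
    .rl 16 (x 2) (x 3) o o :: .eq (x 5) (x 6) :: .rl 21 (x 4) (x 6) o o :: .rl 22 (x 0) o o o ::
    .rl 11 (x 0) o o o :: .rl 11 (x 4) o o o ::
    Bs.map fun β => At.rl 17 (x 0) (nT (fc β)) o o) (.rl 23 (x 4) (x 2) o o)
    (by
      intro α hα
      simp only [List.mem_cons, List.mem_map] at hα
      rcases hα with rfl | rfl | rfl | rfl | rfl | rfl | rfl | rfl | rfl | ⟨β, _, rfl⟩ <;>
        simp [At.Wf, Al])
    (fun e => by
      rw [trL_iff]
      intro h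
      have h1 : PRr (e 0) (e 1) := h (.rl 17 (x 0) (x 1) o o) (by simp)
      have h2 : SBX (e 5) 1 (e 3) (e 1) := h (.rl 19 (x 5) (nT 1) (x 3) (x 1)) (by simp)
      have h3 : e 3 = tc (nT (e 2)) := h (.rl 16 (x 2) (x 3) o o) (by simp)
      have h4 : e 5 = e 6 := h (.eq (x 5) (x 6)) (by simp)
      have h5 : e 6 = fc (con.sub 0 (nT (e 4))) := h (.rl 21 (x 4) (x 6) o o) (by simp)
      have h6 : ∀ n, cP con (e 0) n := h (.rl 22 (x 0) o o o) (by simp)
      have h7 : LSR (e 0) := h (.rl 11 (x 0) o o o) (by simp)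
      have h8 : LSR (e 4) := h (.rl 11 (x 4) o o o) (by simp)
      have h9 : ∀ β ∈ Bs, PRr (e 0) (fc β) := fun β hβ => by
        have : PRr (e 0) ((nT (fc β)).val e) := h (.rl 17 (x 0) (nT (fc β)) o o) (by
          simp only [List.mem_cons, List.mem_map]
          exact Or.inr (Or.inr (Or.inr (Or.inr (Or.inr (Or.inr (Or.inr (Or.inr
            ⟨β, hβ, rfl⟩))))))))
        rwa [Tm.val_num] at this
      exact sem_trans hcon hBs h1 h2 h3 (h4.trans h5) h6 h7 h8 h9)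
  refine r.mono ?_
  intro X r a w m u t c0' c0 n₁ n₂ n₃ n₄ n₅ n₆ n₇ n₈ ha hw hm hu ht hc' hc
    h1 h2 h3 h4 h5 h6 h7 h8 h9
  have key := r (tl [a, w, m, u, t, c0', c0])
    (n₁ :: n₂ :: n₃ :: n₄ :: n₅ :: n₆ :: n₇ :: n₈ :: List.replicate Bs.length 3)
    (Cx.ok7 ha hw hm hu ht hc' hc)
    (.cons h1 (.cons h2 (.cons h3 (.cons h4 (.cons h5 (.cons h6 (.cons h7 (.cons h8
      (forall2_rep (P := fun n α => X.E n (At.fm I (At.sb α (tl [a, w, m, u, t, c0', c0]))))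
        (g := fun β => At.rl 17 (x 0) (nT (fc β)) o o) (fun β hβ => by
        show X.E 3 (I.A 17 a ((nT (fc β)).sb _) o o)
        rw [Tm.sb_num]
        exact h9 β hβ))))))))))
  refine key.mono (le_of_eq ?_)
  simp only [List.sum_cons, List.sum_replicate, smul_eq_mul]
  ring

/-- Members of a list are provable from it. -/
lemma ev_prm : Ev fun X => ∀ (a y z : Tm) (n m : ℕ), X.Ok a → X.Ok y → X.Ok z →
    X.E n (I.A 12 a y o o) → X.E m (Fm.eq z y) → X.E (n + m + 1) (I.A 17 a z o o) := by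
  have r := ev_rule I [.rl 12 (x 0) (x 1) o o, .eq (x 2) (x 1)] (.rl 17 (x 0) (x 2) o o)
    (by simp [At.Wf, Al]) (fun e h1 h2 => by
      have h1' : MeR (e 0) (e 1) := h1
      have h2' : e 2 = e 1 := h2
      show PRr (e 0) (e 2)
      rw [h2']; exact pr_mem h1')
  refine r.mono ?_
  intro X r a y z n m ha hy hz h1 h2
  exact (r _ [n, m] (Cx.ok3 ha hy hz) (.cons h1 (.cons h2 .nil))).mono (by simp)

/-- Members of a proof are provable. -/
lemma ev_prl : Ev fun X => ∀ (a l y : Tm), X.Ok a → X.Ok l → X.Ok y →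
    X.E 1 (I.A 13 l a o o) → X.E 1 (I.A 12 l y o o) → X.E 3 (I.A 17 a y o o) := by
  have r := ev_rule I [.rl 13 (x 1) (x 0) o o, .rl 12 (x 1) (x 2) o o] (.rl 17 (x 0) (x 2) o o)
    (by simp [At.Wf, Al]) (fun e h1 h2 => by
      obtain ⟨l, t, e1, e2, e3⟩ : PfR (e 1) (e 0) := h1
      obtain ⟨l', φ, e4, e5, e6⟩ : MeR (e 1) (e 2) := h2
      obtain rfl := lc_inj (e1.symm.trans e4)
      show PRr (e 0) (e 2)
      intro t' φ' e7 e8
      obtain rfl := lc_inj (e2.symm.trans e7)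
      obtain rfl := fc_inj (e5.symm.trans e8)
      exact ⟨plen (φ :: l), l, isProof_cons_of_mem e3 e6, le_rfl⟩)
  refine r.mono ?_
  intro X r a l y ha hl hy h1 h2
  exact (r _ [1, 1] (Cx.ok3 ha hl hy) (.cons h1 (.cons h2 .nil))).mono (by simp)

lemma tlen_two (m : ℕ) : tlen [Tm.zero, nT m] = m + 2 := by
  simp [tlen, Tm.len]; omega

/-- Position in a list. -/
noncomputable def pos (D : List Ex) (e : Ex) : ℕ :=
  @List.idxOf Ex (@instBEqOfDecidableEq Ex (Classical.decEq Ex)) e D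

lemma pos_lt {D : List Ex} {e : Ex} (h : e ∈ D) : pos D e < D.length := by
  letI : DecidableEq Ex := Classical.decEq Ex
  exact @List.idxOf_lt_length_of_mem Ex e (@instBEqOfDecidableEq Ex (Classical.decEq Ex)) _ D h

lemma pos_inj {D : List Ex} {e e' : Ex} (h : e ∈ D) (h' : pos D e = pos D e') : e = e' := by
  letI : DecidableEq Ex := Classical.decEq Ex
  exact (@List.idxOf_inj Ex (@instBEqOfDecidableEq Ex (Classical.decEq Ex)) _ D e e' h).mp h'

open Classical in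
/-- From a proof of a finite consistency statement in a theory containing `Bs` to a proof in any
rich theory that proves the consistency of that theory. -/
lemma core (hcon : IsCon con) {Bs : List Fm} (hBs : Ref con Bs) :
    ∃ B₀ : List Fm, (∀ β ∈ B₀, TrueS β) ∧ ∀ B A T : List Fm, (∀ β ∈ B₀, β ∈ B) →
      (∀ φ ∈ A, Fm.Sentence φ) → (∀ β ∈ Bs, ∃ k, Prov A k β) → (∀ φ ∈ T, Fm.Sentence φ) →
      ∀ k₀, Pr B k₀ k₀ (I.A 22 (nT (lc A)) o o o) → ∃ F : ℕ → ℕ, PB F ∧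
      ∀ m k, Prov A k (conN con T m) →
        Pr B (F (m + k)) (F (m + k)) (I.A 23 (nT (lc T)) (nT m) o o) := by
  obtain ⟨f, hf⟩ := ev_dec I
  obtain ⟨g, hg⟩ := ev_c0 I
  obtain ⟨B₀, hB₀, c₀, hX⟩ := ((((ev_proof I).and ev_hyp).and ((ev_codeF I).and (ev_sbF I))).and
    (((ev_nm I).and (ev_trans I hcon hBs)).and ((ev_prm I).and (hf.and hg)))).and
    ((ev_pr PB.id).and (ev_prl I))
  refine ⟨B₀, hB₀, fun B A T hB hA hBsA hT k₀ hk₀ => ?_⟩
  obtain ⟨con₀, hcon₀⟩ : ∃ φ, φ = con.sub 0 (nT (lc T)) := ⟨_, rfl⟩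
  obtain ⟨LA, hLA, hBsL⟩ := exists_list hBsA
  set N₀ := lc A + lc T + tc (nT (lc T)) + fc con + fc con₀ + lc LA + 1 with hN₀
  set S₀ := N₀ + 1 + f N₀ + g N₀ + k₀ with hS₀
  set K : ℕ → ℕ := fun u => u + con₀.len + 2 with hK
  set Sf : ℕ → ℕ := fun u => 12 * (c₀ + 2 * K u) + 100 + S₀ with hSf
  set Cf : ℕ → ℕ := fun u => (Sf u + c₀) ^ c₀ with hCf
  set Nf : ℕ → ℕ := fun u => u * (cst u + (4 * K u + 2)) + 3 * con₀.len + 2 * (u + 1) +
    4 * con₀.len + (2 * (lc T + 1) + 2) + 1 + 1 + 1 + Bs.length * 3 + 1 with hNf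
  have hKP : PB K := (PB.id.add (PB.const _)).add (PB.const _)
  have hSP : PB Sf := (((PB.const 12).mul ((PB.const _).add ((PB.const 2).mul hKP))).add
    (PB.const 100)).add (PB.const _)
  have hCP : PB Cf := PB.pow (hSP.add (PB.const _)) c₀
  have hcP : PB cst := ((PB.const 20).mul (PB.id.add (PB.const 1))).mul (PB.id.add (PB.const 1))
  have hNP : PB Nf := ((((((((PB.id.mul (hcP.add (((PB.const 4).mul hKP).add (PB.const 2)))).add
    (PB.const _)).add ((PB.const 2).mul (PB.id.add (PB.const 1)))).add (PB.const _)).add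
    (PB.const _)).add (PB.const 1)).add (PB.const 1)).add (PB.const 1)).add (PB.const _) |>.add
    (PB.const 1)
  refine ⟨fun u => Cf u * Nf u + 5 * K u + 4 * Cf u + 5, (((hCP.mul hNP).add
    ((PB.const 5).mul hKP)).add ((PB.const 4).mul hCP)).add (PB.const 5), fun m k hp => ?_⟩
  obtain ⟨L, hL, hlen⟩ := hp
  obtain ⟨u, hu⟩ : ∃ u, u = m + k := ⟨_, rfl⟩
  rw [← hu]
  have hKu : K u = u + con₀.len + 2 := rfl
  have hSu : Sf u = 12 * (c₀ + 2 * K u) + 100 + S₀ := rfl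
  -- the expressions
  set κ := conN con T m with hκ
  have hκ0 : κ = con₀.sub 1 (nT m) := by rw [hκ, hcon₀]; rfl
  set D := (pre ((κ :: L) ++ [con₀]) [Tm.zero, nT m]).dedup with hDdef
  have hD : Cl D := cl_dedup (cl_pre _ _)
  have hnd : D.Nodup := List.nodup_dedup _
  have htot : plen ((κ :: L) ++ [con₀]) + tlen [Tm.zero, nT m] ≤ K u := by
    rw [plen_append, tlen_two, hKu]
    simp only [plen_cons, plen_nil] at hlen ⊢
    omega
  have hDlen : D.length ≤ K u :=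
    ((List.dedup_sublist _).length_le.trans (length_pre _ _)).trans htot
  have hexl : ∀ e ∈ D, exl e ≤ K u := fun e he => (exl_pre (List.mem_dedup.mp he)).trans htot
  set v : Ex → ℕ := fun e => c₀ + pos D e with hv
  have hvinj : ∀ e ∈ D, ∀ e' ∈ D, v e = v e' → e = e' := by
    intro e he e' _ h
    refine pos_inj he ?_
    have h2 : c₀ + pos D e = c₀ + pos D e' := h
    omega
  have hvlt : ∀ e ∈ D, v e + 1 ≤ c₀ + K u := by
    intro e he
    have := pos_lt he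
    show c₀ + pos D e + 1 ≤ _
    omega
  have hG : (dfs (defs v D)).length = D.length := by simp [dfs, defs]
  have hmemG : ∀ γ ∈ dfs (defs v D), ∃ e ∈ D, γ = Fm.eq (.var (v e)) (dft v e) := by
    intro γ hγ
    obtain ⟨p, hp, rfl⟩ := List.mem_map.mp hγ
    obtain ⟨e, he, rfl⟩ := List.mem_map.mp hp
    exact ⟨e, he, rfl⟩
  have hlG : ∀ γ ∈ dfs (defs v D), γ.len ≤ Sf u := by
    intro γ hγ
    obtain ⟨e, he, rfl⟩ := hmemG γ hγ
    have h1 := hvlt e he
    have h2 := len_dft (v := v) (e := e) (K := c₀ + K u)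
      (fun c hc => hvlt c (cl_mem hD he hc)) ((hexl e he).trans (by omega))
    simp only [Fm.len, Tm.len]
    omega
  -- the context
  obtain ⟨X, hXB, hXG, hXW, hXS, hXC⟩ : ∃ X : Cx, X.B = B ∧ X.G = dfs (defs v D) ∧ X.W = c₀ ∧
      X.S = Sf u ∧ X.C = Cf u :=
    ⟨⟨B, dfs (defs v D), c₀, Sf u, Cf u, by omega, by omega, hlG⟩, rfl, rfl, rfl, rfl, rfl⟩
  obtain ⟨⟨⟨⟨hprf, hhyp⟩, ⟨hcode, hsbF⟩⟩, ⟨⟨hnm, htr⟩, ⟨hprm, ⟨hf, hg⟩⟩⟩⟩, ⟨hpr, hprl⟩⟩ :=
    hX X (by rw [hXB]; exact hB) (by rw [hXW]) (by rw [hXS, hXC])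
  have okn : ∀ n, n ≤ N₀ + u → X.Ok (nT n) := fun n hn => X.ok_num (by rw [hXS]; omega)
  set V : Nm X := mkNm X v D hD hexl (by rw [hXS]; omega)
    (fun e he => ⟨by rw [hXW]; exact Nat.le_add_right _ _, by
      have := hvlt e he
      rw [hXS]; omega⟩)
    (fun e he => hhyp _ (by
      rw [hXG]
      exact List.mem_map_of_mem (f := fun p : ℕ × Tm => Fm.eq (.var p.1) p.2)
        (List.mem_map_of_mem (f := fun e => (v e, dft v e)) he))) with hV
  have hVF : ∀ φ, V.F φ ↔ Sum.inr φ ∈ D := fun φ => Iff.rfl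
  have hVT : ∀ t, V.T t ↔ Sum.inl t ∈ D := fun φ => Iff.rfl
  have hFL : ∀ ψ ∈ κ :: L, V.F ψ := fun ψ hψ => by
    rw [hVF, hDdef, List.mem_dedup]
    exact mem_pre_f (List.mem_append_left _ hψ)
  have hFc : V.F con₀ := by
    rw [hVF, hDdef, List.mem_dedup]
    exact mem_pre_f (List.mem_append_right _ (List.mem_singleton.mpr rfl))
  have hTz : V.T .zero := by
    rw [hVT, hDdef, List.mem_dedup]
    exact mem_pre_t (by simp)
  have hTm : V.T (nT m) := by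
    rw [hVT, hDdef, List.mem_dedup]
    exact mem_pre_t (by simp)
  have hfS : f N₀ ≤ X.S := by rw [hXS]; omega
  have hgS : g N₀ ≤ X.S := by rw [hXS]; omega
  -- the members of `A`
  have hAm : ∀ ψ ∈ A, V.F ψ → X.E (4 * K u + 2) (I.A 17 (nT (lc A)) (V.f ψ) o o) := by
    intro ψ hψ hF
    have h1 := mem_le_lc hψ
    have h2 := hexl _ hF
    have h3 := hf 12 (by omega) (lc A) (fc ψ) 0 0 N₀ (by omega) (by omega) (by omega) (by omega)
      hfS ⟨A, ψ, rfl, rfl, hψ⟩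
    have h4 := hcode V ψ hF (by rw [hXS]; omega)
    refine (hprm _ _ _ 1 _ (okn _ (by omega)) (okn _ (by omega)) (V.okf ψ hF) h3 h4).mono ?_
    simp only [exl] at h2
    omega
  have hprL := hprf V (nT (lc A)) A (κ :: L) u (4 * K u + 2) (okn _ (by omega)) hTz hL
    (fun ψ hψ => ⟨hFL ψ hψ, (len_le_plen hψ).trans (by omega)⟩) hAm
  have hprκ : X.E (u * (cst u + (4 * K u + 2))) (I.A 17 (nT (lc A)) (V.f κ) o o) := by
    refine Pr.mono (hprL.pr (List.mem_map_of_mem List.mem_cons_self)) ?_ le_rfl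
    have h1 : (κ :: L).length ≤ u := (length_le_plen _).trans (by omega)
    calc (κ :: L).length * (X.C * (cst u + (4 * K u + 2)))
        ≤ u * (X.C * (cst u + (4 * K u + 2))) := Nat.mul_le_mul_right _ h1
      _ = X.C * (u * (cst u + (4 * K u + 2))) := by ring
  have h2 := hsbF V 1 (nT m) (okn 1 (by omega)) hTm con₀ hFc (by
    rw [← hκ0]; exact hFL κ List.mem_cons_self)
  rw [← hκ0] at h2
  have h3 := hnm V m (okn _ (by omega)) hTm
  have h4 := hcode V con₀ hFc (by rw [hXS]; omega)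
  have h5 := hg (lc T) N₀ (by omega) (by omega) (by omega) (by rw [← hcon₀]; omega)
    (by rw [hXS]; omega) hgS
  rw [← hcon₀] at h5
  have h6 : X.E 1 (I.A 22 (nT (lc A)) o o o) := hpr _ (by
    rw [hXB]
    exact hk₀.mono (by show k₀ ≤ X.S; rw [hXS]; omega) (by show k₀ ≤ X.S; rw [hXS]; omega))
  have h7 := hf 11 (by omega) (lc A) 0 0 0 N₀ (by omega) (by omega) (by omega) (by omega)
    hfS ⟨A, rfl, hA⟩
  have h8 := hf 11 (by omega) (lc T) 0 0 0 N₀ (by omega) (by omega) (by omega) (by omega)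
    hfS ⟨T, rfl, hT⟩
  have h9 : ∀ β ∈ Bs, X.E 3 (I.A 17 (nT (lc A)) (nT (fc β)) o o) := by
    intro β hβ
    have h1 := mem_le_lc (hBsL β hβ)
    exact hprl _ (nT (lc LA)) _ (okn _ (by omega)) (okn _ (by omega)) (okn _ (by omega))
      (hf 13 (by omega) (lc LA) (lc A) 0 0 N₀ (by omega) (by omega) (by omega) (by omega)
        hfS ⟨LA, A, rfl, rfl, hLA⟩)
      (hf 12 (by omega) (lc LA) (fc β) 0 0 N₀ (by omega) (by omega) (by omega) (by omega)
        hfS ⟨LA, β, rfl, rfl, hBsL β hβ⟩)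
  have key := htr (nT (lc A)) (V.f κ) (nT m) (V.t (nT m)) (nT (lc T)) (V.f con₀)
    (nT (fc con₀)) _ _ _ _ _ _ _ _ (okn _ (by omega)) (V.okf _ (hFL κ List.mem_cons_self))
    (okn _ (by omega)) (V.okt _ hTm) (okn _ (by omega)) (V.okf _ hFc) (okn _ (by omega))
    hprκ h2 h3 h4 h5 h6 h7 h8 h9
  have key2 : Pr X.B (X.C * Nf u) X.C (impL X.G (I.A 23 (nT (lc T)) (nT m) o o)) := by
    refine Pr.mono key (Nat.mul_le_mul_left _ ?_) le_rfl
    have hNu : Nf u = u * (cst u + (4 * K u + 2)) + 3 * con₀.len + 2 * (u + 1) +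
      4 * con₀.len + (2 * (lc T + 1) + 2) + 1 + 1 + 1 + Bs.length * 3 + 1 := rfl
    rw [hNu]
    omega
  -- elimination of the names
  have hlen2 := key2.len_le
  rw [hXB, hXC, hXG] at key2
  rw [hXC, hXG] at hlen2
  have key3 := Pr.elimL (M := 4 * Cf u + 5) (defs v D) _ (adm_defs hD hnd hvinj) (fun p _ hf => by
    rcases I.free _ _ _ _ _ _ (alw_num _) (alw_num _) alw_zero alw_zero hf with h | h | h | h
    · exact Tm.not_has_num _ _ h
    · exact Tm.not_has_num _ _ h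
    · exact h
    · exact h) (by omega) (key2.mono le_rfl (by omega))
  refine key3.mono ?_ ?_
  · have : (defs v D).length = D.length := by simp [defs]
    show Cf u * Nf u + 5 * (defs v D).length ≤ Cf u * Nf u + 5 * K u + 4 * Cf u + 5
    omega
  · show 4 * Cf u + 5 ≤ Cf u * Nf u + 5 * K u + 4 * Cf u + 5
    omega

end Helper31Con.Amp

end

section

/-!
# Assembly
-/

namespace Helper31Con.Amp

open Function Filter Fm

variable {con θ : Fm} (I : IfaceS (RA con θ))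

/-- Large context without hypotheses. -/
lemma exists_cx (B : List Fm) (c S : ℕ) (hS : 1 ≤ S) : ∃ X : Cx, X.B = B ∧ X.G = [] ∧
    X.W = c ∧ X.S = S ∧ X.C = (S + c) ^ c :=
  ⟨⟨B, [], c, S, (S + c) ^ c, hS, by simp, by simp⟩, rfl, rfl, rfl, rfl, rfl⟩

lemma all1_eq (hcon : IsCon con) (a : ℕ) (e : ℕ → ℕ) (he : e 0 = a) :
    all 1 (con.sub 0 (nT a)) = (all 1 con).cl e := by
  show all 1 _ = all 1 _
  refine congrArg (all 1) ?_
  rw [sub_sb_num]
  refine Fm.sb_congr fun k hk => ?_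
  have := hcon.free k hk
  interval_cases k
  · rw [update_self, update_of_ne (by omega), he]
  · rw [update_of_ne (by omega), update_self]

lemma all1_true (hcon : IsCon con) {a : ℕ} (h : ∀ n, cP con a n) :
    TrueS (all 1 (con.sub 0 (nT a))) := by
  rw [all1_eq hcon a (fun _ => a) rfl]
  refine ⟨Fm.cl_sentence _ _, fun e => ?_⟩
  rw [Fm.sat_cl]
  intro n
  rw [hcon.cP_iff, update_self, update_of_ne (by omega)]
  exact h n

/-- The consistency axiom gives the fact. -/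
lemma cc_fact (hcon : IsCon con) : ∀ᶠ B in rich, ∀ A, conS con A ∈ B →
    ∃ k, Pr B k k (I.A 22 (nT (lc A)) o o o) := by
  obtain ⟨c, h⟩ := horn1 (α := all 1 con) (β := I.A 22 (x 0) o o o) (fun e h1 => by
    rw [I.sat _ _ _ _ _ _ (by simp [Al]) (by simp) (by simp) (by simp)]
    intro n
    have := h1 n
    rw [hcon.cP_iff, update_self, update_of_ne (by omega)] at this
    exact this)
  filter_upwards [h] with B h A hA
  set e := as [lc A] with he
  have h1 := h e (lc A) ((conS con A).len + c * (lc A + 1)) 1 (as_le (by simp)) (by omega) (by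
    rw [← hcon.conS_eq A e rfl]
    exact Pr.mem hA (by omega))
  rw [I.cl _ _ _ _ _ _ (by simp [Al]) (by simp) (by simp) (by simp)] at h1
  exact ⟨c + 1 + ((conS con A).len + c * (lc A + 1)), h1.mono (by omega) (by omega)⟩

lemma sub_one_eq (hθ : ∀ k, θ.Free k → k = 0) (z : ℕ) (e : ℕ → ℕ) (he : e 0 = z) :
    θ.cl e = θ.sub 0 (nT z) := by
  rw [Fm.sub_eq_sb]
  refine Fm.sb_congr fun k hk => ?_
  rw [hθ k hk, update_self, he]

include I in
/-- The sound operator is provable. -/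
lemma theta_fact (hcon : IsCon con) (hθ : ∀ k, θ.Free k → k = 0) {B₁ : List Fm}
    (hB₁ : ∀ φ ∈ B₁, TrueS φ)
    (hsound : ∀ S : List Fm, (∀ φ ∈ S, TrueS φ) → θ.Sat fun _ => lc S) :
    ∃ B₂ : List Fm, (∀ φ ∈ B₂, TrueS φ) ∧ ∀ T A : List Fm, (∀ β ∈ B₂, β ∈ T) →
      conS con A ∈ T → ∃ k, Pr T k k (θ.sub 0 (nT (lc (conS con A :: B₁)))) := by
  obtain ⟨g, hg⟩ := ev_c0 I
  obtain ⟨f, hfP, hf⟩ := eq_fact (x 2) (ndT (ndT (nT 9) (ndT (nT 1) (x 1))) (nT (lc B₁)))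
  have r := ev_rule I [.rl 22 (x 0) o o o, .rl 21 (x 0) (x 1) o o,
    .eq (x 2) (ndT (ndT (nT 9) (ndT (nT 1) (x 1))) (nT (lc B₁)))] (.rl 24 (x 2) o o o)
    (by simp [At.Wf, Al]) (fun e h1 h2 h3 => by
      have h1' : ∀ n, cP con (e 0) n := h1
      have h2' : e 1 = fc (con.sub 0 (nT (e 0))) := h2
      have h3' : e 2 = nd (nd 9 (nd 1 (e 1))) (lc B₁) := by
        have : (x 2).val e = (ndT (ndT (nT 9) (ndT (nT 1) (x 1))) (nT (lc B₁))).val e := h3
        rwa [val_ndT, val_ndT, val_ndT, Tm.val_num, Tm.val_num, Tm.val_num] at this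
      show θ.Sat fun _ => e 2
      have h4 : e 2 = lc (all 1 (con.sub 0 (nT (e 0))) :: B₁) := by rw [h3', h2']; rfl
      rw [h4]
      refine hsound _ fun φ hφ => ?_
      rcases List.mem_cons.mp hφ with rfl | hφ
      · exact all1_true hcon h1'
      · exact hB₁ φ hφ)
  obtain ⟨c1, h1⟩ := horn1 (α := I.A 24 (x 0) o o o) (β := θ) (fun e h1 => by
    rw [I.sat _ _ _ _ _ _ (by simp [Al]) (by simp) (by simp) (by simp)] at h1
    exact (sat_one hθ e).mpr h1)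
  obtain ⟨B₂, hB₂, c₀, hX⟩ := ((hg.and r).and (ev_pr PB.id)).and
    ((ev_rich (cc_fact I hcon)).and ((ev_rich hf).and (ev_rich h1)))
  refine ⟨B₂, hB₂, fun T A hT hA => ?_⟩
  set z := lc (conS con A :: B₁) with hz
  set c0A := fc (con.sub 0 (nT (lc A))) with hc0A
  set N := lc A + tc (nT (lc A)) + fc con + c0A + z with hN
  -- the consistency fact
  obtain ⟨X0, e1, e2, e3, e4, e5⟩ := exists_cx T c₀ 1 le_rfl
  obtain ⟨_, ⟨hcc, _⟩⟩ := hX X0 (by rw [e1]; exact hT) (by rw [e3]) (by rw [e4, e5])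
  rw [e1] at hcc
  obtain ⟨k₀, hk₀⟩ := hcc A hA
  obtain ⟨X, e1, e2, e3, e4, e5⟩ := exists_cx T c₀ (N + 1 + g N + k₀ + f N) (by omega)
  obtain ⟨⟨⟨hg, r⟩, hpr⟩, ⟨_, ⟨hf, h1⟩⟩⟩ := hX X (by rw [e1]; exact hT) (by rw [e3])
    (by rw [e4, e5])
  have okn : ∀ n, n ≤ N → X.Ok (nT n) := fun n hn => X.ok_num (by rw [e4]; omega)
  have q1 : X.E 1 (I.A 22 (nT (lc A)) o o o) := hpr _ (by
    rw [e1]
    exact hk₀.mono (by show k₀ ≤ X.S; omega) (by show k₀ ≤ X.S; omega))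
  have q2 := hg (lc A) N (by omega) (by omega) (by omega) (by omega) (by omega) (by omega)
  have q3 : X.E 1 (Fm.eq (nT z) (ndT (ndT (nT 9) (ndT (nT 1) (nT c0A))) (nT (lc B₁)))) := by
    have := hf (as [0, c0A, z]) N (as_le (by
      simp only [List.forall_mem_cons, List.not_mem_nil, IsEmpty.forall_iff, implies_true,
        and_true]
      omega)) (by rw [val_ndT, val_ndT, val_ndT, Tm.val_num, Tm.val_num, Tm.val_num]; rfl)
    have h2 := hpr _ (this.mono (by show f N ≤ X.S; omega) (by show f N ≤ X.S; omega))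
    have h3 : Fm.cl (as [0, c0A, z]) (Fm.eq (x 2) (ndT (ndT (nT 9) (ndT (nT 1) (x 1)))
        (nT (lc B₁)))) =
        Fm.eq (nT z) (ndT (ndT (nT 9) (ndT (nT 1) (nT c0A))) (nT (lc B₁))) := by
      simp only [Fm.cl, Fm.sb, sb_ndT, Tm.sb_num]; rfl
    rwa [h3] at h2
  have q4 := r (tl [nT (lc A), nT c0A, nT z]) [1, _, 1] (Cx.ok3 (okn _ (by omega))
    (okn _ (by omega)) (okn _ (by omega))) (.cons q1 (.cons q2 (.cons (by
      show X.E 1 (Fm.eq (nT z) ((ndT (ndT (nT 9) (ndT (nT 1) (x 1))) (nT (lc B₁))).sb _))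
      rw [sb_ndT, sb_ndT, sb_ndT, Tm.sb_num, Tm.sb_num, Tm.sb_num]
      exact q3) .nil)))
  obtain ⟨n₅, q5⟩ : ∃ n, Pr T n X.C (I.A 24 (nT z) o o o) := by
    have h2 : ∃ n, Pr X.B n X.C (impL X.G (I.A 24 (nT z) o o o)) := ⟨_, q4⟩
    rw [e1, e2] at h2
    exact h2
  rw [e1] at h1
  have q6 := h1 (as [z]) N (X.C + c1 * (N + 1)) _ (as_le (by simp [hN])) (by omega) (by
    rw [I.cl _ _ _ _ _ _ (by simp [Al]) (by simp) (by simp) (by simp)]
    exact q5.mono le_rfl (by omega))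
  rw [sub_one_eq hθ z (as [z]) rfl] at q6
  exact ⟨_, q6.mono (Nat.le_add_right _ _) (Nat.le_add_left _ _)⟩

/-- From `Con_T` to `Con_S` for theories `S` whose axioms `T` proves. -/
lemma down (hcon : IsCon con) : ∃ B₀ : List Fm, (∀ β ∈ B₀, TrueS β) ∧
    ∀ B A T S L : List Fm, (∀ β ∈ B₀, β ∈ B) → (∀ φ ∈ T, Fm.Sentence φ) →
      (∀ φ ∈ S, Fm.Sentence φ) → IsProof T L → IsProof L S → ∀ F : ℕ → ℕ, PB F →
      (∀ m k, Prov A k (conN con T m) →
        Pr B (F (m + k)) (F (m + k)) (I.A 23 (nT (lc T)) (nT m) o o)) →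
      ∃ c, ∀ n k, Prov A k (conN con T (n + c)) → Prov B ((n + k + c) ^ c) (conN con S n) := by
  obtain ⟨f, hf⟩ := ev_dec I
  have r := ev_rule I [.rl 13 (x 0) (x 1) o o, .rl 13 (x 2) (x 0) o o, .rl 14 (x 0) (x 3) o o,
    .rl 14 (x 2) (x 4) o o, .rl 11 (x 1) o o o, .rl 11 (x 2) o o o,
    .eq (x 5) (.add (.add (.add (x 3) (x 4)) (x 7)) (x 6)), .rl 23 (x 1) (x 5) o o]
    (.rl 23 (x 2) (x 6) o o) (by simp [At.Wf, Al])
    (fun e h1 h2 h3 h4 h5 h6 h7 h8 => sem_down hcon h1 h2 h3 h4 h5 h6 h7 h8)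
  obtain ⟨g, hgP, hg⟩ := eq_fact (x 5) (.add (.add (.add (x 3) (x 4)) (x 7)) (x 6))
  obtain ⟨c1, h1⟩ := horn1 (α := I.A 23 (x 0) (x 1) o o) (β := con) (fun e h1 => by
    rw [I.sat _ _ _ _ _ _ (by simp [Al]) (by simp [Al]) (by simp) (by simp)] at h1
    exact (hcon.cP_iff e).mpr h1)
  obtain ⟨B₀, hB₀, c₀, hX⟩ := ((hf.and r).and ((ev_pr PB.id).and (ev_pr hgP))).and
    ((ev_rich hg).and (ev_rich h1))
  refine ⟨B₀, hB₀, fun B A T S L hB hT hS hL hLS F hF hprov => ?_⟩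
  set N₁ := lc L + lc T + lc S + plen L + plen S + 1 with hN₁
  set Sf : ℕ → ℕ := fun u => F u + u + (N₁ + 1 + f N₁) with hSf
  set Cf : ℕ → ℕ := fun u => (Sf u + c₀) ^ c₀ with hCf
  set H : ℕ → ℕ := fun u => (c1 + Cf u * 9) * (Cf u + c1 * (u + N₁ + 1)) with hH
  have hSP : PB Sf := (hF.add PB.id).add (PB.const _)
  have hCP : PB Cf := PB.pow (hSP.add (PB.const _)) c₀
  have hHP : PB H := ((PB.const _).add (hCP.mul (PB.const 9))).mul (hCP.add ((PB.const _).mul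
    ((PB.id.add (PB.const _)).add (PB.const 1))))
  obtain ⟨C₁, q, hCq⟩ := hHP
  set m₀ := plen L + plen S with hm₀
  set c := m₀ + C₁ + 2 * q + 4 with hc
  refine ⟨c, fun n k hp => ?_⟩
  obtain ⟨u, hu⟩ : ∃ u, u = n + c + k := ⟨_, rfl⟩
  have hpr0 := hprov (n + c) k hp
  rw [← hu] at hpr0
  obtain ⟨X, e1, e2, e3, e4, e5⟩ := exists_cx B c₀ (Sf u) (by show 1 ≤ F u + u + _; omega)
  obtain ⟨⟨⟨hf, r⟩, ⟨hpr, hprg⟩⟩, ⟨hg, h1⟩⟩ := hX X (by rw [e1]; exact hB) (by rw [e3])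
    (by rw [e4, e5])
  have hSu : X.S = F u + u + (N₁ + 1 + f N₁) := by rw [e4]
  have okn : ∀ a, a ≤ N₁ + u → X.Ok (nT a) := fun a ha => X.ok_num (by rw [hSu]; omega)
  have hfS : f N₁ ≤ X.S := by omega
  have q1 := hf 13 (by omega) (lc L) (lc T) 0 0 N₁ (by omega) (by omega) (by omega) (by omega)
    hfS ⟨L, T, rfl, rfl, hL⟩
  have q2 := hf 13 (by omega) (lc S) (lc L) 0 0 N₁ (by omega) (by omega) (by omega) (by omega)
    hfS ⟨S, L, rfl, rfl, hLS⟩
  have q3 := hf 14 (by omega) (lc L) (plen L) 0 0 N₁ (by omega) (by omega) (by omega) (by omega)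
    hfS ⟨L, rfl, rfl⟩
  have q4 := hf 14 (by omega) (lc S) (plen S) 0 0 N₁ (by omega) (by omega) (by omega) (by omega)
    hfS ⟨S, rfl, rfl⟩
  have q5 := hf 11 (by omega) (lc T) 0 0 0 N₁ (by omega) (by omega) (by omega) (by omega)
    hfS ⟨T, rfl, hT⟩
  have q6 := hf 11 (by omega) (lc S) 0 0 0 N₁ (by omega) (by omega) (by omega) (by omega)
    hfS ⟨S, rfl, hS⟩
  have q7 : X.E 1 (Fm.eq (nT (n + c)) (.add (.add (.add (nT (plen L)) (nT (plen S)))
      (nT (C₁ + 2 * q + 4))) (nT n))) :=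
    hprg _ (hg (as [0, 0, 0, plen L, plen S, n + c, n, C₁ + 2 * q + 4]) X.S (as_le (by
      simp only [List.forall_mem_cons, List.not_mem_nil, IsEmpty.forall_iff, implies_true,
        and_true]
      omega)) (by
        show n + c = plen L + plen S + (C₁ + 2 * q + 4) + n
        omega))
  have q8 : X.E 1 (I.A 23 (nT (lc T)) (nT (n + c)) o o) := hpr _ (by
    rw [e1]
    exact hpr0.mono (by show F u ≤ X.S; omega) (by show F u ≤ X.S; omega))
  have q9 := r (tl [nT (lc L), nT (lc T), nT (lc S), nT (plen L), nT (plen S), nT (n + c), nT n,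
    nT (C₁ + 2 * q + 4)]) [1, 1, 1, 1, 1, 1, 1, 1] (Cx.ok8 (okn _ (by omega)) (okn _ (by omega))
    (okn _ (by omega)) (okn _ (by omega)) (okn _ (by omega)) (okn _ (by omega))
    (okn _ (by omega)) (okn _ (by omega)))
    (.cons q1 (.cons q2 (.cons q3 (.cons q4 (.cons q5 (.cons q6 (.cons q7 (.cons q8 .nil))))))))
  have q10 : Pr B (X.C * 9) X.C (I.A 23 (nT (lc S)) (nT n) o o) := by
    have : Pr X.B _ X.C (impL X.G (I.A 23 (nT (lc S)) (nT n) o o)) := q9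
    rw [e1, e2] at this
    exact this
  rw [e1] at h1
  have hXC : X.C = Cf u := e5
  have q11 := h1 (as [lc S, n]) (u + N₁) (Cf u + c1 * (u + N₁ + 1)) _ (as_le (by
      simp only [List.forall_mem_cons, List.not_mem_nil, IsEmpty.forall_iff, implies_true,
        and_true]
      omega)) (by omega) (by
    rw [I.cl _ _ _ _ _ _ (by simp [Al]) (by simp [Al]) (by simp) (by simp)]
    exact q10.mono le_rfl (by omega))
  rw [← hcon.conN_eq] at q11
  have q12 := q11.prov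
  rw [hXC] at q12
  refine q12.mono ?_
  have q13 : (c1 + Cf u * 9) * (Cf u + c1 * (u + N₁ + 1)) ≤ C₁ * (u + 2) ^ q := hCq u
  refine q13.trans ?_
  have hu2 : u = n + k + c := by omega
  rw [← hu2]
  have hu4 : 4 ≤ u := by omega
  have h5 : (u + 2) ^ q ≤ u ^ (2 * q) := by
    rw [pow_mul]
    refine Nat.pow_le_pow_left ?_ q
    nlinarith
  calc C₁ * (u + 2) ^ q ≤ u * u ^ (2 * q) := Nat.mul_le_mul (by omega) h5
    _ = u ^ (2 * q + 1) := by rw [pow_succ]; ring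
    _ ≤ u ^ c := Nat.pow_le_pow_right (by omega) (by omega)

lemma isProof_of_subset {T l : List Fm} (h : ∀ φ ∈ l, φ ∈ T) : IsProof T l := by
  induction l with
  | nil => trivial
  | cons φ l ih => exact ⟨ih fun ψ hψ => h ψ (List.mem_cons_of_mem _ hψ),
      Or.inl (h φ List.mem_cons_self)⟩

lemma free_sub_num {θ : Fm} {k z : ℕ} (h : θ.Free k) (hk : k ≠ 0) :
    (θ.sub 0 (nT z)).Free k := by
  have hT : ∀ t : Tm, t.Has k → (t.sub 0 (nT z)).Has k := by
    intro t ht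
    rw [Tm.sub_eq_sb, Tm.has_sb]
    exact ⟨k, ht, by rw [update_of_ne hk]; rfl⟩
  induction θ with
  | bot => exact h
  | eq a b => exact h.imp (hT a) (hT b)
  | le a b => exact h.imp (hT a) (hT b)
  | imp a b iha ihb => exact h.imp iha ihb
  | all j b ih =>
    by_cases hj : j = 0
    · simp only [Fm.sub, if_pos hj]; exact h
    · simp only [Fm.sub, if_neg hj]
      exact ⟨h.1, ih h.2⟩

/-- The main theorem. -/
theorem main {con : Fm} (hcon : IsCon con) {θ : Fm}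
    (hsound : ∀ S : List Fm, (∀ φ ∈ S, TrueS φ) → TrueS (θ.sub 0 (.num (lc S))))
    {B : List Fm} (hB : ∀ φ ∈ B, TrueS φ) :
    ∃ B₀ B₁ : List Fm, (∀ φ ∈ B₀, TrueS φ) ∧ (∀ φ ∈ B₁, φ ∈ B₀) ∧ (∀ φ ∈ B, φ ∈ B₁) ∧
      (∀ φ ∈ Q, φ ∈ B₁) ∧ ∀ A T : List Fm, (∀ φ ∈ A, Fm.Sentence φ) →
      (∀ φ ∈ T, Fm.Sentence φ) → (∀ k, ¬ Prov A k .bot) → (∀ φ ∈ B₀, ∃ k, Prov A k φ) →
      (∀ φ ∈ conS con A :: B₀, ∃ k, Prov T k φ) → (∀ φ ∈ conS con A :: B₁, TrueS φ) ∧
      ∃ c, ∀ n k, Prov A k (conN con T (n + c)) →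
        Prov (conS con A :: B₁) ((n + k + c) ^ c)
          (conN con (θ.sub 0 (.num (lc (conS con A :: B₁))) :: conS con A :: B₁) n) := by
  have hθ : ∀ k, θ.Free k → k = 0 := by
    intro k hk
    by_contra h
    exact (hsound [] (by simp)).1 k (free_sub_num hk h)
  obtain ⟨I⟩ := exists_ifaceA hcon hθ
  have hsound' : ∀ S : List Fm, (∀ φ ∈ S, TrueS φ) → θ.Sat fun _ => lc S := by
    intro S hS
    have h := (hsound S hS).2 fun _ => 0
    have h' : (θ.cl fun _ => lc S).Sat fun _ => 0 := by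
      rw [sub_one_eq hθ (lc S) (fun _ => lc S) rfl]; exact h
    rwa [Fm.sat_cl] at h'
  obtain ⟨Bs, hBs, hRef⟩ := exists_ref I hcon
  obtain ⟨Bc, hBc, hcore⟩ := core I hcon hRef
  obtain ⟨Bd, hBd, hdown⟩ := down I hcon
  obtain ⟨Be, hBe, hcc⟩ := rich_iff.mp (cc_fact I hcon)
  obtain ⟨B₁, hB₁⟩ : ∃ B₁, B₁ = B ++ (Q ++ (Bc ++ (Bd ++ Be))) := ⟨_, rfl⟩
  have hB₁t : ∀ φ ∈ B₁, TrueS φ := by
    intro φ hφ
    rw [hB₁] at hφ
    simp only [List.mem_append] at hφ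
    rcases hφ with h | h | h | h | h
    · exact hB φ h
    · exact Q_true φ h
    · exact hBc φ h
    · exact hBd φ h
    · exact hBe φ h
  obtain ⟨B₂, hB₂, hth⟩ := theta_fact I hcon hθ hB₁t hsound'
  refine ⟨B₁ ++ (Bs ++ B₂), B₁, ?_, fun φ hφ => List.mem_append_left _ hφ, ?_, ?_, ?_⟩
  · intro φ hφ
    simp only [List.mem_append] at hφ
    rcases hφ with h | h | h
    · exact hB₁t φ h
    · exact hBs φ h
    · exact hB₂ φ h
  · intro φ hφ
    rw [hB₁]; simp [hφ]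
  · intro φ hφ
    rw [hB₁]; simp [hφ]
  intro A T hA hTs hcons hB₀A hB₀T
  have s2 : ∀ φ ∈ Bs, ∃ k, Prov A k φ := fun φ hφ => hB₀A φ (by simp [hφ])
  have hconA : TrueS (conS con A) := ⟨hcon.conS_sentence A, fun e => (hcon.conS_sat hA e).mpr hcons⟩
  have hA't : ∀ φ ∈ conS con A :: B₁, TrueS φ := by
    intro φ hφ
    rcases List.mem_cons.mp hφ with rfl | hφ
    · exact hconA
    · exact hB₁t φ hφ
  refine ⟨hA't, ?_⟩
  obtain ⟨A', hA'⟩ : ∃ A', A' = conS con A :: B₁ := ⟨_, rfl⟩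
  rw [← hA']
  rw [← hA'] at hA't
  have m1 : ∀ φ ∈ B₁, φ ∈ A' := fun φ hφ => by rw [hA']; exact List.mem_cons_of_mem _ hφ
  have m2 : conS con A ∈ A' := by rw [hA']; exact List.mem_cons_self
  obtain ⟨k₀, hk₀⟩ := hcc A' (fun β hβ => m1 β (by rw [hB₁]; simp [hβ])) A m2
  obtain ⟨F, hFP, hF⟩ := hcore A' A T (fun β hβ => m1 β (by rw [hB₁]; simp [hβ])) hA s2 hTs k₀ hk₀
  -- `T` proves all the axioms
  obtain ⟨U, hU⟩ : ∃ U, U = conS con A :: (B₁ ++ (Bs ++ B₂)) := ⟨_, rfl⟩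
  rw [← hU] at hB₀T
  obtain ⟨LT, hLT, hLT'⟩ := exists_list hB₀T
  obtain ⟨k₁, L, hL1, hL2, _⟩ := hth U A (fun β hβ => by rw [hU]; simp [hβ])
    (by rw [hU]; exact List.mem_cons_self)
  rw [← hA'] at hL2
  have hL3 : IsProof T (L ++ LT) :=
    cut_list (hL1.mono fun φ hφ => List.mem_append_left _ hφ) hLT hLT'
  set S := θ.sub 0 (.num (lc A')) :: A' with hS
  have hSs : ∀ φ ∈ S, Fm.Sentence φ := by
    intro φ hφ
    rcases List.mem_cons.mp hφ with rfl | hφ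
    · exact (hsound A' hA't).1
    · exact (hA't φ hφ).1
  refine hdown A' A T S (L ++ LT) (fun β hβ => m1 β (by rw [hB₁]; simp [hβ])) hTs hSs
    hL3 (isProof_of_subset fun φ hφ => ?_) F hFP hF
  rcases List.mem_cons.mp hφ with rfl | hφ
  · exact List.mem_append_left _ hL2
  · refine List.mem_append_right _ (hLT' φ ?_)
    rw [hA'] at hφ
    rw [hU]
    rcases List.mem_cons.mp hφ with rfl | hφ
    · exact List.mem_cons_self
    · exact List.mem_cons_of_mem _ (List.mem_append_left _ hφ)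

end Helper31Con.Amp

end
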