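import Pool.Agent.Helper31_Amp.Truth

section

/-!
# Derivations of syntactic facts about named expressions
-/

namespace Helper31Con.Amp

open Function Filter Fm

lemma Cx.ok1 {X : Cx} {a : Tm} (ha : X.Ok a)
    (k : ℕ) : X.Ok (tl [a] k) := X.ok_tl (by
  simp only [List.forall_mem_cons, List.not_mem_nil, IsEmpty.forall_iff, implies_true, and_true]
  exact ha) k

lemma Cx.ok2 {X : Cx} {a b : Tm} (ha : X.Ok a) (hb : X.Ok b)
    (k : ℕ) : X.Ok (tl [a, b] k) := X.ok_tl (by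
  simp only [List.forall_mem_cons, List.not_mem_nil, IsEmpty.forall_iff, implies_true, and_true]
  exact ⟨ha, hb⟩) k

lemma Cx.ok3 {X : Cx} {a b c : Tm} (ha : X.Ok a) (hb : X.Ok b) (hc : X.Ok c)
    (k : ℕ) : X.Ok (tl [a, b, c] k) := X.ok_tl (by
  simp only [List.forall_mem_cons, List.not_mem_nil, IsEmpty.forall_iff, implies_true, and_true]
  exact ⟨ha, hb, hc⟩) k

lemma Cx.ok4 {X : Cx} {a b c d : Tm} (ha : X.Ok a) (hb : X.Ok b) (hc : X.Ok c) (hd : X.Ok d)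
    (k : ℕ) : X.Ok (tl [a, b, c, d] k) := X.ok_tl (by
  simp only [List.forall_mem_cons, List.not_mem_nil, IsEmpty.forall_iff, implies_true, and_true]
  exact ⟨ha, hb, hc, hd⟩) k

lemma Cx.ok5 {X : Cx} {a b c d e : Tm} (ha : X.Ok a) (hb : X.Ok b) (hc : X.Ok c) (hd : X.Ok d) (he : X.Ok e)
    (k : ℕ) : X.Ok (tl [a, b, c, d, e] k) := X.ok_tl (by
  simp only [List.forall_mem_cons, List.not_mem_nil, IsEmpty.forall_iff, implies_true, and_true]
  exact ⟨ha, hb, hc, hd, he⟩) k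

lemma Cx.ok6 {X : Cx} {a b c d e f : Tm} (ha : X.Ok a) (hb : X.Ok b) (hc : X.Ok c) (hd : X.Ok d) (he : X.Ok e) (hf : X.Ok f)
    (k : ℕ) : X.Ok (tl [a, b, c, d, e, f] k) := X.ok_tl (by
  simp only [List.forall_mem_cons, List.not_mem_nil, IsEmpty.forall_iff, implies_true, and_true]
  exact ⟨ha, hb, hc, hd, he, hf⟩) k

lemma Cx.ok7 {X : Cx} {a b c d e f g : Tm} (ha : X.Ok a) (hb : X.Ok b) (hc : X.Ok c) (hd : X.Ok d) (he : X.Ok e) (hf : X.Ok f) (hg : X.Ok g)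
    (k : ℕ) : X.Ok (tl [a, b, c, d, e, f, g] k) := X.ok_tl (by
  simp only [List.forall_mem_cons, List.not_mem_nil, IsEmpty.forall_iff, implies_true, and_true]
  exact ⟨ha, hb, hc, hd, he, hf, hg⟩) k

lemma Cx.ok8 {X : Cx} {a b c d e f g h : Tm} (ha : X.Ok a) (hb : X.Ok b) (hc : X.Ok c) (hd : X.Ok d) (he : X.Ok e) (hf : X.Ok f) (hg : X.Ok g) (hh : X.Ok h)
    (k : ℕ) : X.Ok (tl [a, b, c, d, e, f, g, h] k) := X.ok_tl (by
  simp only [List.forall_mem_cons, List.not_mem_nil, IsEmpty.forall_iff, implies_true, and_true]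
  exact ⟨ha, hb, hc, hd, he, hf, hg, hh⟩) k

lemma Cx.ok9 {X : Cx} {a b c d e f g h i : Tm} (ha : X.Ok a) (hb : X.Ok b) (hc : X.Ok c) (hd : X.Ok d) (he : X.Ok e) (hf : X.Ok f) (hg : X.Ok g) (hh : X.Ok h) (hi : X.Ok i)
    (k : ℕ) : X.Ok (tl [a, b, c, d, e, f, g, h, i] k) := X.ok_tl (by
  simp only [List.forall_mem_cons, List.not_mem_nil, IsEmpty.forall_iff, implies_true, and_true]
  exact ⟨ha, hb, hc, hd, he, hf, hg, hh, hi⟩) k

lemma Cx.ok10 {X : Cx} {a b c d e f g h i j : Tm} (ha : X.Ok a) (hb : X.Ok b) (hc : X.Ok c) (hd : X.Ok d) (he : X.Ok e) (hf : X.Ok f) (hg : X.Ok g) (hh : X.Ok h) (hi : X.Ok i) (hj : X.Ok j)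
    (k : ℕ) : X.Ok (tl [a, b, c, d, e, f, g, h, i, j] k) := X.ok_tl (by
  simp only [List.forall_mem_cons, List.not_mem_nil, IsEmpty.forall_iff, implies_true, and_true]
  exact ⟨ha, hb, hc, hd, he, hf, hg, hh, hi, hj⟩) k

lemma Cx.ok11 {X : Cx} {a b c d e f g h i j l : Tm} (ha : X.Ok a) (hb : X.Ok b) (hc : X.Ok c) (hd : X.Ok d) (he : X.Ok e) (hf : X.Ok f) (hg : X.Ok g) (hh : X.Ok h) (hi : X.Ok i) (hj : X.Ok j) (hl : X.Ok l)
    (k : ℕ) : X.Ok (tl [a, b, c, d, e, f, g, h, i, j, l] k) := X.ok_tl (by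
  simp only [List.forall_mem_cons, List.not_mem_nil, IsEmpty.forall_iff, implies_true, and_true]
  exact ⟨ha, hb, hc, hd, he, hf, hg, hh, hi, hj, hl⟩) k

lemma Cx.ok12 {X : Cx} {a b c d e f g h i j l m : Tm} (ha : X.Ok a) (hb : X.Ok b) (hc : X.Ok c) (hd : X.Ok d) (he : X.Ok e) (hf : X.Ok f) (hg : X.Ok g) (hh : X.Ok h) (hi : X.Ok i) (hj : X.Ok j) (hl : X.Ok l) (hm : X.Ok m)
    (k : ℕ) : X.Ok (tl [a, b, c, d, e, f, g, h, i, j, l, m] k) := X.ok_tl (by
  simp only [List.forall_mem_cons, List.not_mem_nil, IsEmpty.forall_iff, implies_true, and_true]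
  exact ⟨ha, hb, hc, hd, he, hf, hg, hh, hi, hj, hl, hm⟩) k

/-- Names for a set of expressions. -/
structure Nm (X : Cx) where
  T : Tm → Prop
  F : Fm → Prop
  t : Tm → Tm
  f : Fm → Tm
  okt : ∀ s, T s → X.Ok (t s)
  okf : ∀ φ, F φ → X.Ok (f φ)
  var : ∀ k, T (.var k) → X.Ok (nT k) ∧ X.E 1 (Fm.eq (t (.var k)) (ndT (nT 0) (nT k)))
  zero : T .zero → X.E 1 (Fm.eq (t .zero) (ndT (nT 1) .zero))
  succ : ∀ s, T (.succ s) → T s ∧ X.E 1 (Fm.eq (t (.succ s)) (ndT (nT 2) (t s)))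
  add : ∀ a b, T (.add a b) → T a ∧ T b ∧
    X.E 1 (Fm.eq (t (.add a b)) (ndT (nT 3) (ndT (t a) (t b))))
  mul : ∀ a b, T (.mul a b) → T a ∧ T b ∧
    X.E 1 (Fm.eq (t (.mul a b)) (ndT (nT 4) (ndT (t a) (t b))))
  bot : F .bot → X.E 1 (Fm.eq (f .bot) (ndT (nT 5) .zero))
  eq : ∀ a b, F (.eq a b) → T a ∧ T b ∧
    X.E 1 (Fm.eq (f (.eq a b)) (ndT (nT 6) (ndT (t a) (t b))))
  le : ∀ a b, F (.le a b) → T a ∧ T b ∧
    X.E 1 (Fm.eq (f (.le a b)) (ndT (nT 7) (ndT (t a) (t b))))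
  imp : ∀ a b, F (.imp a b) → F a ∧ F b ∧
    X.E 1 (Fm.eq (f (.imp a b)) (ndT (nT 8) (ndT (f a) (f b))))
  all : ∀ k b, F (.all k b) → X.Ok (nT k) ∧ F b ∧
    X.E 1 (Fm.eq (f (.all k b)) (ndT (nT 9) (ndT (nT k) (f b))))

/-- The zero term. -/
abbrev o : Tm := .zero

variable {con θ : Fm} (I : IfaceS (RA con θ))

/-! ### Types -/

lemma ev_isT : Ev fun X => ∀ (V : Nm X) (t : Tm), V.T t → X.E (2 * t.len) (I.A 0 (V.t t) o o o) := by
  have r0 := ev_rule I [.n1 (x 0) 0 (x 1)] (.rl 0 (x 0) o o o) (by simp [At.Wf, Al])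
    (fun e h => t_var h)
  have r1 := ev_rule I [.n1 (x 0) 1 o] (.rl 0 (x 0) o o o) (by simp [At.Wf, Al])
    (fun e h => t_zero h)
  have r2 := ev_rule I [.n1 (x 0) 2 (x 1), .rl 0 (x 1) o o o] (.rl 0 (x 0) o o o)
    (by simp [At.Wf, Al]) (fun e h h1 => t_succ h h1)
  have r3 := fun (d : ℕ) (hd : d = 3 ∨ d = 4) =>
    ev_rule I [.n2 (x 0) d (x 1) (x 2), .rl 0 (x 1) o o o, .rl 0 (x 2) o o o]
      (.rl 0 (x 0) o o o) (by simp [At.Wf, Al]) (fun e h h1 h2 => t_bin hd h h1 h2)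
  refine ((r0.and r1).and (r2.and ((r3 3 (by omega)).and (r3 4 (by omega))))).mono ?_
  rintro X ⟨⟨r0, r1⟩, ⟨r2, ⟨r3, r4⟩⟩⟩ V t
  induction t with
  | var k =>
    intro ht
    obtain ⟨ok, h⟩ := V.var k ht
    exact (r0 _ [1] (Cx.ok2 (V.okt _ ht) ok) (.cons h .nil)).mono (by simp [Tm.len] <;> omega)
  | zero =>
    intro ht
    exact (r1 _ [1] (Cx.ok1 (V.okt _ ht)) (.cons (V.zero ht) .nil)).mono (by simp [Tm.len])
  | succ s ih =>
    intro ht
    obtain ⟨h1, h2⟩ := V.succ s ht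
    exact (r2 _ [1, _] (Cx.ok2 (V.okt _ ht) (V.okt _ h1)) (.cons h2 (.cons (ih h1) .nil))).mono
      (by simp [Tm.len] <;> omega)
  | add a b iha ihb =>
    intro ht
    obtain ⟨h1, h2, h3⟩ := V.add a b ht
    exact (r3 _ [1, _, _] (Cx.ok3 (V.okt _ ht) (V.okt _ h1) (V.okt _ h2))
      (.cons h3 (.cons (iha h1) (.cons (ihb h2) .nil)))).mono (by simp [Tm.len] <;> omega)
  | mul a b iha ihb =>
    intro ht
    obtain ⟨h1, h2, h3⟩ := V.mul a b ht
    exact (r4 _ [1, _, _] (Cx.ok3 (V.okt _ ht) (V.okt _ h1) (V.okt _ h2))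
      (.cons h3 (.cons (iha h1) (.cons (ihb h2) .nil)))).mono (by simp [Tm.len] <;> omega)

lemma ev_isF : Ev fun X => ∀ (V : Nm X) (φ : Fm), V.F φ → X.E (2 * φ.len) (I.A 1 (V.f φ) o o o) := by
  have r1 := ev_rule I [.n1 (x 0) 5 o] (.rl 1 (x 0) o o o) (by simp [At.Wf, Al])
    (fun e h => f_bot h)
  have r2 := ev_rule I [.n2 (x 0) 8 (x 1) (x 2), .rl 1 (x 1) o o o, .rl 1 (x 2) o o o]
    (.rl 1 (x 0) o o o) (by simp [At.Wf, Al]) (fun e h h1 h2 => f_imp h h1 h2)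
  have r3 := fun (d : ℕ) (hd : d = 6 ∨ d = 7) =>
    ev_rule I [.n2 (x 0) d (x 1) (x 2), .rl 0 (x 1) o o o, .rl 0 (x 2) o o o]
      (.rl 1 (x 0) o o o) (by simp [At.Wf, Al]) (fun e h h1 h2 => f_at hd h h1 h2)
  have r5 := ev_rule I [.n2 (x 0) 9 (x 1) (x 2), .rl 1 (x 2) o o o]
    (.rl 1 (x 0) o o o) (by simp [At.Wf, Al]) (fun e h h1 => f_all h h1)
  refine (((ev_isT I).and r1).and ((r2.and r5).and
    ((r3 6 (by omega)).and (r3 7 (by omega))))).mono ?_
  rintro X ⟨⟨hT, r1⟩, ⟨⟨r2, r5⟩, ⟨r3, r4⟩⟩⟩ V φ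
  induction φ with
  | bot =>
    intro ht
    exact (r1 _ [1] (Cx.ok1 (V.okf _ ht)) (.cons (V.bot ht) .nil)).mono (by simp [Fm.len])
  | eq a b =>
    intro ht
    obtain ⟨h1, h2, h3⟩ := V.eq a b ht
    exact (r3 _ [1, _, _] (Cx.ok3 (V.okf _ ht) (V.okt _ h1) (V.okt _ h2))
      (.cons h3 (.cons (hT V a h1) (.cons (hT V b h2) .nil)))).mono (by simp [Fm.len] <;> omega)
  | le a b =>
    intro ht
    obtain ⟨h1, h2, h3⟩ := V.le a b ht
    exact (r4 _ [1, _, _] (Cx.ok3 (V.okf _ ht) (V.okt _ h1) (V.okt _ h2))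
      (.cons h3 (.cons (hT V a h1) (.cons (hT V b h2) .nil)))).mono (by simp [Fm.len] <;> omega)
  | imp a b iha ihb =>
    intro ht
    obtain ⟨h1, h2, h3⟩ := V.imp a b ht
    exact (r2 _ [1, _, _] (Cx.ok3 (V.okf _ ht) (V.okf _ h1) (V.okf _ h2))
      (.cons h3 (.cons (iha h1) (.cons (ihb h2) .nil)))).mono (by simp [Fm.len] <;> omega)
  | all k b ih =>
    intro ht
    obtain ⟨h1, h2, h3⟩ := V.all k b ht
    exact (r5 _ [1, _] (Cx.ok3 (V.okf _ ht) h1 (V.okf _ h2))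
      (.cons h3 (.cons (ih h2) .nil))).mono (by simp [Fm.len] <;> omega)

/-! ### Numerals -/

lemma Cx.Ok.num {X : Cx} {k : ℕ} (h : X.Ok (nT k)) : k + 1 ≤ X.S := by
  simpa using h.len

lemma ev_ne : Ev fun X => ∀ a b, X.Ok (nT a) → X.Ok (nT b) → a ≠ b →
    X.E 1 (neg (Fm.eq (nT a) (nT b))) := by
  obtain ⟨f, hf, h⟩ := num_ne
  refine ((ev_rich h).and (ev_pr hf)).mono ?_
  rintro X ⟨h1, h2⟩ a b ha hb hab
  exact h2 _ (h1 X.S a b (by have := ha.num; omega) (by have := hb.num; omega) hab)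

include I in
lemma ev_refl : Ev fun X => ∀ t, X.Ok t → X.E 1 (Fm.eq t t) := by
  have r := ev_rule I [] (.eq (x 0) (x 0)) (by simp [At.Wf]) (fun e => rfl)
  refine r.mono fun X r t ht => ?_
  exact (r _ [] (Cx.ok1 ht) .nil).mono (by simp)

/-! ### Free variables -/

lemma ev_nhT : Ev fun X => ∀ (V : Nm X) (j : ℕ), X.Ok (nT j) → ∀ t : Tm, V.T t → ¬ t.Has j →
    X.E (3 * t.len) (I.A 18 (V.t t) (nT j) o o) := by
  have r0 := ev_rule I [.n1 (x 0) 0 (x 1), .ne (x 1) (x 2)] (.rl 18 (x 0) (x 2) o o)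
    (by simp [At.Wf, Al]) (fun e h h1 => nh_var h h1)
  have r1 := ev_rule I [.n1 (x 0) 1 o] (.rl 18 (x 0) (x 1) o o) (by simp [At.Wf, Al])
    (fun e h => nh_c (by omega) h)
  have r2 := ev_rule I [.n1 (x 0) 2 (x 1), .rl 18 (x 1) (x 2) o o] (.rl 18 (x 0) (x 2) o o)
    (by simp [At.Wf, Al]) (fun e h h1 => nh_succ h h1)
  have r3 := fun (d : ℕ) (hd : T2 d) =>
    ev_rule I [.n2 (x 0) d (x 1) (x 2), .rl 18 (x 1) (x 3) o o, .rl 18 (x 2) (x 3) o o]
      (.rl 18 (x 0) (x 3) o o) (by simp [At.Wf, Al]) (fun e h h1 h2 => nh_bin hd h h1 h2)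
  refine (((r0.and r1).and (r2.and ((r3 3 (by unfold T2; omega)).and
    (r3 4 (by unfold T2; omega))))).and ev_ne).mono ?_
  rintro X ⟨⟨⟨r0, r1⟩, ⟨r2, ⟨r3, r4⟩⟩⟩, hne⟩ V j hj t
  induction t with
  | var k =>
    intro ht hn
    obtain ⟨ok, h⟩ := V.var k ht
    exact (r0 _ [1, 1] (Cx.ok3 (V.okt _ ht) ok hj)
      (.cons h (.cons (hne k j ok hj hn) .nil))).mono (by simp [Tm.len] <;> omega)
  | zero =>
    intro ht _
    exact (r1 _ [1] (Cx.ok2 (V.okt _ ht) hj) (.cons (V.zero ht) .nil)).mono (by simp [Tm.len])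
  | succ s ih =>
    intro ht hn
    obtain ⟨h1, h2⟩ := V.succ s ht
    exact (r2 _ [1, _] (Cx.ok3 (V.okt _ ht) (V.okt _ h1) hj)
      (.cons h2 (.cons (ih h1 hn) .nil))).mono (by simp [Tm.len] <;> omega)
  | add a b iha ihb =>
    intro ht hn
    obtain ⟨h1, h2, h3⟩ := V.add a b ht
    exact (r3 _ [1, _, _] (Cx.ok4 (V.okt _ ht) (V.okt _ h1) (V.okt _ h2) hj)
      (.cons h3 (.cons (iha h1 fun h => hn (Or.inl h)) (.cons (ihb h2 fun h => hn (Or.inr h))
        .nil)))).mono (by simp [Tm.len] <;> omega)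
  | mul a b iha ihb =>
    intro ht hn
    obtain ⟨h1, h2, h3⟩ := V.mul a b ht
    exact (r4 _ [1, _, _] (Cx.ok4 (V.okt _ ht) (V.okt _ h1) (V.okt _ h2) hj)
      (.cons h3 (.cons (iha h1 fun h => hn (Or.inl h)) (.cons (ihb h2 fun h => hn (Or.inr h))
        .nil)))).mono (by simp [Tm.len] <;> omega)

lemma ev_nhF : Ev fun X => ∀ (V : Nm X) (j : ℕ), X.Ok (nT j) → ∀ φ : Fm, V.F φ → ¬ φ.Free j →
    X.E (3 * φ.len) (I.A 18 (V.f φ) (nT j) o o) := by
  have r1 := ev_rule I [.n1 (x 0) 5 o] (.rl 18 (x 0) (x 1) o o) (by simp [At.Wf, Al])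
    (fun e h => nh_c (by omega) h)
  have r3 := fun (d : ℕ) (hd : T2 d) =>
    ev_rule I [.n2 (x 0) d (x 1) (x 2), .rl 18 (x 1) (x 3) o o, .rl 18 (x 2) (x 3) o o]
      (.rl 18 (x 0) (x 3) o o) (by simp [At.Wf, Al]) (fun e h h1 h2 => nh_bin hd h h1 h2)
  have r4 := ev_rule I [.n2 (x 0) 9 (x 1) (x 2)] (.rl 18 (x 0) (x 1) o o) (by simp [At.Wf, Al])
    (fun e h => nh_same h)
  have r5 := ev_rule I [.n2 (x 0) 9 (x 1) (x 2), .rl 18 (x 2) (x 3) o o] (.rl 18 (x 0) (x 3) o o)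
    (by simp [At.Wf, Al]) (fun e h h1 => nh_all h h1)
  refine ((((ev_nhT I).and r1).and ((r3 8 (by unfold T2; omega)).and
    ((r3 6 (by unfold T2; omega)).and (r3 7 (by unfold T2; omega))))).and (r4.and r5)).mono ?_
  rintro X ⟨⟨⟨hT, r1⟩, ⟨r8, ⟨r6, r7⟩⟩⟩, ⟨r4, r5⟩⟩ V j hj φ
  induction φ with
  | bot =>
    intro ht _
    exact (r1 _ [1] (Cx.ok2 (V.okf _ ht) hj) (.cons (V.bot ht) .nil)).mono (by simp [Fm.len])
  | eq a b =>
    intro ht hn
    obtain ⟨h1, h2, h3⟩ := V.eq a b ht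
    exact (r6 _ [1, _, _] (Cx.ok4 (V.okf _ ht) (V.okt _ h1) (V.okt _ h2) hj)
      (.cons h3 (.cons (hT V j hj a h1 fun h => hn (Or.inl h))
        (.cons (hT V j hj b h2 fun h => hn (Or.inr h)) .nil)))).mono (by simp [Fm.len] <;> omega)
  | le a b =>
    intro ht hn
    obtain ⟨h1, h2, h3⟩ := V.le a b ht
    exact (r7 _ [1, _, _] (Cx.ok4 (V.okf _ ht) (V.okt _ h1) (V.okt _ h2) hj)
      (.cons h3 (.cons (hT V j hj a h1 fun h => hn (Or.inl h))
        (.cons (hT V j hj b h2 fun h => hn (Or.inr h)) .nil)))).mono (by simp [Fm.len] <;> omega)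
  | imp a b iha ihb =>
    intro ht hn
    obtain ⟨h1, h2, h3⟩ := V.imp a b ht
    exact (r8 _ [1, _, _] (Cx.ok4 (V.okf _ ht) (V.okf _ h1) (V.okf _ h2) hj)
      (.cons h3 (.cons (iha h1 fun h => hn (Or.inl h))
        (.cons (ihb h2 fun h => hn (Or.inr h)) .nil)))).mono (by simp [Fm.len] <;> omega)
  | all k b ih =>
    intro ht hn
    obtain ⟨h1, h2, h3⟩ := V.all k b ht
    by_cases hk : k = j
    · subst hk
      exact (r4 _ [1] (Cx.ok3 (V.okf _ ht) h1 (V.okf _ h2)) (.cons h3 .nil)).mono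
        (by simp [Fm.len] <;> omega)
    · exact (r5 _ [1, _] (Cx.ok4 (V.okf _ ht) h1 (V.okf _ h2) hj)
        (.cons h3 (.cons (ih h2 fun h => hn ⟨hk, h⟩) .nil))).mono (by simp [Fm.len] <;> omega)

/-! ### Substitution -/

lemma ev_sbT : Ev fun X => ∀ (V : Nm X) (j : ℕ) (r : Tm), X.Ok (nT j) → V.T r → ∀ t : Tm,
    V.T t → V.T (t.sub j r) →
    X.E (3 * t.len) (I.A 19 (V.t t) (nT j) (V.t r) (V.t (t.sub j r))) := by
  have r0 := ev_rule I [.n1 (x 0) 0 (x 1)] (.rl 19 (x 0) (x 1) (x 2) (x 2))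
    (by simp [At.Wf, Al]) (fun e h => sb_same h)
  have r0' := ev_rule I [.n1 (x 0) 0 (x 1), .ne (x 1) (x 2)] (.rl 19 (x 0) (x 2) (x 3) (x 0))
    (by simp [At.Wf, Al]) (fun e h h1 => sb_ne h h1)
  have r1 := ev_rule I [.n1 (x 0) 1 o] (.rl 19 (x 0) (x 1) (x 2) (x 0)) (by simp [At.Wf, Al])
    (fun e h => sb_c (by omega) h)
  have r2 := ev_rule I [.n1 (x 0) 2 (x 1), .n1 (x 2) 2 (x 3), .rl 19 (x 1) (x 4) (x 5) (x 3)]
    (.rl 19 (x 0) (x 4) (x 5) (x 2)) (by simp [At.Wf, Al]) (fun e h h' h1 => sb_succ h h' h1)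
  have r3 := fun (d : ℕ) (hd : T2 d) =>
    ev_rule I [.n2 (x 0) d (x 1) (x 2), .n2 (x 3) d (x 4) (x 5), .rl 19 (x 1) (x 6) (x 7) (x 4),
      .rl 19 (x 2) (x 6) (x 7) (x 5)] (.rl 19 (x 0) (x 6) (x 7) (x 3)) (by simp [At.Wf, Al])
      (fun e h h' h1 h2 => sb_bin hd h h' h1 h2)
  refine ((((r0.and r0').and r1).and (r2.and ((r3 3 (by unfold T2; omega)).and
    (r3 4 (by unfold T2; omega))))).and ev_ne).mono ?_
  rintro X ⟨⟨⟨⟨r0, r0'⟩, r1⟩, ⟨r2, ⟨r3, r4⟩⟩⟩, hne⟩ V j r hj hr t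
  induction t with
  | var k =>
    intro ht ht'
    obtain ⟨ok, h⟩ := V.var k ht
    by_cases hk : k = j
    · subst hk
      have e1 : (Tm.var k).sub k r = r := by simp [Tm.sub]
      rw [e1]
      exact (r0 _ [1] (Cx.ok3 (V.okt _ ht) hj (V.okt _ hr)) (.cons h .nil)).mono
        (by simp [Tm.len] <;> omega)
    · have e1 : (Tm.var k).sub j r = .var k := by simp [Tm.sub, hk]
      rw [e1]
      exact (r0' _ [1, 1] (Cx.ok4 (V.okt _ ht) ok hj (V.okt _ hr))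
        (.cons h (.cons (hne k j ok hj hk) .nil))).mono (by simp [Tm.len] <;> omega)
  | zero =>
    intro ht _
    exact (r1 _ [1] (Cx.ok3 (V.okt _ ht) hj (V.okt _ hr)) (.cons (V.zero ht) .nil)).mono
      (by simp [Tm.len])
  | succ s ih =>
    intro ht ht'
    obtain ⟨h1, h2⟩ := V.succ s ht
    obtain ⟨h1', h2'⟩ := V.succ (s.sub j r) ht'
    exact (r2 _ [1, 1, _] (Cx.ok6 (V.okt _ ht) (V.okt _ h1) (V.okt _ ht') (V.okt _ h1') hj
      (V.okt _ hr)) (.cons h2 (.cons h2' (.cons (ih h1 h1') .nil)))).mono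
        (by simp [Tm.len] <;> omega)
  | add a b iha ihb =>
    intro ht ht'
    obtain ⟨h1, h2, h3⟩ := V.add a b ht
    obtain ⟨h1', h2', h3'⟩ := V.add (a.sub j r) (b.sub j r) ht'
    exact (r3 _ [1, 1, _, _] (Cx.ok8 (V.okt _ ht) (V.okt _ h1) (V.okt _ h2) (V.okt _ ht')
      (V.okt _ h1') (V.okt _ h2') hj (V.okt _ hr))
      (.cons h3 (.cons h3' (.cons (iha h1 h1') (.cons (ihb h2 h2') .nil))))).mono
        (by simp [Tm.len] <;> omega)
  | mul a b iha ihb =>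
    intro ht ht'
    obtain ⟨h1, h2, h3⟩ := V.mul a b ht
    obtain ⟨h1', h2', h3'⟩ := V.mul (a.sub j r) (b.sub j r) ht'
    exact (r4 _ [1, 1, _, _] (Cx.ok8 (V.okt _ ht) (V.okt _ h1) (V.okt _ h2) (V.okt _ ht')
      (V.okt _ h1') (V.okt _ h2') hj (V.okt _ hr))
      (.cons h3 (.cons h3' (.cons (iha h1 h1') (.cons (ihb h2 h2') .nil))))).mono
        (by simp [Tm.len] <;> omega)

lemma ev_sbF : Ev fun X => ∀ (V : Nm X) (j : ℕ) (r : Tm), X.Ok (nT j) → V.T r → ∀ φ : Fm,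
    V.F φ → V.F (φ.sub j r) →
    X.E (3 * φ.len) (I.A 19 (V.f φ) (nT j) (V.t r) (V.f (φ.sub j r))) := by
  have r1 := ev_rule I [.n1 (x 0) 5 o] (.rl 19 (x 0) (x 1) (x 2) (x 0)) (by simp [At.Wf, Al])
    (fun e h => sb_c (by omega) h)
  have r3 := fun (d : ℕ) (hd : T2 d) =>
    ev_rule I [.n2 (x 0) d (x 1) (x 2), .n2 (x 3) d (x 4) (x 5), .rl 19 (x 1) (x 6) (x 7) (x 4),
      .rl 19 (x 2) (x 6) (x 7) (x 5)] (.rl 19 (x 0) (x 6) (x 7) (x 3)) (by simp [At.Wf, Al])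
      (fun e h h' h1 h2 => sb_bin hd h h' h1 h2)
  have r4 := ev_rule I [.n2 (x 0) 9 (x 1) (x 2)] (.rl 19 (x 0) (x 1) (x 3) (x 0))
    (by simp [At.Wf, Al]) (fun e h => sb_allsame h)
  have r5 := ev_rule I [.n2 (x 0) 9 (x 1) (x 2), .n2 (x 3) 9 (x 1) (x 4), .ne (x 1) (x 5),
      .rl 19 (x 2) (x 5) (x 6) (x 4)] (.rl 19 (x 0) (x 5) (x 6) (x 3))
    (by simp [At.Wf, Al]) (fun e h h' h1 h2 => sb_all h h' h1 h2)
  refine (((((ev_sbT I).and r1).and ((r3 8 (by unfold T2; omega)).and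
    ((r3 6 (by unfold T2; omega)).and (r3 7 (by unfold T2; omega))))).and (r4.and r5)).and
      ev_ne).mono ?_
  rintro X ⟨⟨⟨⟨hT, r1⟩, ⟨r8, ⟨r6, r7⟩⟩⟩, ⟨r4, r5⟩⟩, hne⟩ V j r hj hr φ
  induction φ with
  | bot =>
    intro ht _
    exact (r1 _ [1] (Cx.ok3 (V.okf _ ht) hj (V.okt _ hr)) (.cons (V.bot ht) .nil)).mono
      (by simp [Fm.len])
  | eq a b =>
    intro ht ht'
    obtain ⟨h1, h2, h3⟩ := V.eq a b ht
    obtain ⟨h1', h2', h3'⟩ := V.eq (a.sub j r) (b.sub j r) ht'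
    exact (r6 _ [1, 1, _, _] (Cx.ok8 (V.okf _ ht) (V.okt _ h1) (V.okt _ h2) (V.okf _ ht')
      (V.okt _ h1') (V.okt _ h2') hj (V.okt _ hr))
      (.cons h3 (.cons h3' (.cons (hT V j r hj hr a h1 h1') (.cons (hT V j r hj hr b h2 h2')
        .nil))))).mono (by simp [Fm.len] <;> omega)
  | le a b =>
    intro ht ht'
    obtain ⟨h1, h2, h3⟩ := V.le a b ht
    obtain ⟨h1', h2', h3'⟩ := V.le (a.sub j r) (b.sub j r) ht'
    exact (r7 _ [1, 1, _, _] (Cx.ok8 (V.okf _ ht) (V.okt _ h1) (V.okt _ h2) (V.okf _ ht')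
      (V.okt _ h1') (V.okt _ h2') hj (V.okt _ hr))
      (.cons h3 (.cons h3' (.cons (hT V j r hj hr a h1 h1') (.cons (hT V j r hj hr b h2 h2')
        .nil))))).mono (by simp [Fm.len] <;> omega)
  | imp a b iha ihb =>
    intro ht ht'
    obtain ⟨h1, h2, h3⟩ := V.imp a b ht
    obtain ⟨h1', h2', h3'⟩ := V.imp (a.sub j r) (b.sub j r) ht'
    exact (r8 _ [1, 1, _, _] (Cx.ok8 (V.okf _ ht) (V.okf _ h1) (V.okf _ h2) (V.okf _ ht')
      (V.okf _ h1') (V.okf _ h2') hj (V.okt _ hr))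
      (.cons h3 (.cons h3' (.cons (iha h1 h1') (.cons (ihb h2 h2') .nil))))).mono
        (by simp [Fm.len] <;> omega)
  | all k b ih =>
    intro ht ht'
    obtain ⟨h1, h2, h3⟩ := V.all k b ht
    by_cases hk : k = j
    · subst hk
      have e1 : (Fm.all k b).sub k r = .all k b := by simp [Fm.sub]
      rw [e1]
      exact (r4 _ [1] (Cx.ok4 (V.okf _ ht) h1 (V.okf _ h2) (V.okt _ hr)) (.cons h3 .nil)).mono
        (by simp [Fm.len] <;> omega)
    · have e1 : (Fm.all k b).sub j r = .all k (b.sub j r) := by simp [Fm.sub, hk]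
      rw [e1] at ht' ⊢
      obtain ⟨h1', h2', h3'⟩ := V.all k _ ht'
      exact (r5 _ [1, 1, 1, _] (Cx.ok7 (V.okf _ ht) h1 (V.okf _ h2) (V.okf _ ht') (V.okf _ h2')
        hj (V.okt _ hr)) (.cons h3 (.cons h3' (.cons (hne k j h1 hj hk)
          (.cons (ih h2 h2') .nil))))).mono (by simp [Fm.len] <;> omega)

/-! ### Free for -/

lemma ev_ff : Ev fun X => ∀ (V : Nm X) (j : ℕ) (r : Tm), X.Ok (nT j) → V.T r → ∀ φ : Fm,
    V.F φ → φ.FreeFor j r →
    X.E ((3 * r.len + 5) * φ.len) (I.A 20 (V.f φ) (nT j) (V.t r) o) := by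
  have r1 := ev_rule I [.n1 (x 0) 5 o] (.rl 20 (x 0) (x 1) (x 2) o) (by simp [At.Wf, Al])
    (fun e h => ff_bot h)
  have r2 := fun (d : ℕ) (hd : d = 6 ∨ d = 7) =>
    ev_rule I [.n2 (x 0) d (x 1) (x 2)] (.rl 20 (x 0) (x 3) (x 4) o) (by simp [At.Wf, Al])
      (fun e h => ff_at hd h)
  have r3 := ev_rule I [.n2 (x 0) 8 (x 1) (x 2), .rl 20 (x 1) (x 3) (x 4) o,
      .rl 20 (x 2) (x 3) (x 4) o] (.rl 20 (x 0) (x 3) (x 4) o) (by simp [At.Wf, Al])
      (fun e h h1 h2 => ff_imp h h1 h2)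
  have r4 := ev_rule I [.n2 (x 0) 9 (x 1) (x 2)] (.rl 20 (x 0) (x 1) (x 3) o)
    (by simp [At.Wf, Al]) (fun e h => ff_same h)
  have r5 := ev_rule I [.n2 (x 0) 9 (x 1) (x 2), .rl 18 (x 2) (x 3) o o]
    (.rl 20 (x 0) (x 3) (x 4) o) (by simp [At.Wf, Al]) (fun e h h1 => ff_nf h h1)
  have r6 := ev_rule I [.n2 (x 0) 9 (x 1) (x 2), .rl 18 (x 4) (x 1) o o,
      .rl 20 (x 2) (x 3) (x 4) o]
    (.rl 20 (x 0) (x 3) (x 4) o) (by simp [At.Wf, Al]) (fun e h h1 h2 => ff_rec h h1 h2)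
  refine ((((ev_nhT I).and (ev_nhF I)).and (r1.and ((r2 6 (by omega)).and
    (r2 7 (by omega))))).and ((r3.and r4).and (r5.and r6))).mono ?_
  rintro X ⟨⟨⟨hT, hF⟩, ⟨r1, ⟨r2, r2'⟩⟩⟩, ⟨⟨r3, r4⟩, ⟨r5, r6⟩⟩⟩ V j r hj hr φ
  have hrl := r.len_pos
  induction φ with
  | bot =>
    intro ht _
    exact (r1 _ [1] (Cx.ok3 (V.okf _ ht) hj (V.okt _ hr)) (.cons (V.bot ht) .nil)).mono
      (by simp [Fm.len] <;> omega)
  | eq a b =>
    intro ht _
    obtain ⟨h1, h2, h3⟩ := V.eq a b ht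
    exact (r2 _ [1] (Cx.ok5 (V.okf _ ht) (V.okt _ h1) (V.okt _ h2) hj (V.okt _ hr))
      (.cons h3 .nil)).mono (by simp [Fm.len] <;> nlinarith)
  | le a b =>
    intro ht _
    obtain ⟨h1, h2, h3⟩ := V.le a b ht
    exact (r2' _ [1] (Cx.ok5 (V.okf _ ht) (V.okt _ h1) (V.okt _ h2) hj (V.okt _ hr))
      (.cons h3 .nil)).mono (by simp [Fm.len] <;> nlinarith)
  | imp a b iha ihb =>
    intro ht hn
    obtain ⟨h1, h2, h3⟩ := V.imp a b ht
    exact (r3 _ [1, _, _] (Cx.ok5 (V.okf _ ht) (V.okf _ h1) (V.okf _ h2) hj (V.okt _ hr))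
      (.cons h3 (.cons (iha h1 hn.1) (.cons (ihb h2 hn.2) .nil)))).mono
        (by simp [Fm.len] <;> nlinarith)
  | all k b ih =>
    intro ht hn
    obtain ⟨h1, h2, h3⟩ := V.all k b ht
    by_cases hk : k = j
    · subst hk
      exact (r4 _ [1] (Cx.ok4 (V.okf _ ht) h1 (V.okf _ h2) (V.okt _ hr)) (.cons h3 .nil)).mono
        (by simp [Fm.len] <;> nlinarith)
    · by_cases hf : b.Free j
      · obtain ⟨h4, h5⟩ : ¬ r.Has k ∧ b.FreeFor j r := by
          rcases hn with h | h | h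
          · exact absurd h hk
          · exact absurd hf h
          · exact h
        exact (r6 _ [1, _, _] (Cx.ok5 (V.okf _ ht) h1 (V.okf _ h2) hj (V.okt _ hr))
          (.cons h3 (.cons (hT V k h1 r hr h4) (.cons (ih h2 h5) .nil)))).mono
            (by simp [Fm.len] <;> nlinarith)
      · exact (r5 _ [1, _] (Cx.ok5 (V.okf _ ht) h1 (V.okf _ h2) hj (V.okt _ hr))
          (.cons h3 (.cons (hF V j hj b h2 hf) .nil))).mono (by simp [Fm.len] <;> nlinarith)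

/-! ### Numerals and codes -/

lemma ev_nm : Ev fun X => ∀ (V : Nm X) (m : ℕ), X.Ok (nT m) → V.T (nT m) →
    X.E (2 * (m + 1)) (I.A 16 (nT m) (V.t (nT m)) o o) := by
  have r0 := ev_rule I [.n1 (x 0) 1 o] (.rl 16 o (x 0) o o) (by simp [At.Wf, Al])
    (fun e h => h)
  have r1 := ev_rule I [.n1 (x 0) 2 (x 1), .rl 16 (x 2) (x 1) o o]
    (.rl 16 (.succ (x 2)) (x 0) o o) (by simp [At.Wf, Al]) (fun e h h1 => by
      have h1' : e 1 = tc (Tm.num (e 2)) := h1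
      have h' : e 0 = nd 2 (e 1) := h
      show e 0 = tc (Tm.num (e 2 + 1))
      rw [h', h1']; rfl)
  refine (r0.and r1).mono ?_
  rintro X ⟨r0, r1⟩ V m
  induction m with
  | zero =>
    intro _ ht
    exact (r0 _ [1] (Cx.ok1 (V.okt _ ht)) (.cons (V.zero ht) .nil)).mono (by simp)
  | succ m ih =>
    intro hm ht
    have hm' : X.Ok (nT m) := X.ok_num (by have := hm.num; omega)
    obtain ⟨h1, h2⟩ := V.succ (nT m) ht
    exact (r1 _ [1, _] (Cx.ok3 (V.okt _ ht) (V.okt _ h1) hm')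
      (.cons h2 (.cons (ih hm' h1) .nil))).mono (by simp <;> omega)

lemma ev_n1 : Ev fun X => ∀ d a, nd d a + 1 ≤ X.S →
    X.E 1 (Fm.eq (nT (nd d a)) (ndT (nT d) (nT a))) := by
  obtain ⟨f, hf, h⟩ := eq_fact (x 0) (ndT (x 1) (x 2))
  refine ((ev_rich h).and (ev_pr hf)).mono ?_
  rintro X ⟨h1, h2⟩ d a hS
  have h3 := lt_nd_l d a
  have h4 := lt_nd_r d a
  have := h1 (as [nd d a, d, a]) X.S (as_le (by
    simp only [List.forall_mem_cons, List.not_mem_nil, IsEmpty.forall_iff, implies_true, and_true]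
    omega)) (by rw [val_ndT]; rfl)
  exact h2 _ this

lemma ev_n2 : Ev fun X => ∀ d a b, nd d (nd a b) + 1 ≤ X.S →
    X.E 1 (Fm.eq (nT (nd d (nd a b))) (ndT (nT d) (ndT (nT a) (nT b)))) := by
  obtain ⟨f, hf, h⟩ := eq_fact (x 0) (ndT (x 1) (ndT (x 2) (x 3)))
  refine ((ev_rich h).and (ev_pr hf)).mono ?_
  rintro X ⟨h1, h2⟩ d a b hS
  have h3 := lt_nd_l d (nd a b)
  have h4 := lt_nd2_l d a b
  have h5 := lt_nd2_r d a b
  have := h1 (as [nd d (nd a b), d, a, b]) X.S (as_le (by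
    simp only [List.forall_mem_cons, List.not_mem_nil, IsEmpty.forall_iff, implies_true, and_true]
    omega)) (by rw [val_ndT, val_ndT]; rfl)
  exact h2 _ this

include I in
lemma ev_cd1 : Ev fun X => ∀ d a n (u y : Tm), d < 10 → nd d a + 1 ≤ X.S → X.Ok u → X.Ok y →
    X.E 1 (Fm.eq u (ndT (nT d) y)) → X.E n (Fm.eq y (nT a)) →
    X.E (n + 3) (Fm.eq u (nT (nd d a))) := by
  have r := ev_lt 10 fun d _ => ev_rule I [.n1 (x 0) d (x 1), .eq (x 1) (x 2), .n1 (x 3) d (x 2)]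
    (.eq (x 0) (x 3)) (by simp [At.Wf]) (fun e h h1 h2 => by
      have h' : e 0 = nd d (e 1) := h
      have h1' : e 1 = e 2 := h1
      have h2' : e 3 = nd d (e 2) := h2
      show e 0 = e 3
      rw [h', h1', h2'])
  refine (r.and ev_n1).mono ?_
  rintro X ⟨r, hn⟩ d a n u y hd hS hu hy h1 h2
  have h3 := lt_nd_r d a
  exact (r d hd _ [1, n, 1] (Cx.ok4 hu hy (X.ok_num (by omega)) (X.ok_num hS))
    (.cons h1 (.cons h2 (.cons (hn d a hS) .nil)))).mono (by simp <;> omega)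

include I in
lemma ev_cd2 : Ev fun X => ∀ d a b n m (u y z : Tm), d < 10 → nd d (nd a b) + 1 ≤ X.S → X.Ok u →
    X.Ok y → X.Ok z → X.E 1 (Fm.eq u (ndT (nT d) (ndT y z))) → X.E n (Fm.eq y (nT a)) →
    X.E m (Fm.eq z (nT b)) → X.E (n + m + 3) (Fm.eq u (nT (nd d (nd a b)))) := by
  have r := ev_lt 10 fun d _ => ev_rule I [.n2 (x 0) d (x 1) (x 2), .eq (x 1) (x 3),
    .eq (x 2) (x 4), .n2 (x 5) d (x 3) (x 4)]
    (.eq (x 0) (x 5)) (by simp [At.Wf]) (fun e h h1 h2 h3 => by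
      have h' : e 0 = nd d (nd (e 1) (e 2)) := h
      have h1' : e 1 = e 3 := h1
      have h2' : e 2 = e 4 := h2
      have h3' : e 5 = nd d (nd (e 3) (e 4)) := h3
      show e 0 = e 5
      rw [h', h1', h2', h3'])
  refine (r.and ev_n2).mono ?_
  rintro X ⟨r, hn⟩ d a b n m u y z hd hS hu hy hz h1 h2 h3
  have h4 := lt_nd2_l d a b
  have h5 := lt_nd2_r d a b
  exact (r d hd _ [1, n, m, 1] (Cx.ok6 hu hy hz (X.ok_num (by omega)) (X.ok_num (by omega))
    (X.ok_num hS)) (.cons h1 (.cons h2 (.cons h3 (.cons (hn d a b hS) .nil))))).mono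
      (by simp <;> omega)

include I in
/-- Names of expressions with small codes are equal to these codes. -/
lemma ev_codeT : Ev fun X => ∀ (V : Nm X) (t : Tm), V.T t → tc t + 1 ≤ X.S →
    X.E (4 * t.len) (Fm.eq (V.t t) (nT (tc t))) := by
  refine (((ev_cd1 I).and (ev_cd2 I)).and (ev_refl I)).mono ?_
  rintro X ⟨⟨c1, c2⟩, hr⟩ V t
  induction t with
  | var k =>
    intro ht hS
    obtain ⟨ok, h⟩ := V.var k ht
    exact (c1 0 k 1 _ _ (by omega) hS (V.okt _ ht) ok h (hr _ ok)).mono (by simp [Tm.len] <;> omega)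
  | zero =>
    intro ht hS
    exact (c1 1 0 1 _ _ (by omega) hS (V.okt _ ht) X.ok_zero (V.zero ht) (hr _ X.ok_zero)).mono
      (by simp [Tm.len])
  | succ s ih =>
    intro ht hS
    obtain ⟨h1, h2⟩ := V.succ s ht
    simp only [tc] at hS ⊢
    have h3 := lt_nd_r 2 (tc s)
    exact (c1 2 _ _ _ _ (by omega) hS (V.okt _ ht) (V.okt _ h1) h2 (ih h1 (by omega))).mono
      (by simp [Tm.len] <;> omega)
  | add a b iha ihb =>
    intro ht hS
    obtain ⟨h1, h2, h3⟩ := V.add a b ht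
    simp only [tc] at hS ⊢
    have h4 := lt_nd2_l 3 (tc a) (tc b)
    have h5 := lt_nd2_r 3 (tc a) (tc b)
    exact (c2 3 _ _ _ _ _ _ _ (by omega) hS (V.okt _ ht) (V.okt _ h1) (V.okt _ h2) h3
      (iha h1 (by omega)) (ihb h2 (by omega))).mono (by simp [Tm.len] <;> omega)
  | mul a b iha ihb =>
    intro ht hS
    obtain ⟨h1, h2, h3⟩ := V.mul a b ht
    simp only [tc] at hS ⊢
    have h4 := lt_nd2_l 4 (tc a) (tc b)
    have h5 := lt_nd2_r 4 (tc a) (tc b)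
    exact (c2 4 _ _ _ _ _ _ _ (by omega) hS (V.okt _ ht) (V.okt _ h1) (V.okt _ h2) h3
      (iha h1 (by omega)) (ihb h2 (by omega))).mono (by simp [Tm.len] <;> omega)

include I in
lemma ev_codeF : Ev fun X => ∀ (V : Nm X) (φ : Fm), V.F φ → fc φ + 1 ≤ X.S →
    X.E (4 * φ.len) (Fm.eq (V.f φ) (nT (fc φ))) := by
  refine ((((ev_cd1 I).and (ev_cd2 I)).and (ev_refl I)).and (ev_codeT I)).mono ?_
  rintro X ⟨⟨⟨c1, c2⟩, hr⟩, hT⟩ V φ
  induction φ with
  | bot =>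
    intro ht hS
    exact (c1 5 0 1 _ _ (by omega) hS (V.okf _ ht) X.ok_zero (V.bot ht) (hr _ X.ok_zero)).mono
      (by simp [Fm.len])
  | eq a b =>
    intro ht hS
    obtain ⟨h1, h2, h3⟩ := V.eq a b ht
    simp only [fc] at hS ⊢
    have h4 := lt_nd2_l 6 (tc a) (tc b)
    have h5 := lt_nd2_r 6 (tc a) (tc b)
    exact (c2 6 _ _ _ _ _ _ _ (by omega) hS (V.okf _ ht) (V.okt _ h1) (V.okt _ h2) h3
      (hT V a h1 (by omega)) (hT V b h2 (by omega))).mono (by simp [Fm.len] <;> omega)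
  | le a b =>
    intro ht hS
    obtain ⟨h1, h2, h3⟩ := V.le a b ht
    simp only [fc] at hS ⊢
    have h4 := lt_nd2_l 7 (tc a) (tc b)
    have h5 := lt_nd2_r 7 (tc a) (tc b)
    exact (c2 7 _ _ _ _ _ _ _ (by omega) hS (V.okf _ ht) (V.okt _ h1) (V.okt _ h2) h3
      (hT V a h1 (by omega)) (hT V b h2 (by omega))).mono (by simp [Fm.len] <;> omega)
  | imp a b iha ihb =>
    intro ht hS
    obtain ⟨h1, h2, h3⟩ := V.imp a b ht
    simp only [fc] at hS ⊢
    have h4 := lt_nd2_l 8 (fc a) (fc b)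
    have h5 := lt_nd2_r 8 (fc a) (fc b)
    exact (c2 8 _ _ _ _ _ _ _ (by omega) hS (V.okf _ ht) (V.okf _ h1) (V.okf _ h2) h3
      (iha h1 (by omega)) (ihb h2 (by omega))).mono (by simp [Fm.len] <;> omega)
  | all k b ih =>
    intro ht hS
    obtain ⟨h1, h2, h3⟩ := V.all k b ht
    simp only [fc] at hS ⊢
    have h5 := lt_nd2_r 9 k (fc b)
    exact (c2 9 _ _ _ _ _ _ _ (by omega) hS (V.okf _ ht) h1 (V.okf _ h2) h3
      (hr _ h1) (ih h2 (by omega))).mono (by simp [Fm.len] <;> omega)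

end Helper31Con.Amp

end

section

/-!
# Formal verification of proofs
-/

namespace Helper31Con.Amp

open Function Filter Fm

/-! ### Extensions of contexts -/

/-- More axioms. -/
def Cx.ext (X : Cx) (Ps : List Fm) : Cx := { X with B := Ps ++ X.B }

lemma Cx.E.ext {X : Cx} {n : ℕ} {φ : Fm} (h : X.E n φ) (Ps : List Fm) : (X.ext Ps).E n φ :=
  Pr.monoT h fun _ hψ => List.mem_append_right _ hψ

lemma Ev.ext {P : Cx → Prop} (h : Ev P) : Ev fun X => ∀ Ps, P (X.ext Ps) := by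
  obtain ⟨B₀, h1, c, h2⟩ := h
  exact ⟨B₀, h1, c, fun X a b d Ps => h2 (X.ext Ps) (fun β hβ => List.mem_append_right _ (a β hβ))
    b d⟩

lemma Cx.Ok.ext {X : Cx} {t : Tm} (h : X.Ok t) (Ps : List Fm) : (X.ext Ps).Ok t := ⟨h.big, h.len⟩

/-- Names in an extension. -/
def Nm.ext {X : Cx} (V : Nm X) (Ps : List Fm) : Nm (X.ext Ps) where
  T := V.T
  F := V.F
  t := V.t
  f := V.f
  okt := fun s h => (V.okt s h).ext Ps
  okf := fun s h => (V.okf s h).ext Ps
  var := fun k h => ⟨(V.var k h).1.ext Ps, (V.var k h).2.ext Ps⟩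
  zero := fun h => (V.zero h).ext Ps
  succ := fun s h => ⟨(V.succ s h).1, (V.succ s h).2.ext Ps⟩
  add := fun a b h => ⟨(V.add a b h).1, (V.add a b h).2.1, (V.add a b h).2.2.ext Ps⟩
  mul := fun a b h => ⟨(V.mul a b h).1, (V.mul a b h).2.1, (V.mul a b h).2.2.ext Ps⟩
  bot := fun h => (V.bot h).ext Ps
  eq := fun a b h => ⟨(V.eq a b h).1, (V.eq a b h).2.1, (V.eq a b h).2.2.ext Ps⟩
  le := fun a b h => ⟨(V.le a b h).1, (V.le a b h).2.1, (V.le a b h).2.2.ext Ps⟩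
  imp := fun a b h => ⟨(V.imp a b h).1, (V.imp a b h).2.1, (V.imp a b h).2.2.ext Ps⟩
  all := fun a b h => ⟨(V.all a b h).1.ext Ps, (V.all a b h).2.1, (V.all a b h).2.2.ext Ps⟩

/-! ### The instantiated term -/

lemma Nm.T_of_sub {X : Cx} (V : Nm X) {s t : Tm} {j : ℕ} (h : s.Has j) (h' : V.T (s.sub j t)) :
    V.T t := by
  induction s with
  | var k =>
    simp only [Tm.Has] at h
    subst h
    simpa [Tm.sub] using h'
  | zero => exact absurd h (by simp [Tm.Has])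
  | succ s ih => exact ih h (V.succ _ h').1
  | add a b iha ihb =>
    rcases h with h | h
    · exact iha h (V.add _ _ h').1
    · exact ihb h (V.add _ _ h').2.1
  | mul a b iha ihb =>
    rcases h with h | h
    · exact iha h (V.mul _ _ h').1
    · exact ihb h (V.mul _ _ h').2.1

lemma Nm.F_of_sub {X : Cx} (V : Nm X) {φ : Fm} {t : Tm} {j : ℕ} (h : φ.Free j)
    (h' : V.F (φ.sub j t)) : V.T t := by
  induction φ with
  | bot => exact absurd h (by simp [Fm.Free])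
  | eq a b =>
    rcases h with h | h
    · exact V.T_of_sub h (V.eq _ _ h').1
    · exact V.T_of_sub h (V.eq _ _ h').2.1
  | le a b =>
    rcases h with h | h
    · exact V.T_of_sub h (V.le _ _ h').1
    · exact V.T_of_sub h (V.le _ _ h').2.1
  | imp a b iha ihb =>
    rcases h with h | h
    · exact iha h (V.imp _ _ h').1
    · exact ihb h (V.imp _ _ h').2.1
  | all k b ih =>
    have e1 : (Fm.all k b).sub j t = .all k (b.sub j t) := by simp [Fm.sub, h.1]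
    rw [e1] at h'
    exact ih h.2 (V.all _ _ h').2.1

lemma len_of_has {s t : Tm} {j : ℕ} (h : s.Has j) : t.len ≤ (s.sub j t).len := by
  induction s with
  | var k =>
    simp only [Tm.Has] at h
    subst h
    simp [Tm.sub]
  | zero => exact absurd h (by simp [Tm.Has])
  | succ s ih => simp only [Tm.sub, Tm.len]; have := ih h; omega
  | add a b iha ihb =>
    simp only [Tm.sub, Tm.len]
    rcases h with h | h
    · have := iha h; omega
    · have := ihb h; omega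
  | mul a b iha ihb =>
    simp only [Tm.sub, Tm.len]
    rcases h with h | h
    · have := iha h; omega
    · have := ihb h; omega

lemma len_of_free {φ : Fm} {t : Tm} {j : ℕ} (h : φ.Free j) : t.len ≤ (φ.sub j t).len := by
  induction φ with
  | bot => exact absurd h (by simp [Fm.Free])
  | eq a b =>
    simp only [Fm.sub, Fm.len]
    rcases h with h | h
    · have := len_of_has (t := t) h; omega
    · have := len_of_has (t := t) h; omega
  | le a b =>
    simp only [Fm.sub, Fm.len]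
    rcases h with h | h
    · have := len_of_has (t := t) h; omega
    · have := len_of_has (t := t) h; omega
  | imp a b iha ihb =>
    simp only [Fm.sub, Fm.len]
    rcases h with h | h
    · have := iha h; omega
    · have := ihb h; omega
  | all k b ih =>
    have e1 : (Fm.all k b).sub j t = .all k (b.sub j t) := by simp [Fm.sub, h.1]
    rw [e1]
    simp only [Fm.len]
    have := ih h.2; omega

/-! ### Axioms -/

variable {con θ : Fm} (I : IfaceS (RA con θ))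

/-- Cost of one line. -/
def cst (Λ : ℕ) : ℕ := 20 * (Λ + 1) * (Λ + 1)

lemma ev_axs : Ev fun X => ∀ (V : Nm X) (a : Tm) (φ : Fm), X.Ok a → V.T .zero → V.F φ → Ax φ →
    X.E (cst φ.len) (I.A 17 a (V.f φ) o o) := by
  have rk := ev_rule I [.n2 (x 0) 8 (x 1) (x 2), .n2 (x 2) 8 (x 3) (x 1)]
    (.rl 17 (x 4) (x 0) o o) (by simp [At.Wf, Al]) (fun e h1 h2 => pr_k h1 h2)
  have rs := ev_rule I [.n2 (x 0) 8 (x 1) (x 2), .n2 (x 1) 8 (x 3) (x 4),
    .n2 (x 4) 8 (x 5) (x 6), .n2 (x 2) 8 (x 7) (x 8), .n2 (x 7) 8 (x 3) (x 5),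
    .n2 (x 8) 8 (x 3) (x 6)]
    (.rl 17 (x 9) (x 0) o o) (by simp [At.Wf, Al])
    (fun e h1 h2 h3 h4 h5 h6 => pr_s h1 h2 h3 h4 h5 h6)
  have rd := ev_rule I [.n2 (x 0) 8 (x 1) (x 4), .n2 (x 1) 8 (x 2) (x 3),
    .n2 (x 2) 8 (x 4) (x 3), .n1 (x 3) 5 o]
    (.rl 17 (x 5) (x 0) o o) (by simp [At.Wf, Al]) (fun e h1 h2 h3 h4 => pr_dne h1 h2 h3 h4)
  have ri := ev_rule I [.n2 (x 0) 8 (x 1) (x 2), .n2 (x 1) 9 (x 3) (x 4),
    .rl 19 (x 4) (x 3) (x 5) (x 2), .rl 20 (x 4) (x 3) (x 5) o, .rl 0 (x 5) o o o]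
    (.rl 17 (x 6) (x 0) o o) (by simp [At.Wf, Al])
    (fun e h1 h2 h3 h4 h5 => pr_inst h1 h2 h3 h4 h5)
  have rt := ev_rule I [.n2 (x 0) 8 (x 1) (x 2), .n2 (x 1) 9 (x 3) (x 4),
    .n2 (x 4) 8 (x 5) (x 6), .n2 (x 2) 8 (x 5) (x 7), .n2 (x 7) 9 (x 3) (x 6),
    .rl 18 (x 5) (x 3) o o]
    (.rl 17 (x 8) (x 0) o o) (by simp [At.Wf, Al])
    (fun e h1 h2 h3 h4 h5 h6 => pr_dist h1 h2 h3 h4 h5 h6)
  have rr := ev_rule I [.n2 (x 0) 6 (x 1) (x 1)]
    (.rl 17 (x 2) (x 0) o o) (by simp [At.Wf, Al]) (fun e h1 => pr_refl h1)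
  have rc := ev_rule I [.n2 (x 0) 8 (x 1) (x 2), .n2 (x 1) 6 (x 3) (x 4),
    .n2 (x 2) 6 (x 5) (x 6), .n1 (x 5) 2 (x 3), .n1 (x 6) 2 (x 4)]
    (.rl 17 (x 7) (x 0) o o) (by simp [At.Wf, Al])
    (fun e h1 h2 h3 h4 h5 => pr_congS h1 h2 h3 h4 h5)
  have ram := fun (d : ℕ) (hd : d = 3 ∨ d = 4) => ev_rule I [.n2 (x 0) 8 (x 1) (x 2),
    .n2 (x 2) 8 (x 3) (x 4), .n2 (x 1) 6 (x 5) (x 6), .n2 (x 3) 6 (x 7) (x 8),
    .n2 (x 4) 6 (x 9) (x 10), .n2 (x 9) d (x 5) (x 7), .n2 (x 10) d (x 6) (x 8)]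
    (.rl 17 (x 11) (x 0) o o) (by simp [At.Wf, Al])
    (fun e h1 h2 h3 h4 h5 h6 h7 => pr_congAM hd h1 h2 h3 h4 h5 h6 h7)
  have rel := fun (d : ℕ) (hd : d = 6 ∨ d = 7) => ev_rule I [.n2 (x 0) 8 (x 1) (x 2),
    .n2 (x 2) 8 (x 3) (x 4), .n2 (x 4) 8 (x 9) (x 10), .n2 (x 1) 6 (x 5) (x 6),
    .n2 (x 3) 6 (x 7) (x 8), .n2 (x 9) d (x 5) (x 7), .n2 (x 10) d (x 6) (x 8)]
    (.rl 17 (x 11) (x 0) o o) (by simp [At.Wf, Al])
    (fun e h1 h2 h3 h4 h5 h6 h7 => pr_congEL hd h1 h2 h3 h4 h5 h6 h7)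
  refine (((rk.and rs).and (rd.and ri)).and ((rt.and rr).and (rc.and (((ram 3 (by omega)).and
    (ram 4 (by omega))).and ((rel 6 (by omega)).and (rel 7 (by omega)))))) |>.and
    (((ev_isT I).and (ev_nhF I)).and ((ev_sbF I).and (ev_ff I)))).mono ?_
  rintro X ⟨⟨⟨⟨rk, rs⟩, ⟨rd, ri⟩⟩, ⟨⟨rt, rr⟩, ⟨rc, ⟨⟨r3, r4⟩, ⟨r6, r7⟩⟩⟩⟩⟩,
    ⟨⟨hT, hN⟩, ⟨hS, hFF⟩⟩⟩ V a φ ha hz hF hφ
  have hc : ∀ n : ℕ, 20 * (n + 1) ≤ cst n := fun n => by
    unfold cst; nlinarith
  cases hφ with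
  | k f g =>
    obtain ⟨F1, F2, h1⟩ := V.imp _ _ hF
    obtain ⟨F3, _, h2⟩ := V.imp _ _ F2
    exact (rk _ [1, 1] (Cx.ok5 (V.okf _ hF) (V.okf _ F1) (V.okf _ F2) (V.okf _ F3) ha)
      (.cons h1 (.cons h2 .nil))).mono (by have := hc (imp f (imp g f)).len; simp; omega)
  | s f g h =>
    obtain ⟨F1, F2, h1⟩ := V.imp _ _ hF
    obtain ⟨F3, F4, h2⟩ := V.imp _ _ F1
    obtain ⟨F5, F6, h3⟩ := V.imp _ _ F4
    obtain ⟨F7, F8, h4⟩ := V.imp _ _ F2
    obtain ⟨_, _, h5⟩ := V.imp _ _ F7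
    obtain ⟨_, _, h6⟩ := V.imp _ _ F8
    exact (rs _ [1, 1, 1, 1, 1, 1] (Cx.ok10 (V.okf _ hF) (V.okf _ F1) (V.okf _ F2) (V.okf _ F3)
      (V.okf _ F4) (V.okf _ F5) (V.okf _ F6) (V.okf _ F7) (V.okf _ F8) ha)
      (.cons h1 (.cons h2 (.cons h3 (.cons h4 (.cons h5 (.cons h6 .nil))))))).mono
        (by have := hc (imp (imp f (imp g h)) (imp (imp f g) (imp f h))).len; simp; omega)
  | dne f =>
    obtain ⟨F1, F2, h1⟩ := V.imp _ _ hF
    obtain ⟨F3, F4, h2⟩ := V.imp _ _ F1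
    obtain ⟨_, _, h3⟩ := V.imp _ _ F3
    exact (rd _ [1, 1, 1, 1] (Cx.ok6 (V.okf _ hF) (V.okf _ F1) (V.okf _ F3) (V.okf _ F4)
      (V.okf _ F2) ha) (.cons h1 (.cons h2 (.cons h3 (.cons (V.bot F4) .nil))))).mono
        (by have := hc (imp (imp (imp f bot) bot) f).len; simp; omega)
  | inst j f t hff =>
    -- the instantiated term may be assumed to occur
    obtain ⟨r, hr, hlen, hsub, hff'⟩ : ∃ r : Tm, V.T r ∧
        r.len ≤ (imp (all j f) (f.sub j t)).len ∧ f.sub j t = f.sub j r ∧ f.FreeFor j r := by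
      have F2 := (V.imp _ _ hF).2.1
      by_cases hfr : f.Free j
      · have := len_of_free (t := t) hfr
        exact ⟨t, V.F_of_sub hfr F2, by simp only [Fm.len]; omega, rfl, hff⟩
      · refine ⟨.zero, hz, by simp only [Fm.len, Tm.len]; omega, ?_,
          Fm.freeFor_of_closed (fun _ h => absurd h (by simp [Tm.Has])) f⟩
        rw [Fm.sub_of_not_free hfr, Fm.sub_of_not_free hfr]
    rw [hsub] at hlen hF ⊢
    obtain ⟨F1, F2, h1⟩ := V.imp _ _ hF
    obtain ⟨hj, F3, h2⟩ := V.all _ _ F1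
    refine (ri _ [1, 1, _, _, _] (Cx.ok7 (V.okf _ hF) (V.okf _ F1) (V.okf _ F2) hj (V.okf _ F3)
      (V.okt _ hr) ha) (.cons h1 (.cons h2 (.cons (hS V j r hj hr f F3 F2)
      (.cons (hFF V j r hj hr f F3 hff') (.cons (hT V r hr) .nil)))))).mono ?_
    set L := (imp (all j f) (f.sub j r)).len with hL
    have l1 : f.len ≤ L := by rw [hL]; simp only [Fm.len]; omega
    have l2 : (3 * r.len + 5) * f.len ≤ (3 * L + 5) * L := Nat.mul_le_mul (by omega) l1
    simp only [List.sum_cons, List.sum_nil, cst]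
    nlinarith
  | dist j f g hn =>
    obtain ⟨F1, F2, h1⟩ := V.imp _ _ hF
    obtain ⟨hj, F3, h2⟩ := V.all _ _ F1
    obtain ⟨F4, F5, h3⟩ := V.imp _ _ F3
    obtain ⟨_, F6, h4⟩ := V.imp _ _ F2
    obtain ⟨_, _, h5⟩ := V.all _ _ F6
    refine (rt _ [1, 1, 1, 1, 1, _] (Cx.ok9 (V.okf _ hF) (V.okf _ F1) (V.okf _ F2) hj
      (V.okf _ F3) (V.okf _ F4) (V.okf _ F5) (V.okf _ F6) ha)
      (.cons h1 (.cons h2 (.cons h3 (.cons h4 (.cons h5 (.cons (hN V j hj f F4 hn)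
        .nil))))))).mono ?_
    have := hc (imp (all j (imp f g)) (imp f (all j g))).len
    simp only [List.sum_cons, List.sum_nil, Fm.len] at this ⊢
    omega
  | refl t =>
    obtain ⟨F1, F2, h1⟩ := V.eq _ _ hF
    exact (rr _ [1] (Cx.ok3 (V.okf _ hF) (V.okt _ F1) ha) (.cons h1 .nil)).mono
      (by have := hc (Fm.eq t t).len; simp; omega)
  | congS t s =>
    obtain ⟨F1, F2, h1⟩ := V.imp _ _ hF
    obtain ⟨F3, F4, h2⟩ := V.eq _ _ F1
    obtain ⟨F5, F6, h3⟩ := V.eq _ _ F2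
    obtain ⟨_, h4⟩ := V.succ _ F5
    obtain ⟨_, h5⟩ := V.succ _ F6
    exact (rc _ [1, 1, 1, 1, 1] (Cx.ok8 (V.okf _ hF) (V.okf _ F1) (V.okf _ F2) (V.okt _ F3)
      (V.okt _ F4) (V.okt _ F5) (V.okt _ F6) ha)
      (.cons h1 (.cons h2 (.cons h3 (.cons h4 (.cons h5 .nil)))))).mono
        (by have := hc (imp (Fm.eq t s) (Fm.eq (.succ t) (.succ s))).len; simp; omega)
  | congAdd t s t' s' =>
    obtain ⟨F1, F2, h1⟩ := V.imp _ _ hF
    obtain ⟨F3, F4, h2⟩ := V.imp _ _ F2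
    obtain ⟨T1, T2, h3⟩ := V.eq _ _ F1
    obtain ⟨T3, T4, h4⟩ := V.eq _ _ F3
    obtain ⟨T5, T6, h5⟩ := V.eq _ _ F4
    obtain ⟨_, _, h6⟩ := V.add _ _ T5
    obtain ⟨_, _, h7⟩ := V.add _ _ T6
    exact (r3 _ [1, 1, 1, 1, 1, 1, 1] (Cx.ok12 (V.okf _ hF) (V.okf _ F1) (V.okf _ F2)
      (V.okf _ F3) (V.okf _ F4) (V.okt _ T1) (V.okt _ T2) (V.okt _ T3) (V.okt _ T4)
      (V.okt _ T5) (V.okt _ T6) ha)
      (.cons h1 (.cons h2 (.cons h3 (.cons h4 (.cons h5 (.cons h6 (.cons h7 .nil)))))))).mono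
        (by have := hc (imp (Fm.eq t s) (imp (Fm.eq t' s')
          (Fm.eq (.add t t') (.add s s')))).len; simp; omega)
  | congMul t s t' s' =>
    obtain ⟨F1, F2, h1⟩ := V.imp _ _ hF
    obtain ⟨F3, F4, h2⟩ := V.imp _ _ F2
    obtain ⟨T1, T2, h3⟩ := V.eq _ _ F1
    obtain ⟨T3, T4, h4⟩ := V.eq _ _ F3
    obtain ⟨T5, T6, h5⟩ := V.eq _ _ F4
    obtain ⟨_, _, h6⟩ := V.mul _ _ T5
    obtain ⟨_, _, h7⟩ := V.mul _ _ T6
    exact (r4 _ [1, 1, 1, 1, 1, 1, 1] (Cx.ok12 (V.okf _ hF) (V.okf _ F1) (V.okf _ F2)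
      (V.okf _ F3) (V.okf _ F4) (V.okt _ T1) (V.okt _ T2) (V.okt _ T3) (V.okt _ T4)
      (V.okt _ T5) (V.okt _ T6) ha)
      (.cons h1 (.cons h2 (.cons h3 (.cons h4 (.cons h5 (.cons h6 (.cons h7 .nil)))))))).mono
        (by have := hc (imp (Fm.eq t s) (imp (Fm.eq t' s')
          (Fm.eq (.mul t t') (.mul s s')))).len; simp; omega)
  | congEq t s t' s' =>
    obtain ⟨F1, F2, h1⟩ := V.imp _ _ hF
    obtain ⟨F3, F4, h2⟩ := V.imp _ _ F2
    obtain ⟨F5, F6, h3⟩ := V.imp _ _ F4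
    obtain ⟨T1, T2, h4⟩ := V.eq _ _ F1
    obtain ⟨T3, T4, h5⟩ := V.eq _ _ F3
    obtain ⟨_, _, h6⟩ := V.eq _ _ F5
    obtain ⟨_, _, h7⟩ := V.eq _ _ F6
    exact (r6 _ [1, 1, 1, 1, 1, 1, 1] (Cx.ok12 (V.okf _ hF) (V.okf _ F1) (V.okf _ F2)
      (V.okf _ F3) (V.okf _ F4) (V.okt _ T1) (V.okt _ T2) (V.okt _ T3) (V.okt _ T4)
      (V.okf _ F5) (V.okf _ F6) ha)
      (.cons h1 (.cons h2 (.cons h3 (.cons h4 (.cons h5 (.cons h6 (.cons h7 .nil)))))))).mono
        (by have := hc (imp (Fm.eq t s) (imp (Fm.eq t' s') (imp (Fm.eq t t')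
          (Fm.eq s s')))).len; simp; omega)
  | congLe t s t' s' =>
    obtain ⟨F1, F2, h1⟩ := V.imp _ _ hF
    obtain ⟨F3, F4, h2⟩ := V.imp _ _ F2
    obtain ⟨F5, F6, h3⟩ := V.imp _ _ F4
    obtain ⟨T1, T2, h4⟩ := V.eq _ _ F1
    obtain ⟨T3, T4, h5⟩ := V.eq _ _ F3
    obtain ⟨_, _, h6⟩ := V.le _ _ F5
    obtain ⟨_, _, h7⟩ := V.le _ _ F6
    exact (r7 _ [1, 1, 1, 1, 1, 1, 1] (Cx.ok12 (V.okf _ hF) (V.okf _ F1) (V.okf _ F2)
      (V.okf _ F3) (V.okf _ F4) (V.okt _ T1) (V.okt _ T2) (V.okt _ T3) (V.okt _ T4)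
      (V.okf _ F5) (V.okf _ F6) ha)
      (.cons h1 (.cons h2 (.cons h3 (.cons h4 (.cons h5 (.cons h6 (.cons h7 .nil)))))))).mono
        (by have := hc (imp (Fm.eq t s) (imp (Fm.eq t' s') (imp (Fm.le t t')
          (Fm.le s s')))).len; simp; omega)

/-! ### Proofs -/

lemma cst_mono {a b : ℕ} (h : a ≤ b) : cst a ≤ cst b := by
  unfold cst; gcongr

lemma ev_line : Ev fun X => ∀ (V : Nm X) (a : Tm) (A L : List Fm) (φ : Fm) (Λ K : ℕ), X.Ok a →
    V.T .zero → IsProof A (φ :: L) → (∀ ψ ∈ φ :: L, V.F ψ ∧ ψ.len ≤ Λ) →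
    (∀ ψ ∈ L, X.E 1 (I.A 17 a (V.f ψ) o o)) →
    (∀ ψ ∈ A, V.F ψ → X.E K (I.A 17 a (V.f ψ) o o)) →
    X.E (cst Λ + K) (I.A 17 a (V.f φ) o o) := by
  have rm := ev_rule I [.n2 (x 1) 8 (x 0) (x 2), .rl 17 (x 3) (x 1) o o, .rl 17 (x 3) (x 0) o o,
    .rl 1 (x 0) o o o] (.rl 17 (x 3) (x 2) o o) (by simp [At.Wf, Al])
    (fun e h1 h2 h3 h4 => pr_mp h1 h2 h3 h4)
  have rg := ev_rule I [.n2 (x 1) 9 (x 2) (x 0), .rl 17 (x 3) (x 0) o o]
    (.rl 17 (x 3) (x 1) o o) (by simp [At.Wf, Al]) (fun e h1 h2 => pr_gen h1 h2)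
  refine (((ev_axs I).and (ev_isF I)).and (rm.and rg)).mono ?_
  rintro X ⟨⟨hax, hF⟩, ⟨rm, rg⟩⟩ V a A L φ Λ K ha hz hp hV h1 hA
  obtain ⟨Fφ, lφ⟩ := hV φ List.mem_cons_self
  rcases hp.2 with h | h | ⟨ψ, h2, h3⟩ | ⟨j, ψ, h2, h3⟩
  · exact (hA φ h Fφ).mono (by omega)
  · exact (hax V a φ ha hz Fφ h).mono (by have := cst_mono lφ; omega)
  · obtain ⟨F1, _⟩ := hV ψ (List.mem_cons_of_mem _ h2)
    obtain ⟨F2, l2⟩ := hV _ (List.mem_cons_of_mem _ h3)
    obtain ⟨_, _, h4⟩ := V.imp _ _ F2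
    refine (rm _ [1, 1, 1, _] (Cx.ok4 (V.okf _ F1) (V.okf _ F2) (V.okf _ Fφ) ha)
      (.cons h4 (.cons (h1 _ h3) (.cons (h1 _ h2) (.cons (hF V ψ F1) .nil))))).mono ?_
    simp only [Fm.len] at l2
    simp only [List.sum_cons, List.sum_nil, cst]
    nlinarith
  · subst h3
    obtain ⟨F1, _⟩ := hV ψ (List.mem_cons_of_mem _ h2)
    obtain ⟨hj, _, h4⟩ := V.all _ _ Fφ
    refine (rg _ [1, 1] (Cx.ok4 (V.okf _ F1) (V.okf _ Fφ) hj ha)
      (.cons h4 (.cons (h1 _ h2) .nil))).mono ?_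
    simp only [List.sum_cons, List.sum_nil, cst]
    nlinarith

lemma ev_proof : Ev fun X => ∀ (V : Nm X) (a : Tm) (A L : List Fm) (Λ K : ℕ), X.Ok a →
    V.T .zero → IsProof A L → (∀ ψ ∈ L, V.F ψ ∧ ψ.len ≤ Λ) →
    (∀ ψ ∈ A, V.F ψ → X.E K (I.A 17 a (V.f ψ) o o)) →
    PrL X.B (L.length * (X.C * (cst Λ + K))) X.C
      (L.map fun ψ => impL X.G (I.A 17 a (V.f ψ) o o)) := by
  refine ((ev_line I).ext.and (ev_pb (PB.const 1))).mono ?_
  rintro X ⟨hl, hC⟩ V a A L Λ K ha hz hp hV hA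
  have hC' : 1 ≤ X.C := hC
  induction L with
  | nil => simpa using PrL.nil _ _
  | cons φ L ih =>
    have ih' := ih hp.1 fun ψ hψ => hV ψ (List.mem_cons_of_mem _ hψ)
    set Ps := L.map fun ψ => impL X.G (I.A 17 a (V.f ψ) o o) with hPs
    have hle : ∀ P ∈ Ps, P.len ≤ X.C := by
      obtain ⟨_, _, q2, _, q4⟩ := ih'
      exact fun P hP => q4 P (q2 P hP)
    have key := hl Ps (V.ext Ps) a A L φ Λ K (ha.ext Ps) hz hp hV (by
      intro ψ hψ
      have hm : impL X.G (I.A 17 a (V.f ψ) o o) ∈ Ps := List.mem_map_of_mem hψ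
      refine (Pr.mem (List.mem_append_left _ hm) (hle _ hm)).mono ?_ le_rfl
      show 1 ≤ X.C * 1
      omega) (fun ψ hψ hF => (hA ψ hψ hF).ext Ps)
    have h2 := PrL.cons ih' (P := impL X.G (I.A 17 a (V.f φ) o o)) key
    rw [List.map_cons]
    obtain ⟨L', q1, q2, q3, q4⟩ := h2
    refine ⟨L', q1, q2, q3.trans ?_, q4⟩
    show X.C * (cst Λ + K) + L.length * (X.C * (cst Λ + K)) ≤ _
    rw [List.length_cons]
    nlinarith

end Helper31Con.Amp

end

section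

/-!
# Lists of subexpressions and their names
-/

namespace Helper31Con.Amp

open Function Filter Fm

/-- Expressions. -/
abbrev Ex := Tm ⊕ Fm

/-- Subterms, parents first. -/
def preT : Tm → List Ex
  | .var k => [Sum.inl (.var k)]
  | .zero => [Sum.inl .zero]
  | .succ t => Sum.inl (.succ t) :: preT t
  | .add a b => Sum.inl (.add a b) :: (preT a ++ preT b)
  | .mul a b => Sum.inl (.mul a b) :: (preT a ++ preT b)

/-- Subexpressions, parents first. -/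
def preF : Fm → List Ex
  | .bot => [Sum.inr .bot]
  | .eq a b => Sum.inr (.eq a b) :: (preT a ++ preT b)
  | .le a b => Sum.inr (.le a b) :: (preT a ++ preT b)
  | .imp a b => Sum.inr (.imp a b) :: (preF a ++ preF b)
  | .all k b => Sum.inr (.all k b) :: preF b

/-- Immediate subexpressions. -/
def ch : Ex → List Ex
  | .inl (.var _) => []
  | .inl .zero => []
  | .inl (.succ t) => [Sum.inl t]
  | .inl (.add a b) => [Sum.inl a, Sum.inl b]
  | .inl (.mul a b) => [Sum.inl a, Sum.inl b]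
  | .inr .bot => []
  | .inr (.eq a b) => [Sum.inl a, Sum.inl b]
  | .inr (.le a b) => [Sum.inl a, Sum.inl b]
  | .inr (.imp a b) => [Sum.inr a, Sum.inr b]
  | .inr (.all _ b) => [Sum.inr b]

/-- Length. -/
def exl : Ex → ℕ
  | .inl t => t.len
  | .inr φ => φ.len

/-- Closed lists. -/
def Cl : List Ex → Prop
  | [] => True
  | e :: l => (∀ c ∈ ch e, c ∈ l) ∧ Cl l

lemma mem_preT (t : Tm) : Sum.inl t ∈ preT t := by
  cases t <;> simp [preT]

lemma mem_preF (φ : Fm) : Sum.inr φ ∈ preF φ := by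
  cases φ <;> simp [preF]

lemma cl_preT (t : Tm) {l : List Ex} (h : Cl l) : Cl (preT t ++ l) := by
  induction t generalizing l with
  | var k => exact ⟨by simp [ch], h⟩
  | zero => exact ⟨by simp [ch], h⟩
  | succ t ih => exact ⟨by simp [ch, mem_preT], ih h⟩
  | add a b iha ihb =>
    refine ⟨by simp [ch, mem_preT], ?_⟩
    show Cl (preT a ++ preT b ++ l)
    rw [List.append_assoc]
    exact iha (ihb h)
  | mul a b iha ihb =>
    refine ⟨by simp [ch, mem_preT], ?_⟩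
    show Cl (preT a ++ preT b ++ l)
    rw [List.append_assoc]
    exact iha (ihb h)

lemma cl_preF (φ : Fm) {l : List Ex} (h : Cl l) : Cl (preF φ ++ l) := by
  induction φ generalizing l with
  | bot => exact ⟨by simp [ch], h⟩
  | eq a b =>
    refine ⟨by simp [ch, mem_preT], ?_⟩
    show Cl (preT a ++ preT b ++ l)
    rw [List.append_assoc]
    exact cl_preT _ (cl_preT _ h)
  | le a b =>
    refine ⟨by simp [ch, mem_preT], ?_⟩
    show Cl (preT a ++ preT b ++ l)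
    rw [List.append_assoc]
    exact cl_preT _ (cl_preT _ h)
  | imp a b iha ihb =>
    refine ⟨by simp [ch, mem_preF], ?_⟩
    show Cl (preF a ++ preF b ++ l)
    rw [List.append_assoc]
    exact iha (ihb h)
  | all k b ih => exact ⟨by simp [ch, mem_preF], ih h⟩

lemma length_preT (t : Tm) : (preT t).length ≤ t.len := by
  induction t with
  | var k => simp [preT, Tm.len]
  | zero => simp [preT, Tm.len]
  | succ t ih => simp only [preT, Tm.len, List.length_cons]; omega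
  | add a b iha ihb =>
    simp only [preT, Tm.len, List.length_cons, List.length_append]; omega
  | mul a b iha ihb =>
    simp only [preT, Tm.len, List.length_cons, List.length_append]; omega

lemma length_preF (φ : Fm) : (preF φ).length ≤ φ.len := by
  induction φ with
  | bot => simp [preF, Fm.len]
  | eq a b =>
    have h1 := length_preT a
    have h2 := length_preT b
    simp only [preF, Fm.len, List.length_cons, List.length_append]; omega
  | le a b =>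
    have h1 := length_preT a
    have h2 := length_preT b
    simp only [preF, Fm.len, List.length_cons, List.length_append]; omega
  | imp a b iha ihb =>
    simp only [preF, Fm.len, List.length_cons, List.length_append]; omega
  | all k b ih => simp only [preF, Fm.len, List.length_cons]; omega

lemma exl_preT {t : Tm} {e : Ex} (h : e ∈ preT t) : exl e ≤ t.len := by
  induction t with
  | var k =>
    simp only [preT, List.mem_singleton] at h; subst h; exact le_rfl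
  | zero => simp only [preT, List.mem_singleton] at h; subst h; exact le_rfl
  | succ t ih =>
    rcases List.mem_cons.mp h with rfl | h
    · exact le_rfl
    · have := ih h; simp only [Tm.len]; omega
  | add a b iha ihb =>
    rcases List.mem_cons.mp h with rfl | h
    · exact le_rfl
    · simp only [Tm.len]
      rcases List.mem_append.mp h with h | h
      · have := iha h; omega
      · have := ihb h; omega
  | mul a b iha ihb =>
    rcases List.mem_cons.mp h with rfl | h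
    · exact le_rfl
    · simp only [Tm.len]
      rcases List.mem_append.mp h with h | h
      · have := iha h; omega
      · have := ihb h; omega

lemma exl_preF {φ : Fm} {e : Ex} (h : e ∈ preF φ) : exl e ≤ φ.len := by
  induction φ with
  | bot => simp only [preF, List.mem_singleton] at h; subst h; exact le_rfl
  | eq a b =>
    rcases List.mem_cons.mp h with rfl | h
    · exact le_rfl
    · simp only [Fm.len]
      rcases List.mem_append.mp h with h | h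
      · have := exl_preT h; omega
      · have := exl_preT h; omega
  | le a b =>
    rcases List.mem_cons.mp h with rfl | h
    · exact le_rfl
    · simp only [Fm.len]
      rcases List.mem_append.mp h with h | h
      · have := exl_preT h; omega
      · have := exl_preT h; omega
  | imp a b iha ihb =>
    rcases List.mem_cons.mp h with rfl | h
    · exact le_rfl
    · simp only [Fm.len]
      rcases List.mem_append.mp h with h | h
      · have := iha h; omega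
      · have := ihb h; omega
  | all k b ih =>
    rcases List.mem_cons.mp h with rfl | h
    · exact le_rfl
    · have := ih h; simp only [Fm.len]; omega

/-- All subexpressions of the given terms. -/
def preTs : List Tm → List Ex
  | [] => []
  | t :: ts => preT t ++ preTs ts

/-- All subexpressions of the given formulas and terms. -/
def pre : List Fm → List Tm → List Ex
  | [], ts => preTs ts
  | φ :: l, ts => preF φ ++ pre l ts

lemma cl_pre (l : List Fm) (ts : List Tm) : Cl (pre l ts) := by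
  induction l with
  | nil =>
    induction ts with
    | nil => trivial
    | cons t ts ih => exact cl_preT t ih
  | cons φ l ih => exact cl_preF φ ih

lemma mem_pre_f {l : List Fm} {ts : List Tm} {φ : Fm} (h : φ ∈ l) : Sum.inr φ ∈ pre l ts := by
  induction l with
  | nil => simp at h
  | cons ψ l ih =>
    rcases List.mem_cons.mp h with rfl | h
    · exact List.mem_append_left _ (mem_preF _)
    · exact List.mem_append_right _ (ih h)

lemma mem_pre_t {l : List Fm} {ts : List Tm} {t : Tm} (h : t ∈ ts) : Sum.inl t ∈ pre l ts := by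
  induction l with
  | nil =>
    induction ts with
    | nil => simp at h
    | cons s ts ih =>
      rcases List.mem_cons.mp h with rfl | h
      · exact List.mem_append_left _ (mem_preT _)
      · exact List.mem_append_right _ (ih h)
  | cons ψ l ih => exact List.mem_append_right _ ih

/-- Total length of a list of terms. -/
def tlen (ts : List Tm) : ℕ := (ts.map Tm.len).sum

lemma length_pre (l : List Fm) (ts : List Tm) : (pre l ts).length ≤ plen l + tlen ts := by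
  induction l with
  | nil =>
    induction ts with
    | nil => simp [pre, preTs]
    | cons t ts ih =>
      have := length_preT t
      simp only [pre, preTs, List.length_append, tlen, List.map_cons, List.sum_cons] at ih ⊢
      omega
  | cons φ l ih =>
    have := length_preF φ
    simp only [pre, List.length_append, plen_cons]
    omega

lemma exl_pre {l : List Fm} {ts : List Tm} {e : Ex} (h : e ∈ pre l ts) :
    exl e ≤ plen l + tlen ts := by
  induction l with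
  | nil =>
    induction ts with
    | nil => simp [pre, preTs] at h
    | cons t ts ih =>
      simp only [tlen, List.map_cons, List.sum_cons] at ih ⊢
      rcases List.mem_append.mp h with h | h
      · have := exl_preT h; omega
      · have := ih h; omega
  | cons φ l ih =>
    simp only [plen_cons]
    rcases List.mem_append.mp h with h | h
    · have := exl_preF h; omega
    · have := ih h; omega

/-! ### Removal of duplicates -/

open Classical in
lemma cl_dedup {l : List Ex} (h : Cl l) : Cl l.dedup := by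
  induction l with
  | nil => simpa using h
  | cons e l ih =>
    by_cases he : e ∈ l
    · rw [List.dedup_cons_of_mem he]; exact ih h.2
    · rw [List.dedup_cons_of_notMem he]
      exact ⟨fun c hc => List.mem_dedup.mpr (h.1 c hc), ih h.2⟩

lemma cl_mem {l : List Ex} (h : Cl l) {e c : Ex} (he : e ∈ l) (hc : c ∈ ch e) : c ∈ l := by
  induction l with
  | nil => simp at he
  | cons e' l ih =>
    rcases List.mem_cons.mp he with rfl | he
    · exact List.mem_cons_of_mem _ (h.1 c hc)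
    · exact List.mem_cons_of_mem _ (ih h.2 he)

/-! ### Defining equations -/

/-- The defining term. -/
def dft (v : Ex → ℕ) : Ex → Tm
  | .inl (.var k) => ndT (nT 0) (nT k)
  | .inl .zero => ndT (nT 1) .zero
  | .inl (.succ t) => ndT (nT 2) (.var (v (Sum.inl t)))
  | .inl (.add a b) => ndT (nT 3) (ndT (.var (v (Sum.inl a))) (.var (v (Sum.inl b))))
  | .inl (.mul a b) => ndT (nT 4) (ndT (.var (v (Sum.inl a))) (.var (v (Sum.inl b))))
  | .inr .bot => ndT (nT 5) .zero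
  | .inr (.eq a b) => ndT (nT 6) (ndT (.var (v (Sum.inl a))) (.var (v (Sum.inl b))))
  | .inr (.le a b) => ndT (nT 7) (ndT (.var (v (Sum.inl a))) (.var (v (Sum.inl b))))
  | .inr (.imp a b) => ndT (nT 8) (ndT (.var (v (Sum.inr a))) (.var (v (Sum.inr b))))
  | .inr (.all k b) => ndT (nT 9) (ndT (nT k) (.var (v (Sum.inr b))))

lemma has_dft {v : Ex → ℕ} {e : Ex} {i : ℕ} (h : (dft v e).Has i) : ∃ c ∈ ch e, v c = i := by
  match e with
  | .inl (.var k) => simp [dft] at h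
  | .inl .zero => simp [dft, Tm.Has] at h
  | .inl (.succ t) => simpa [dft, Tm.Has, ch] using h
  | .inl (.add a b) => simpa [dft, Tm.Has, ch] using h
  | .inl (.mul a b) => simpa [dft, Tm.Has, ch] using h
  | .inr .bot => simp [dft, Tm.Has] at h
  | .inr (.eq a b) => simpa [dft, Tm.Has, ch] using h
  | .inr (.le a b) => simpa [dft, Tm.Has, ch] using h
  | .inr (.imp a b) => simpa [dft, Tm.Has, ch] using h
  | .inr (.all k b) => simpa [dft, Tm.Has, ch] using h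

lemma len_ndT (t s : Tm) : (ndT t s).len = 3 * t.len + 2 * s.len + 5 := by
  simp only [ndT, Tm.len]; omega

lemma len_dft {v : Ex → ℕ} {e : Ex} {K : ℕ} (hv : ∀ c ∈ ch e, v c + 1 ≤ K) (he : exl e ≤ K) :
    (dft v e).len ≤ 10 * K + 50 := by
  match e with
  | .inl (.var k) =>
    simp only [exl, Tm.len] at he
    simp only [dft, len_ndT, Tm.len_num]; omega
  | .inl .zero =>
    simp only [dft, len_ndT, Tm.len_num, Tm.len]; omega
  | .inl (.succ t) =>
    simp only [ch, List.forall_mem_singleton] at hv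
    simp only [dft, len_ndT, Tm.len_num, Tm.len]; omega
  | .inl (.add a b) =>
    simp only [ch, List.forall_mem_cons, List.not_mem_nil, IsEmpty.forall_iff, implies_true,
      and_true] at hv
    simp only [dft, len_ndT, Tm.len_num, Tm.len]; omega
  | .inl (.mul a b) =>
    simp only [ch, List.forall_mem_cons, List.not_mem_nil, IsEmpty.forall_iff, implies_true,
      and_true] at hv
    simp only [dft, len_ndT, Tm.len_num, Tm.len]; omega
  | .inr .bot =>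
    simp only [dft, len_ndT, Tm.len_num, Tm.len]; omega
  | .inr (.eq a b) =>
    simp only [ch, List.forall_mem_cons, List.not_mem_nil, IsEmpty.forall_iff, implies_true,
      and_true] at hv
    simp only [dft, len_ndT, Tm.len_num, Tm.len]; omega
  | .inr (.le a b) =>
    simp only [ch, List.forall_mem_cons, List.not_mem_nil, IsEmpty.forall_iff, implies_true,
      and_true] at hv
    simp only [dft, len_ndT, Tm.len_num, Tm.len]; omega
  | .inr (.imp a b) =>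
    simp only [ch, List.forall_mem_cons, List.not_mem_nil, IsEmpty.forall_iff, implies_true,
      and_true] at hv
    simp only [dft, len_ndT, Tm.len_num, Tm.len]; omega
  | .inr (.all k b) =>
    simp only [ch, List.forall_mem_singleton] at hv
    simp only [exl, Fm.len] at he
    simp only [dft, len_ndT, Tm.len_num, Tm.len]; omega

/-- The list of definitions. -/
def defs (v : Ex → ℕ) (D : List Ex) : List (ℕ × Tm) := D.map fun e => (v e, dft v e)

lemma adm_defs {v : Ex → ℕ} {D : List Ex} (hD : Cl D) (hn : D.Nodup)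
    (hv : ∀ e ∈ D, ∀ e' ∈ D, v e = v e' → e = e') : Adm (defs v D) := by
  induction D with
  | nil => trivial
  | cons e l ih =>
    have he : e ∉ l := (List.nodup_cons.mp hn).1
    have hne : ∀ c ∈ l, v c ≠ v e := fun c hc h =>
      he (hv c (List.mem_cons_of_mem _ hc) e List.mem_cons_self h ▸ hc)
    refine ⟨fun h => ?_, fun q hq => ?_, ih hD.2 (List.nodup_cons.mp hn).2
      fun a ha b hb => hv a (List.mem_cons_of_mem _ ha) b (List.mem_cons_of_mem _ hb)⟩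
    · obtain ⟨c, hc, h1⟩ := has_dft h
      exact hne c (hD.1 c hc) h1
    · obtain ⟨e', he', rfl⟩ := List.mem_map.mp hq
      refine ⟨hne e' he', fun h => ?_⟩
      obtain ⟨c, hc, h1⟩ := has_dft h
      exact hne c (cl_mem hD.2 he' hc) h1

/-- The naming structure given by a closed list of expressions. -/
def mkNm (X : Cx) (v : Ex → ℕ) (D : List Ex) (hD : Cl D) {K : ℕ} (hK : ∀ e ∈ D, exl e ≤ K)
    (hKS : K ≤ X.S) (hv : ∀ e ∈ D, X.W ≤ v e ∧ v e + 1 ≤ X.S)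
    (hE : ∀ e ∈ D, X.E 1 (Fm.eq (.var (v e)) (dft v e))) : Nm X where
  T := fun t => Sum.inl t ∈ D
  F := fun φ => Sum.inr φ ∈ D
  t := fun t => .var (v (Sum.inl t))
  f := fun φ => .var (v (Sum.inr φ))
  okt := fun s h => ⟨fun i hi => by
    have hi' : v (Sum.inl s) = i := hi
    rw [← hi']; exact (hv _ h).1, (hv _ h).2⟩
  okf := fun s h => ⟨fun i hi => by
    have hi' : v (Sum.inr s) = i := hi
    rw [← hi']; exact (hv _ h).1, (hv _ h).2⟩
  var := fun k h => ⟨X.ok_num (by have := hK _ h; simp only [exl, Tm.len] at this; omega),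
    hE _ h⟩
  zero := fun h => hE _ h
  succ := fun s h => ⟨cl_mem hD h (by simp [ch]), hE _ h⟩
  add := fun a b h => ⟨cl_mem hD h (by simp [ch]), cl_mem hD h (by simp [ch]), hE _ h⟩
  mul := fun a b h => ⟨cl_mem hD h (by simp [ch]), cl_mem hD h (by simp [ch]), hE _ h⟩
  bot := fun h => hE _ h
  eq := fun a b h => ⟨cl_mem hD h (by simp [ch]), cl_mem hD h (by simp [ch]), hE _ h⟩
  le := fun a b h => ⟨cl_mem hD h (by simp [ch]), cl_mem hD h (by simp [ch]), hE _ h⟩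
  imp := fun a b h => ⟨cl_mem hD h (by simp [ch]), cl_mem hD h (by simp [ch]), hE _ h⟩
  all := fun k b h => ⟨X.ok_num (by have := hK _ h; simp only [exl, Fm.len] at this; omega),
    cl_mem hD h (by simp [ch]), hE _ h⟩

end Helper31Con.Amp

end
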