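import Pool.Agent.Helper31_Amp.Final
import Pool.Agent.Helper31_Con.Inst4

/-!
# Amplification of positive answers

All definitions used by the statement are in `Pool.Agent.Helper31_Con.Defs`.
-/

namespace Helper31Con.AmplificationVariant

open Helper31Con

/-- There is a formula defining finite consistency in `ℕ`. Let `con` be any such formula, let `θ` be
a formula such that `θ (S)` is a true sentence for every finite set `S` of true sentences, and let
`B` be a finite set of true sentences. Then there are finite sets `B₁ ⊆ B₀` of true sentences,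
`B₁` including `B` and Robinson arithmetic, such that for all finite sets `A` and `T` of sentences,
where `A` is consistent and proves all sentences of `B₀` and `T` proves all sentences of `B₀` and
`Con_A`, the set `A' = B₁ + Con_A` consists of true sentences and for some `c`, for all `n` and `k`:
if `A` proves `Con_T (n + c)` with at most `k` symbols, then `A'` proves `Con_{A' + θ (A')} (n)`
with at most `(n + k + c) ^ c` symbols. This applies to `T = A + Con_A`. -/
theorem result :
    (∃ con : Fm, IsCon con) ∧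
    ∀ con : Fm, IsCon con → ∀ θ : Fm,
      (∀ S : List Fm, (∀ φ ∈ S, TrueS φ) → TrueS (θ.sub 0 (.num (lc S)))) →
      ∀ B : List Fm, (∀ φ ∈ B, TrueS φ) →
      ∃ B₀ B₁ : List Fm, (∀ φ ∈ B₀, TrueS φ) ∧ (∀ φ ∈ B₁, φ ∈ B₀) ∧ (∀ φ ∈ B, φ ∈ B₁) ∧
        (∀ φ ∈ Q, φ ∈ B₁) ∧ ∀ A T : List Fm, (∀ φ ∈ A, Fm.Sentence φ) →
        (∀ φ ∈ T, Fm.Sentence φ) → (∀ k, ¬ Prov A k .bot) → (∀ φ ∈ B₀, ∃ k, Prov A k φ) →
        (∀ φ ∈ conS con A :: B₀, ∃ k, Prov T k φ) → (∀ φ ∈ conS con A :: B₁, TrueS φ) ∧
        ∃ c, ∀ n k, Prov A k (conN con T (n + c)) →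
          Prov (conS con A :: B₁) ((n + k + c) ^ c)
            (conN con (θ.sub 0 (.num (lc (conS con A :: B₁))) :: conS con A :: B₁) n) :=
  ⟨exists_con, fun _ hcon _ hθ _ hB => Amp.main hcon hθ hB⟩

end Helper31Con.AmplificationVariant
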