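import Pool.Agent.Helper31_Eff.Closed
import Pool.Agent.Helper31_Con.Main

section

/-!
# Instances of universal closures at open terms
-/

namespace Helper31Con.Amp

open Function Filter Fm

/-! ### Bound variables -/

lemma bd_lt_fv {φ : Fm} {k : ℕ} (h : φ.Bd k) : k < φ.fv := by
  induction φ with
  | bot => exact absurd h (by simp [Fm.Bd])
  | eq t s => exact absurd h (by simp [Fm.Bd])
  | le t s => exact absurd h (by simp [Fm.Bd])
  | imp φ ψ ih1 ih2 =>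
    rcases h with h | h
    · exact lt_of_lt_of_le (ih1 h) (le_max_left _ _)
    · exact lt_of_lt_of_le (ih2 h) (le_max_right _ _)
  | all i φ ih =>
    rcases h with h | h
    · subst h; exact lt_of_lt_of_le (Nat.lt_succ_self _) (le_max_left _ _)
    · exact lt_of_lt_of_le (ih h) (le_max_right _ _)

lemma bd_uc {φ : Fm} {n k j : ℕ} (h : (Fm.uc k n φ).Bd j) : j < k + n ∨ φ.Bd j := by
  induction n generalizing k with
  | zero => exact Or.inr h
  | succ n ih =>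
    rcases h with h | h
    · left; omega
    · rcases ih h with h | h
      · left; omega
      · exact Or.inr h

lemma sub_of_not_has {t r : Tm} {k : ℕ} (h : ¬ t.Has k) : t.sub k r = t := by
  rw [Tm.sub_eq_sb]
  conv_rhs => rw [← Tm.sb_var t]
  refine Tm.sb_congr fun j hj => ?_
  rw [update_of_ne]
  rintro rfl
  exact h hj

/-- Every value is the variable itself or has only large variables. -/
def GSub (W : ℕ) (σ : ℕ → Tm) : Prop := ∀ k, σ k = Tm.var k ∨ ∀ i, (σ k).Has i → W ≤ i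

lemma GSub.update_var {W : ℕ} {σ : ℕ → Tm} (h : GSub W σ) (j : ℕ) :
    GSub W (update σ j (Tm.var j)) := by
  intro k
  by_cases hk : k = j
  · subst hk; simp
  · rw [update_of_ne hk]; exact h k

lemma sub_good_sb {W : ℕ} {σ : ℕ → Tm} (hσ : GSub W σ) {k : ℕ} (hkW : k < W)
    (hk : σ k = Tm.var k) (r : Tm) (φ : Fm) :
    (φ.sb σ).sub k r = φ.sb (update σ k r) := by
  have hT : ∀ {σ : ℕ → Tm}, GSub W σ → σ k = Tm.var k → ∀ t : Tm,
      (t.sb σ).sub k r = t.sb (update σ k r) := by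
    intro σ hσ hk t
    rw [Tm.sub_eq_sb, Tm.sb_sb]
    refine Tm.sb_congr fun j _ => ?_
    by_cases hj : j = k
    · subst hj; simp [hk, Tm.sb]
    · rw [update_of_ne hj, ← Tm.sub_eq_sb]
      rcases hσ j with h | h
      · rw [h]; simp [Tm.sub, hj]
      · exact sub_of_not_has fun h' => by have := h k h'; omega
  induction φ generalizing σ with
  | bot => rfl
  | eq t s => simp [Fm.sb, Fm.sub, hT hσ hk]
  | le t s => simp [Fm.sb, Fm.sub, hT hσ hk]
  | imp φ ψ ih1 ih2 => simp [Fm.sb, Fm.sub, ih1 hσ hk, ih2 hσ hk]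
  | all j φ ih =>
    by_cases hj : j = k
    · subst hj
      simp [Fm.sb, Fm.sub]
    · simp only [Fm.sb, Fm.sub, if_neg hj]
      have hk' : update σ j (Tm.var j) k = Tm.var k := by
        rw [update_of_ne (Ne.symm hj)]; exact hk
      rw [ih (hσ.update_var j) hk', update_comm (Ne.symm hj)]

lemma gSub_belowT {W : ℕ} {τ : ℕ → Tm} (hτ : ∀ k i, (τ k).Has i → W ≤ i) (k : ℕ) :
    GSub W (belowT τ k) := by
  intro j
  by_cases h : j < k
  · exact Or.inr (by simpa [belowT, h] using hτ j)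
  · exact Or.inl (by simp [belowT, h])

lemma inst_ucG {T : List Fm} {φ : Fm} {τ : ℕ → Tm} {W : ℕ}
    (hτ : ∀ k i, (τ k).Has i → W ≤ i) (hW : φ.fv ≤ W) {N : ℕ}
    (hN : ∀ k, (τ k).len ≤ N + 1) (n : ℕ) :
    ∀ (k m M : ℕ), k + n ≤ φ.fv → 3 * (Fm.uc k n φ).len * (N + 1) ≤ M →
      Pr T m M ((Fm.uc k n φ).sb (belowT τ k)) →
      Pr T (m + 2 * n) M (φ.sb (belowT τ (k + n))) := by
  induction n with
  | zero => intro k m M _ _ h; exact h
  | succ n ih =>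
    intro k m M hkn hM h
    have hb : update (belowT τ k) k (Tm.var k) = belowT τ k := by
      funext j
      by_cases hj : j = k
      · subst hj; simp [belowT]
      · rw [update_of_ne hj]
    have hlb : ∀ k' j, (belowT τ k' j).len ≤ (j + 1) * (N + 1) := by
      intro k' j
      by_cases hj : j < k'
      · have := hN j
        simp only [belowT, if_pos hj]; nlinarith
      · simp only [belowT, if_neg hj, Tm.len]; nlinarith
    simp only [Fm.uc, Fm.sb, hb] at h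
    have hff : ((Fm.uc (k + 1) n φ).sb (belowT τ k)).FreeFor k (τ k) := by
      refine freeFor_of fun j hj hj' => ?_
      have h1 := hτ k j hj'
      rcases bd_uc (bd_sb hj) with h2 | h2
      · omega
      · have := bd_lt_fv h2; omega
    have hax := Ax.inst k ((Fm.uc (k + 1) n φ).sb (belowT τ k)) (τ k) hff
    have h1 : belowT τ k k = Tm.var k := by simp [belowT]
    rw [sub_good_sb (gSub_belowT hτ k) (by omega) h1 (τ k), ← belowT_succ] at hax
    have hlen : (imp (all k ((Fm.uc (k + 1) n φ).sb (belowT τ k)))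
        ((Fm.uc (k + 1) n φ).sb (belowT τ (k + 1)))).len ≤ M := by
      have l1 := Fm.len_sb_le (φ := Fm.uc (k + 1) n φ) (σ := belowT τ k) (M := N + 1) (by omega)
        (fun j _ => hlb k j)
      have l2 := Fm.len_sb_le (φ := Fm.uc (k + 1) n φ) (σ := belowT τ (k + 1)) (M := N + 1)
        (by omega) (fun j _ => hlb (k + 1) j)
      simp only [Fm.uc, Fm.len] at hM ⊢
      nlinarith
    have h2 := (Pr.ax (T := T) hax hlen).mp h
    have h3 := ih (k + 1) _ M (by omega) ?_ h2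
    · refine Pr.mono ?_ (le_of_eq ?_) le_rfl (n := 1 + m + 1 + 2 * n)
      · have : k + (n + 1) = k + 1 + n := by omega
        rw [this]; exact h3
      · omega
    · simp only [Fm.uc, Fm.len] at hM
      have : (Fm.uc (k + 1) n φ).len ≤ (Fm.uc (k + 1) n φ).len + (k + 1) + 1 := by omega
      calc 3 * (Fm.uc (k + 1) n φ).len * (N + 1)
          ≤ 3 * ((Fm.uc (k + 1) n φ).len + (k + 1) + 1) * (N + 1) := by gcongr
        _ ≤ M := hM

/-- Instances at terms with large variables. -/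
lemma Pr.instG {T : List Fm} {φ : Fm} (h : φ.ucl ∈ T) {τ : ℕ → Tm} {W : ℕ}
    (hτ : ∀ k i, (τ k).Has i → W ≤ i) (hW : φ.fv ≤ W)
    {N : ℕ} (hN : ∀ k, (τ k).len ≤ N + 1) : Pr T φ.sz (φ.sz * (N + 1)) (φ.sb τ) := by
  have h1 : Pr T 1 (φ.sz * (N + 1)) ((Fm.uc 0 φ.fv φ).sb (belowT τ 0)) := by
    have : (Fm.uc 0 φ.fv φ).sb (belowT τ 0) = φ.ucl := by
      have hb : belowT τ 0 = Tm.var := by funext j; simp [belowT]
      rw [hb, Fm.sb_var]; rfl
    rw [this]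
    refine Pr.mem h ?_
    simp only [Fm.sz]; nlinarith
  have h2 := inst_ucG hτ hW hN φ.fv 0 1 (φ.sz * (N + 1)) (by omega) ?_ h1
  · have h3 : φ.sb (belowT τ (0 + φ.fv)) = φ.sb τ := by
      refine Fm.sb_congr fun k hk => ?_
      have := Fm.lt_fv hk
      simp [belowT, this]
    rw [h3] at h2
    refine h2.mono ?_ le_rfl
    simp only [Fm.sz]; omega
  · simp only [Fm.sz, Fm.ucl]; nlinarith

/-! ### Interfaces -/

/-- Interfaces with general substitution. -/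
structure IfaceS (R : ℕ → ℕ → ℕ → ℕ → ℕ → Prop) extends Iface R where
  sbs : ∀ (j : ℕ) (t₀ t₁ t₂ t₃ : Tm) (τ : ℕ → Tm), t₀.Alw → t₁.Alw → t₂.Alw →
    t₃.Alw → (A j t₀ t₁ t₂ t₃).sb τ = A j (t₀.sb τ) (t₁.sb τ) (t₂.sb τ) (t₃.sb τ)

/-- Definable families of relations are given by formulas. -/
theorem exists_ifaceS {R : ℕ → ℕ → ℕ → ℕ → ℕ → Prop} (hR : ∀ i, D4 (R i)) (K : ℕ)
    (hK : ∀ j a b c d, R j a b c d → j < K) : Nonempty (IfaceS R) := by
  set D : ℕ → Prop := fun n => ∃ j < K, ∃ a b c d, n = nd j (nd a (nd b (nd c d))) ∧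
    R j a b c d with hD
  have hdef : Dfn (fun e => D (e 0)) := by
    refine Dfn.bex (Q := fun j e => ∃ a b c d, e 0 = nd j (nd a (nd b (nd c d))) ∧
      R j a b c d) (fun j => ?_) K
    have key := (((((Dfn.eq (x 0) (ndT (Tm.num j) (ndT (x 1) (ndT (x 2) (ndT (x 3) (x 4)))))).and
      ((hR j).app (x 1) (x 2) (x 3) (x 4))).ex 4).ex 3).ex 2).ex 1
    refine key.congr fun e => ?_
    simp (disch := decide) only [Tm.val, update_self, update_of_ne, Tm.val_num, val_ndT]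
  obtain ⟨δ, h1, h2, h3⟩ := exists_delta hdef
  have hrel : ∀ j a b c d, D (nd j (nd a (nd b (nd c d)))) ↔ R j a b c d := by
    intro j a b c d
    constructor
    · rintro ⟨j', _, a', b', c', d', hh, hr⟩
      obtain ⟨i0, hh⟩ := nd_inj.mp hh
      obtain ⟨i1, hh⟩ := nd_inj.mp hh
      obtain ⟨i2, hh⟩ := nd_inj.mp hh
      obtain ⟨i3, i4⟩ := nd_inj.mp hh
      rw [i0, i1, i2, i3, i4]; exact hr
    · intro hr
      exact ⟨j, hK _ _ _ _ _ hr, a, b, c, d, rfl, hr⟩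
  have hterm : ∀ (j : ℕ) (t₀ t₁ t₂ t₃ : Tm), t₀.Alw → t₁.Alw → t₂.Alw → t₃.Alw →
      ∀ k, δ.Bd k → ¬ (ndT (Tm.num j) (ndT t₀ (ndT t₁ (ndT t₂ t₃)))).Has k := by
    intro j t₀ t₁ t₂ t₃ a0 a1 a2 a3 k hk hh
    obtain ⟨hk1, hk2⟩ := h3 k hk
    have hal : ¬ Al k := by unfold Al; omega
    simp only [has_ndT] at hh
    rcases hh with hh | hh | hh | hh | hh
    · exact Tm.not_has_num _ _ hh
    · exact hal (a0 k hh)
    · exact hal (a1 k hh)
    · exact hal (a2 k hh)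
    · exact hal (a3 k hh)
  have hsb : ∀ (j : ℕ) (t₀ t₁ t₂ t₃ : Tm) (τ : ℕ → Tm), t₀.Alw → t₁.Alw → t₂.Alw → t₃.Alw →
      (δ.sub 0 (ndT (Tm.num j) (ndT t₀ (ndT t₁ (ndT t₂ t₃))))).sb τ =
        δ.sub 0 (ndT (Tm.num j) (ndT (t₀.sb τ) (ndT (t₁.sb τ) (ndT (t₂.sb τ) (t₃.sb τ))))) := by
    intro j t₀ t₁ t₂ t₃ τ a0 a1 a2 a3
    rw [Fm.sub_sb (hterm j t₀ t₁ t₂ t₃ a0 a1 a2 a3)
      (fun k hk hk0 => absurd (h2 k hk) hk0) (fun h => by have := h3 0 h; omega)]
    have : (ndT (Tm.num j) (ndT t₀ (ndT t₁ (ndT t₂ t₃)))).sb τ =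
        ndT (Tm.num j) (ndT (t₀.sb τ) (ndT (t₁.sb τ) (ndT (t₂.sb τ) (t₃.sb τ)))) := by
      simp only [ndT, Tm.sb, Tm.sb_num]
    rw [this]
  refine ⟨⟨⟨fun j t₀ t₁ t₂ t₃ => δ.sub 0 (ndT (Tm.num j) (ndT t₀ (ndT t₁ (ndT t₂ t₃)))),
    ?_, ?_, ?_⟩, hsb⟩⟩
  · intro j t₀ t₁ t₂ t₃ e a0 a1 a2 a3
    rw [Fm.sat_sub (freeFor_of (hterm j t₀ t₁ t₂ t₃ a0 a1 a2 a3)), h1, update_self]
    simp only [val_ndT, Tm.val_num]
    exact hrel _ _ _ _ _
  · intro j t₀ t₁ t₂ t₃ e a0 a1 a2 a3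
    exact hsb j t₀ t₁ t₂ t₃ _ a0 a1 a2 a3
  · intro j t₀ t₁ t₂ t₃ k a0 a1 a2 a3 hk
    rcases free_sub hk with h | h
    · exact absurd (h2 k h.1) h.2
    · simp only [has_ndT] at h
      rcases h with h | h
      · exact absurd h (Tm.not_has_num _ _)
      · exact h

end Helper31Con.Amp

end

section

/-!
# Derivations under a list of hypotheses
-/

namespace Helper31Con.Amp

open Function Filter Fm

/-! ### Lifting and modus ponens -/

lemma len_impL_cons (γ : Fm) (G : List Fm) (φ : Fm) :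
    (impL (γ :: G) φ).len = γ.len + (impL G φ).len + 1 := rfl

lemma len_impL_imp (G : List Fm) (φ ψ : Fm) :
    (impL G (imp φ ψ)).len = (impL G φ).len + ψ.len + 1 := by
  induction G with
  | nil => rfl
  | cons γ G ih => rw [len_impL_cons, len_impL_cons, ih]; omega

lemma len_impL_le (G : List Fm) (φ ψ : Fm) :
    (impL G ψ).len + φ.len + 1 = (impL G (imp φ ψ)).len := by
  induction G with
  | nil => simp [impL, Fm.len]; omega
  | cons γ G ih => rw [len_impL_cons, len_impL_cons, ← ih]; omega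

lemma len_impL (G : List Fm) (φ : Fm) {S : ℕ} (hS : ∀ γ ∈ G, γ.len ≤ S) :
    (impL G φ).len ≤ G.length * (S + 1) + φ.len := by
  induction G with
  | nil => simp [impL]
  | cons γ G ih =>
    have h1 := ih fun γ hγ => hS γ (List.mem_cons_of_mem _ hγ)
    have h2 := hS γ List.mem_cons_self
    rw [len_impL_cons, List.length_cons]
    nlinarith

lemma Pr.liftL {T : List Fm} {n M : ℕ} {φ : Fm} (h : Pr T n M φ) (G : List Fm)
    (hM : 2 * (impL G φ).len + 2 ≤ M) : Pr T (n + 2 * G.length) M (impL G φ) := by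
  induction G with
  | nil => exact h
  | cons γ G ih =>
    rw [len_impL_cons] at hM
    have h1 := ih (by omega)
    have h2 := Pr.ax (T := T) (Ax.k (impL G φ) γ) (M := M) (by simp only [Fm.len]; omega)
    refine (h2.mp h1).mono ?_ le_rfl
    simp only [List.length_cons]; omega

lemma Pr.dist {T : List Fm} {M : ℕ} (G : List Fm) (φ ψ : Fm)
    (hM : 12 * (impL G (imp φ ψ)).len + 20 ≤ M) :
    Pr T (10 * G.length + 5) M
      (imp (impL G (imp φ ψ)) (imp (impL G φ) (impL G ψ))) := by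
  induction G with
  | nil =>
    simp only [impL, Fm.len] at hM ⊢
    set χ := imp φ ψ with hχ
    have hl : χ.len = φ.len + ψ.len + 1 := rfl
    have h1 := Pr.ax (T := T) (Ax.s χ (imp χ χ) χ) (M := M) (by simp only [Fm.len]; omega)
    have h2 := Pr.ax (T := T) (Ax.k χ (imp χ χ)) (M := M) (by simp only [Fm.len]; omega)
    have h3 := Pr.ax (T := T) (Ax.k χ χ) (M := M) (by simp only [Fm.len]; omega)
    exact ((h1.mp h2).mp h3).mono (by simp) le_rfl
  | cons γ G ih =>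
    have e1 := len_impL_imp G φ ψ
    have e2 := len_impL_le G φ ψ
    rw [len_impL_cons] at hM
    have h := ih (by omega)
    show Pr T _ M (imp (imp γ (impL G (imp φ ψ))) (imp (imp γ (impL G φ)) (imp γ (impL G ψ))))
    set a := impL G (imp φ ψ)
    set b := impL G φ
    set c := impL G ψ
    set X := imp γ a with hX
    set Y := imp γ (imp b c) with hY
    set Z := imp (imp γ b) (imp γ c) with hZ
    have lX : X.len = γ.len + a.len + 1 := rfl
    have lY : Y.len = γ.len + (b.len + c.len + 1) + 1 := rfl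
    have lZ : Z.len = (γ.len + b.len + 1) + (γ.len + c.len + 1) + 1 := rfl
    have h3 := Pr.mp (Pr.ax (T := T) (Ax.k (imp a (imp b c)) γ) (M := M)
      (by simp only [Fm.len]; omega)) h
    have h5 := Pr.mp (Pr.ax (T := T) (Ax.s γ a (imp b c)) (M := M)
      (by simp only [Fm.len]; omega)) h3
    have h8 := Pr.mp (Pr.ax (T := T) (Ax.k (imp Y Z) X) (M := M)
      (by simp only [Fm.len]; omega)) (Pr.ax (T := T) (Ax.s γ b c) (M := M)
      (by simp only [Fm.len]; omega))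
    have h10 := Pr.mp (Pr.ax (T := T) (Ax.s X Y Z) (M := M)
      (by simp only [Fm.len]; omega)) h8
    refine (h10.mp h5).mono ?_ le_rfl
    simp only [List.length_cons]; omega

lemma Pr.mpL {T : List Fm} {n n' M : ℕ} {G : List Fm} {φ ψ : Fm}
    (h : Pr T n M (impL G (imp φ ψ))) (h' : Pr T n' M (impL G φ))
    (hM : 12 * (impL G (imp φ ψ)).len + 20 ≤ M) :
    Pr T (n + n' + (10 * G.length + 7)) M (impL G ψ) :=
  (((Pr.dist G φ ψ hM).mp h).mp h').mono (by omega) le_rfl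

/-! ### Elimination of defining equations -/

lemma freeFor_of_not_free {φ : Fm} {v : ℕ} {t : Tm} (h : ¬ φ.Free v) : φ.FreeFor v t := by
  induction φ with
  | bot => trivial
  | eq t s => trivial
  | le t s => trivial
  | imp φ ψ ih1 ih2 => exact ⟨ih1 fun h' => h (Or.inl h'), ih2 fun h' => h (Or.inr h')⟩
  | all j φ ih =>
    by_cases hj : j = v
    · exact Or.inl hj
    · exact Or.inr (Or.inl fun h' => h ⟨hj, h'⟩)

lemma Pr.elim {T : List Fm} {n M v : ℕ} {t : Tm} {φ : Fm}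
    (h : Pr T n M (imp (eq (.var v) t) φ)) (hv : ¬ t.Has v) (hφ : ¬ φ.Free v)
    (hM : 4 * (imp (eq (.var v) t) φ).len + 5 ≤ M) : Pr T (n + 5) M φ := by
  have hlen : (imp (eq (.var v) t) φ).len = (v + 1 + t.len + 1) + φ.len + 1 := rfl
  rw [hlen] at hM
  have h1 := h.gen v (by simp only [Fm.len, Tm.len]; omega)
  have hff : (imp (eq (.var v) t) φ).FreeFor v t := ⟨trivial, freeFor_of_not_free hφ⟩
  have hax := Ax.inst v (imp (eq (.var v) t) φ) t hff
  have hsub : (imp (eq (.var v) t) φ).sub v t = imp (eq t t) φ := by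
    show imp (eq ((Tm.var v).sub v t) (t.sub v t)) (φ.sub v t) = _
    rw [sub_of_not_has hv, Fm.sub_of_not_free hφ]
    simp [Tm.sub]
  rw [hsub] at hax
  have h2 := (Pr.ax (T := T) hax (M := M) (by simp only [Fm.len, Tm.len]; omega)).mp h1
  have h3 := Pr.ax (T := T) (Ax.refl t) (M := M) (by simp only [Fm.len]; omega)
  exact (h2.mp h3).mono (by omega) le_rfl

lemma free_impL {G : List Fm} {φ : Fm} {k : ℕ} (h : (impL G φ).Free k) :
    (∃ γ ∈ G, γ.Free k) ∨ φ.Free k := by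
  induction G with
  | nil => exact Or.inr h
  | cons γ G ih =>
    rcases h with h | h
    · exact Or.inl ⟨γ, List.mem_cons_self, h⟩
    · rcases ih h with ⟨δ, h1, h2⟩ | h
      · exact Or.inl ⟨δ, List.mem_cons_of_mem _ h1, h2⟩
      · exact Or.inr h

/-- The defining equations. -/
def dfs (l : List (ℕ × Tm)) : List Fm := l.map fun p => eq (.var p.1) p.2

/-- Admissible definitions: a variable does not occur in its definition and in what follows. -/
def Adm : List (ℕ × Tm) → Prop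
  | [] => True
  | p :: l => ¬ p.2.Has p.1 ∧ (∀ q ∈ l, q.1 ≠ p.1 ∧ ¬ q.2.Has p.1) ∧ Adm l

lemma Pr.elimL {T : List Fm} {M : ℕ} {φ : Fm} : ∀ (l : List (ℕ × Tm)) (n : ℕ), Adm l →
    (∀ p ∈ l, ¬ φ.Free p.1) → 4 * (impL (dfs l) φ).len + 5 ≤ M →
    Pr T n M (impL (dfs l) φ) → Pr T (n + 5 * l.length) M φ
  | [], n, _, _, _, h => h
  | p :: l, n, hl, hφ, hM, h => by
    have h0 : dfs (p :: l) = eq (.var p.1) p.2 :: dfs l := rfl
    rw [h0] at hM h
    have h1 : Pr T (n + 5) M (impL (dfs l) φ) := by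
      refine Pr.elim (v := p.1) (t := p.2) h hl.1 (fun hf => ?_) hM
      rcases free_impL hf with ⟨γ, h1, h2⟩ | h1
      · obtain ⟨q, hq, rfl⟩ := List.mem_map.mp h1
        rcases h2 with h2 | h2
        · exact (hl.2.1 q hq).1 h2
        · exact (hl.2.1 q hq).2 h2
      · exact hφ p List.mem_cons_self h1
    rw [len_impL_cons] at hM
    have h2 := Pr.elimL l (n + 5) hl.2.2 (fun q hq => hφ q (List.mem_cons_of_mem _ hq))
      (by omega) h1
    refine h2.mono ?_ le_rfl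
    simp only [List.length_cons]; omega

/-! ### Cuts -/

lemma cut_list {T Ps L L' : List Fm} (h : IsProof (Ps ++ T) L) (h' : IsProof T L')
    (hP : ∀ P ∈ Ps, P ∈ L') : IsProof T (L ++ L') := by
  induction L with
  | nil => exact h'
  | cons φ L ih =>
    have h1 := ih h.1
    rcases h.2 with h | h | ⟨ψ, h2, h3⟩ | ⟨j, ψ, h2, h3⟩
    · rcases List.mem_append.mp h with h | h
      · exact isProof_cons_of_mem h1 (List.mem_append_right _ (hP φ h))
      · exact ⟨h1, Or.inl h⟩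
    · exact ⟨h1, Or.inr (Or.inl h)⟩
    · exact ⟨h1, Or.inr (Or.inr (Or.inl ⟨ψ, List.mem_append_left _ h2,
        List.mem_append_left _ h3⟩))⟩
    · exact ⟨h1, Or.inr (Or.inr (Or.inr ⟨j, ψ, List.mem_append_left _ h2, h3⟩))⟩

/-- All members of `Ps` occur in one proof with at most `n` lines of length at most `M`. -/
def PrL (T : List Fm) (n M : ℕ) (Ps : List Fm) : Prop :=
  ∃ L, IsProof T L ∧ (∀ P ∈ Ps, P ∈ L) ∧ L.length ≤ n ∧ ∀ ψ ∈ L, ψ.len ≤ M

lemma PrL.nil (T : List Fm) (M : ℕ) : PrL T 0 M [] := ⟨[], trivial, by simp, by simp, by simp⟩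

lemma PrL.cons {T : List Fm} {n m M : ℕ} {Ps : List Fm} {P : Fm} (h : PrL T n M Ps)
    (h' : Pr (Ps ++ T) m M P) : PrL T (m + n) M (P :: Ps) := by
  obtain ⟨L, h1, h2, h3, h4⟩ := h
  obtain ⟨L', h1', h2', h3', h4'⟩ := h'
  refine ⟨L' ++ L, cut_list h1' h1 h2, ?_, ?_, ?_⟩
  · intro Q hQ
    rcases List.mem_cons.mp hQ with rfl | hQ
    · exact List.mem_append_left _ h2'
    · exact List.mem_append_right _ (h2 Q hQ)
  · rw [List.length_append]; omega
  · intro ψ hψ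
    rcases List.mem_append.mp hψ with hψ | hψ
    · exact h4' ψ hψ
    · exact h4 ψ hψ

lemma PrL.pr {T : List Fm} {n M : ℕ} {Ps : List Fm} {P : Fm} (h : PrL T n M Ps) (hP : P ∈ Ps) :
    Pr T n M P := by
  obtain ⟨L, h1, h2, h3, h4⟩ := h
  exact ⟨L, h1, h2 P hP, h3, h4⟩

end Helper31Con.Amp

end

section

/-!
# Contexts, atoms and rules
-/

namespace Helper31Con.Amp

open Function Filter Fm

/-- Numerals. -/
abbrev nT (n : ℕ) : Tm := Tm.num n

lemma Pr.syl {T : List Fm} {n n' M : ℕ} {a b c : Fm} (h : Pr T n M (imp a b))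
    (h' : Pr T n' M (imp b c)) (hM : 3 * a.len + 2 * b.len + 2 * c.len + 6 ≤ M) :
    Pr T (n + n' + 5) M (imp a c) := by
  have h1 := Pr.mp (Pr.ax (T := T) (Ax.k (imp b c) a) (M := M) (by simp only [Fm.len]; omega)) h'
  have h2 := Pr.mp (Pr.ax (T := T) (Ax.s a b c) (M := M) (by simp only [Fm.len]; omega)) h1
  exact (h2.mp h).mono (by omega) le_rfl

lemma Pr.idn {T : List Fm} {M : ℕ} (χ : Fm) (hM : 9 * χ.len + 8 ≤ M) :
    Pr T 5 M (imp χ χ) := by
  have h1 := Pr.ax (T := T) (Ax.s χ (imp χ χ) χ) (M := M) (by simp only [Fm.len]; omega)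
  have h2 := Pr.ax (T := T) (Ax.k χ (imp χ χ)) (M := M) (by simp only [Fm.len]; omega)
  have h3 := Pr.ax (T := T) (Ax.k χ χ) (M := M) (by simp only [Fm.len]; omega)
  exact ((h1.mp h2).mp h3).mono (by omega) le_rfl

lemma Pr.hyp0 {T : List Fm} {M : ℕ} (δ : Fm) (G : List Fm)
    (hM : 9 * δ.len + 4 * (impL G δ).len + 10 ≤ M) :
    Pr T (6 * G.length + 5) M (imp δ (impL G δ)) := by
  induction G with
  | nil => exact (Pr.idn δ (by omega)).mono (by simp) le_rfl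
  | cons γ G ih =>
    rw [len_impL_cons] at hM
    have h1 := ih (by omega)
    have h2 := Pr.ax (T := T) (Ax.k (impL G δ) γ) (M := M) (by simp only [Fm.len]; omega)
    refine (Pr.syl h1 h2 ?_).mono ?_ le_rfl
    · simp only [Fm.len]; omega
    · simp only [List.length_cons]; omega

lemma Pr.hyp {T : List Fm} {M : ℕ} {γ : Fm} {G : List Fm} (hγ : γ ∈ G)
    (hM : 9 * γ.len + 4 * (impL G γ).len + 10 ≤ M) :
    Pr T (6 * G.length + 5) M (impL G γ) := by
  induction G with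
  | nil => simp at hγ
  | cons δ G ih =>
    rw [len_impL_cons] at hM
    rcases List.mem_cons.mp hγ with rfl | hγ
    · refine (Pr.hyp0 γ G (by omega)).mono ?_ le_rfl
      simp only [List.length_cons]; omega
    · have h1 := ih hγ (by omega)
      have h2 := Pr.ax (T := T) (Ax.k (impL G γ) δ) (M := M) (by simp only [Fm.len]; omega)
      refine (h2.mp h1).mono ?_ le_rfl
      simp only [List.length_cons]; omega

/-! ### Contexts -/

/-- Context: axioms `B`, hypotheses `G`, names are variables from `W` on, size `S`, cost `C`. -/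
structure Cx where
  B : List Fm
  G : List Fm
  W : ℕ
  S : ℕ
  C : ℕ
  hS : 1 ≤ S
  hG : G.length ≤ S
  hl : ∀ γ ∈ G, γ.len ≤ S

/-- `φ` has a derivation of cost `n`. -/
def Cx.E (X : Cx) (n : ℕ) (φ : Fm) : Prop := Pr X.B (X.C * n) X.C (impL X.G φ)

lemma Cx.E.mono {X : Cx} {n m : ℕ} {φ : Fm} (h : X.E n φ) (hn : n ≤ m) : X.E m φ :=
  Pr.mono h (Nat.mul_le_mul_left _ hn) le_rfl

/-- Admissible terms. -/
structure Cx.Ok (X : Cx) (t : Tm) : Prop where
  big : ∀ i, t.Has i → X.W ≤ i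
  len : t.len ≤ X.S

lemma Cx.ok_zero (X : Cx) : X.Ok .zero := ⟨fun _ h => absurd h (by simp [Tm.Has]), X.hS⟩

lemma Cx.ok_num (X : Cx) {n : ℕ} (h : n + 1 ≤ X.S) : X.Ok (nT n) :=
  ⟨fun _ h => absurd h (by simp), by simpa using h⟩

/-- Substitutions given by lists. -/
def tl (l : List Tm) : ℕ → Tm := fun k => l.getD k Tm.zero

lemma Cx.ok_tl {X : Cx} {l : List Tm} (h : ∀ t ∈ l, X.Ok t) (k : ℕ) : X.Ok (tl l k) := by
  unfold tl
  by_cases hk : k < l.length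
  · rw [List.getD_eq_getElem _ _ hk]; exact h _ (List.getElem_mem hk)
  · rw [List.getD_eq_default _ _ (by omega)]; exact X.ok_zero

lemma Cx.len_impL (X : Cx) (φ : Fm) : (impL X.G φ).len ≤ X.S * (X.S + 1) + φ.len :=
  (Amp.len_impL X.G φ X.hl).trans (Nat.add_le_add_right (Nat.mul_le_mul_right _ X.hG) _)

/-- `P` holds for all large contexts. -/
def Ev (P : Cx → Prop) : Prop :=
  ∃ B₀ : List Fm, (∀ β ∈ B₀, TrueS β) ∧ ∃ c : ℕ, ∀ X : Cx, (∀ β ∈ B₀, β ∈ X.B) → c ≤ X.W →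
    (X.S + c) ^ c ≤ X.C → P X

lemma Ev.mono {P Q : Cx → Prop} (h : Ev P) (h' : ∀ X, P X → Q X) : Ev Q := by
  obtain ⟨B₀, h1, c, h2⟩ := h
  exact ⟨B₀, h1, c, fun X a b d => h' X (h2 X a b d)⟩

lemma Ev.and {P Q : Cx → Prop} (h : Ev P) (h' : Ev Q) : Ev fun X => P X ∧ Q X := by
  obtain ⟨B₀, h1, c, h2⟩ := h
  obtain ⟨B₁, h1', c', h2'⟩ := h'
  refine ⟨B₀ ++ B₁, ?_, max c c', fun X a b d => ⟨h2 X ?_ ?_ ?_, h2' X ?_ ?_ ?_⟩⟩
  · intro β hβ
    rcases List.mem_append.mp hβ with h | h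
    · exact h1 β h
    · exact h1' β h
  · exact fun β hβ => a β (List.mem_append_left _ hβ)
  · exact (le_max_left _ _).trans b
  · refine le_trans ?_ d
    have hS := X.hS
    calc (X.S + c) ^ c ≤ (X.S + max c c') ^ c :=
          Nat.pow_le_pow_left (Nat.add_le_add_left (le_max_left _ _) _) _
      _ ≤ (X.S + max c c') ^ max c c' :=
          Nat.pow_le_pow_right (by omega) (le_max_left _ _)
  · exact fun β hβ => a β (List.mem_append_right _ hβ)
  · exact (le_max_right _ _).trans b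
  · refine le_trans ?_ d
    have hS := X.hS
    calc (X.S + c') ^ c' ≤ (X.S + max c c') ^ c' :=
          Nat.pow_le_pow_left (Nat.add_le_add_left (le_max_right _ _) _) _
      _ ≤ (X.S + max c c') ^ max c c' :=
          Nat.pow_le_pow_right (by omega) (le_max_right _ _)

lemma ev_true {P : Cx → Prop} (h : ∀ X, P X) : Ev P := ⟨[], by simp, 0, fun X _ _ _ => h X⟩

lemma ev_rich {Q : List Fm → Prop} (h : ∀ᶠ B in rich, Q B) : Ev fun X => Q X.B := by
  obtain ⟨B₀, h1, h2⟩ := rich_iff.mp h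
  exact ⟨B₀, h1, 0, fun X a _ _ => h2 X.B a⟩

lemma ev_W (w : ℕ) : Ev fun X => w ≤ X.W := ⟨[], by simp, w, fun X _ h _ => h⟩

lemma ev_pb {f : ℕ → ℕ} (hf : PB f) : Ev fun X => f X.S ≤ X.C := by
  obtain ⟨K, q, hK⟩ := hf
  refine ⟨[], by simp, K + q + 2, fun X _ _ h => (hK X.S).trans (le_trans ?_ h)⟩
  have hS := X.hS
  calc K * (X.S + 2) ^ q ≤ (X.S + (K + q + 2)) * (X.S + (K + q + 2)) ^ q :=
        Nat.mul_le_mul (by omega) (Nat.pow_le_pow_left (by omega) _)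
    _ = (X.S + (K + q + 2)) ^ (q + 1) := by rw [pow_succ]; ring
    _ ≤ (X.S + (K + q + 2)) ^ (K + q + 2) := Nat.pow_le_pow_right (by omega) (by omega)

lemma ev_lt {P : ℕ → Cx → Prop} (n : ℕ) (h : ∀ d < n, Ev (P d)) : Ev fun X => ∀ d < n, P d X := by
  induction n with
  | zero => exact ev_true fun X d hd => by omega
  | succ n ih =>
    refine ((ih fun d hd => h d (by omega)).and (h n (by omega))).mono ?_
    rintro X ⟨h1, h2⟩ d hd
    rcases Nat.lt_succ_iff_lt_or_eq.mp hd with h3 | rfl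
    · exact h1 d h3
    · exact h2

lemma ev_pr {f : ℕ → ℕ} (hf : PB f) : Ev fun X => ∀ φ, Pr X.B (f X.S) (f X.S) φ → X.E 1 φ := by
  have h := ev_pb (f := fun S => 2 * (S * (S + 1) + f S) + 2 + f S + 2 * S)
    (((((PB.const 2).mul ((PB.id.mul (PB.id.add (PB.const 1))).add hf)).add
      (PB.const 2)).add hf).add ((PB.const 2).mul PB.id))
  refine h.mono fun X hX φ hφ => ?_
  have h1 := hφ.len_le
  have h2 := X.len_impL φ
  have h3 := X.hG
  have hX' : 2 * (X.S * (X.S + 1) + f X.S) + 2 + f X.S + 2 * X.S ≤ X.C := hX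
  refine (Pr.liftL (hφ.mono le_rfl (M' := X.C) (by omega)) X.G (by omega)).mono (by omega) le_rfl

lemma ev_hyp : Ev fun X => ∀ γ ∈ X.G, X.E 1 γ := by
  have h := ev_pb (f := fun S => 9 * S + 4 * (S * (S + 1) + S) + 10 + 6 * S + 5)
    ((((((PB.const 9).mul PB.id).add ((PB.const 4).mul ((PB.id.mul (PB.id.add
      (PB.const 1))).add PB.id))).add (PB.const 10)).add ((PB.const 6).mul PB.id)).add
        (PB.const 5))
  refine h.mono fun X hX γ hγ => ?_
  have h1 := X.hl γ hγ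
  have h2 := X.len_impL γ
  have h3 := X.hG
  have hX' : 9 * X.S + 4 * (X.S * (X.S + 1) + X.S) + 10 + 6 * X.S + 5 ≤ X.C := hX
  exact (Pr.hyp hγ (by omega)).mono (by omega) le_rfl

/-- An axiom is available. -/
lemma ev_mem : Ev fun X => ∀ φ ∈ X.B, φ.len ≤ X.S → X.E 1 φ := by
  refine (ev_pr PB.id).mono fun X hX φ h1 h2 => hX φ ((Pr.mem h1 h2).mono X.hS le_rfl)

/-! ### Atoms -/

/-- Atoms. -/
inductive At where
  | eq (t s : Tm) : At
  | ne (t s : Tm) : At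
  | n1 (u : Tm) (d : ℕ) (y : Tm) : At
  | n2 (u : Tm) (d : ℕ) (y z : Tm) : At
  | rl (j : ℕ) (a b c d : Tm) : At

variable {R : ℕ → ℕ → ℕ → ℕ → ℕ → Prop}

/-- The formula of an atom. -/
def At.fm (I : IfaceS R) : At → Fm
  | .eq t s => Fm.eq t s
  | .ne t s => neg (Fm.eq t s)
  | .n1 u d y => Fm.eq u (ndT (nT d) y)
  | .n2 u d y z => Fm.eq u (ndT (nT d) (ndT y z))
  | .rl j a b c d => I.A j a b c d

/-- Substitution in atoms. -/
def At.sb : At → (ℕ → Tm) → At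
  | .eq t s, σ => .eq (t.sb σ) (s.sb σ)
  | .ne t s, σ => .ne (t.sb σ) (s.sb σ)
  | .n1 u d y, σ => .n1 (u.sb σ) d (y.sb σ)
  | .n2 u d y z, σ => .n2 (u.sb σ) d (y.sb σ) (z.sb σ)
  | .rl j a b c d, σ => .rl j (a.sb σ) (b.sb σ) (c.sb σ) (d.sb σ)

/-- Truth of atoms. -/
def At.Tr (R : ℕ → ℕ → ℕ → ℕ → ℕ → Prop) : At → (ℕ → ℕ) → Prop
  | .eq t s, e => t.val e = s.val e
  | .ne t s, e => t.val e ≠ s.val e
  | .n1 u d y, e => u.val e = nd d (y.val e)
  | .n2 u d y z, e => u.val e = nd d (nd (y.val e) (z.val e))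
  | .rl j a b c d, e => R j (a.val e) (b.val e) (c.val e) (d.val e)

/-- The terms of a relational atom are allowed. -/
def At.Wf : At → Prop
  | .rl _ a b c d => a.Alw ∧ b.Alw ∧ c.Alw ∧ d.Alw
  | _ => True

lemma sb_ndT (t s : Tm) (σ : ℕ → Tm) : (ndT t s).sb σ = ndT (t.sb σ) (s.sb σ) := by
  simp only [ndT, Tm.sb]

lemma At.fm_sb (I : IfaceS R) {α : At} (h : α.Wf) (σ : ℕ → Tm) :
    (α.fm I).sb σ = (α.sb σ).fm I := by
  cases α with
  | eq t s => rfl
  | ne t s => rfl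
  | n1 u d y => simp only [At.fm, At.sb, Fm.sb, sb_ndT, Tm.sb_num]
  | n2 u d y z => simp only [At.fm, At.sb, Fm.sb, sb_ndT, Tm.sb_num]
  | rl j a b c d => exact I.sbs _ _ _ _ _ _ h.1 h.2.1 h.2.2.1 h.2.2.2

lemma At.fm_sat (I : IfaceS R) {α : At} (h : α.Wf) (e : ℕ → ℕ) :
    (α.fm I).Sat e ↔ α.Tr R e := by
  cases α with
  | eq t s => exact Iff.rfl
  | ne t s => exact Iff.rfl
  | n1 u d y => simp only [At.fm, At.Tr, Fm.Sat, val_ndT, Tm.val_num]
  | n2 u d y z => simp only [At.fm, At.Tr, Fm.Sat, val_ndT, Tm.val_num]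
  | rl j a b c d => exact I.sat _ _ _ _ _ _ h.1 h.2.1 h.2.2.1 h.2.2.2

/-- Truth of a rule. -/
def TrL (R : ℕ → ℕ → ℕ → ℕ → ℕ → Prop) : List At → At → (ℕ → ℕ) → Prop
  | [], β, e => β.Tr R e
  | α :: l, β, e => α.Tr R e → TrL R l β e

lemma trL_iff {l : List At} {β : At} {e : ℕ → ℕ} :
    TrL R l β e ↔ ((∀ α ∈ l, α.Tr R e) → β.Tr R e) := by
  induction l with
  | nil => simp [TrL]
  | cons α l ih => simp only [TrL, ih, List.forall_mem_cons]; tauto

lemma mpLs {X : Cx} {β : Fm} : ∀ (αs : List Fm) (ns : List ℕ) (m : ℕ),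
    List.Forall₂ (fun n α => X.E n α) ns αs →
    12 * (impL X.G (impL αs β)).len + 20 ≤ X.C →
    Pr X.B m X.C (impL X.G (impL αs β)) →
    Pr X.B (m + X.C * ns.sum + αs.length * (10 * X.G.length + 7)) X.C (impL X.G β)
  | [], _, m, .nil, _, h => h.mono (by simp) le_rfl
  | α :: αs, _, m, .cons (a := n) (l₁ := ns) h1 h2, hM, h => by
    have h3 : Pr X.B m X.C (impL X.G (imp α (impL αs β))) := h
    have h4 := Pr.mpL h3 h1 hM
    have h5 : (impL X.G (impL αs β)).len ≤ (impL X.G (imp α (impL αs β))).len := by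
      rw [← len_impL_le]; omega
    have h6 : (impL X.G (impL (α :: αs) β)).len = (impL X.G (imp α (impL αs β))).len := rfl
    have h7 := mpLs αs ns _ h2 (by omega) h4
    refine h7.mono (le_of_eq ?_) le_rfl
    simp only [List.sum_cons, List.length_cons]; ring

/-- True rules are available in large contexts. -/
lemma ev_rule (I : IfaceS R) (αs : List At) (β : At) (hw : ∀ α ∈ β :: αs, α.Wf)
    (h : ∀ e, TrL R αs β e) : Ev fun X => ∀ (τ : ℕ → Tm) (ns : List ℕ), (∀ k, X.Ok (τ k)) →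
      List.Forall₂ (fun n α => X.E n (At.fm I (At.sb α τ))) ns αs →
      X.E (ns.sum + 1) ((β.sb τ).fm I) := by
  set φ := impL (αs.map (At.fm I)) (β.fm I) with hφ
  have hw1 : β.Wf := hw β List.mem_cons_self
  have hw2 : ∀ α ∈ αs, α.Wf := fun α hα => hw α (List.mem_cons_of_mem _ hα)
  have h1 : ∀ᶠ B in rich, φ.ucl ∈ B := rich_ucl fun e => by
    rw [hφ, sat_impL, At.fm_sat I hw1]
    intro h2
    refine trL_iff.mp (h e) fun α hα => ?_
    exact (At.fm_sat I (hw2 α hα) e).mp (h2 _ (List.mem_map_of_mem hα))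
  have h2 := ev_pb (f := fun S => 12 * (S * (S + 1) + φ.len * (S + 1)) + 20 + φ.sz * (S + 1)
    + φ.sz + 2 * S + αs.length * (10 * S + 7))
    (((((((PB.const 12).mul ((PB.id.mul (PB.id.add (PB.const 1))).add ((PB.const _).mul
      (PB.id.add (PB.const 1))))).add (PB.const 20)).add ((PB.const _).mul
      (PB.id.add (PB.const 1)))).add (PB.const _)).add ((PB.const 2).mul PB.id)).add
      ((PB.const _).mul (((PB.const 10).mul PB.id).add (PB.const 7))))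
  refine (((ev_rich h1).and h2).and (ev_W φ.fv)).mono ?_
  rintro X ⟨⟨h1, h2⟩, h3⟩ τ ns hτ hα
  have h2' : 12 * (X.S * (X.S + 1) + φ.len * (X.S + 1)) + 20 + φ.sz * (X.S + 1)
    + φ.sz + 2 * X.S + αs.length * (10 * X.S + 7) ≤ X.C := h2
  have hS := X.hS
  have hG := X.hG
  have q1 : Pr X.B φ.sz X.C (φ.sb τ) := by
    refine (Pr.instG h1 (fun k => (hτ k).big) h3 (N := X.S)
      (fun k => (hτ k).len.trans (by omega))).mono le_rfl (by omega)
  have q2 : φ.sb τ = impL (αs.map fun α => At.fm I (At.sb α τ)) ((β.sb τ).fm I) := by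
    rw [hφ, sb_impL, At.fm_sb I hw1, List.map_map]
    congr 1
    refine List.map_congr_left fun α hα => ?_
    exact At.fm_sb I (hw2 α hα) τ
  have q3 : (φ.sb τ).len ≤ φ.len * (X.S + 1) := by
    refine Fm.len_sb_le (by omega) fun k _ => ?_
    have := (hτ k).len
    nlinarith
  have q4 := X.len_impL (φ.sb τ)
  have q5 := Pr.liftL q1 X.G (by omega)
  rw [q2] at q5 q4 q3
  have q6 := mpLs (X := X) (β := (β.sb τ).fm I) _ ns _ (by
    rw [List.forall₂_map_right_iff]; exact hα) (by omega) q5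
  refine Pr.mono q6 ?_ le_rfl
  rw [List.length_map]
  have q7 : αs.length * (10 * X.G.length + 7) ≤ αs.length * (10 * X.S + 7) := by gcongr
  have q8 : X.C * (ns.sum + 1) = X.C * ns.sum + X.C := by ring
  omega

end Helper31Con.Amp

end

section

/-!
# The relations
-/

namespace Helper31Con.Amp

open Function Filter Fm BF

/-- Provability; vacuous for numbers that are not codes. -/
def PRr (a y : ℕ) : Prop := ∀ l φ, a = lc l → y = fc φ → ∃ k, Prov l k φ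

/-- The variable does not occur free; vacuous for numbers that are not codes. -/
def NHF (y j : ℕ) : Prop :=
  (∀ t, y = tc t → ¬ t.Has j) ∧ (∀ φ, y = fc φ → ¬ φ.Free j)

/-- Substitution; vacuous for numbers that are not codes. -/
def SBX (y j r z : ℕ) : Prop :=
  (∀ t r', y = tc t → r = tc r' → z = tc (t.sub j r')) ∧
  (∀ φ r', y = fc φ → r = tc r' → z = fc (φ.sub j r'))

/-- Free for; vacuous for numbers that are not codes. -/
def FFX (y j r : ℕ) : Prop := ∀ φ r', y = fc φ → r = tc r' → φ.FreeFor j r'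

/-- The family of relations. -/
def RA (con θ : Fm) : ℕ → ℕ → ℕ → ℕ → ℕ → Prop
  | 0, a, _, _, _ => IsT a
  | 1, a, _, _, _ => IsF a
  | 2, a, b, _, _ => HasR a b
  | 3, a, b, _, _ => FreeR a b
  | 4, a, b, c, d => SbT a b c d
  | 5, a, b, c, d => SbF a b c d
  | 6, a, b, c, _ => FFR a b c
  | 7, a, b, _, _ => LnT a b
  | 8, a, b, _, _ => LnF a b
  | 9, a, _, _, _ => AxR a
  | 10, a, _, _, _ => IsL a
  | 11, a, _, _, _ => LSR a
  | 12, a, b, _, _ => MeR a b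
  | 13, a, b, _, _ => PfR a b
  | 14, a, b, _, _ => PLR a b
  | 15, a, b, c, _ => NR a b c
  | 16, a, b, _, _ => b = tc (Tm.num a)
  | 17, a, b, _, _ => PRr a b
  | 18, a, b, _, _ => NHF a b
  | 19, a, b, c, d => SBX a b c d
  | 20, a, b, c, _ => FFX a b c
  | 21, a, b, _, _ => b = fc (con.sub 0 (Tm.num a))
  | 22, a, _, _, _ => ∀ n, cP con a n
  | 23, a, b, _, _ => cP con a b
  | 24, a, _, _, _ => θ.Sat fun _ => a
  | _, _, _, _, _ => False

variable {con θ : Fm}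

lemma RA_lt {g : ℕ → ℕ} {s₀ : ℕ} {j : ℕ} (hj : j < 16) : RA con θ j = Rel con g s₀ j := by
  match j, hj with
  | 0, _ => rfl
  | 1, _ => rfl
  | 2, _ => rfl
  | 3, _ => rfl
  | 4, _ => rfl
  | 5, _ => rfl
  | 6, _ => rfl
  | 7, _ => rfl
  | 8, _ => rfl
  | 9, _ => rfl
  | 10, _ => rfl
  | 11, _ => rfl
  | 12, _ => rfl
  | 13, _ => rfl
  | 14, _ => rfl
  | 15, _ => rfl
  | n + 16, h => exact absurd h (by omega)

lemma ev_congrR {R R' : ℕ → ℕ → ℕ → ℕ → ℕ → Prop} {S : ℕ → ℕ → ℕ → ℕ → Prop} {i : ℕ}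
    (h : ∀ j < i, R j = R' j) {ψ : BF} (hψ : ψ.Ok i) (e : ℕ → ℕ) :
    ψ.ev R S e ↔ ψ.ev R' S e := by
  induction ψ generalizing e with
  | bot => exact Iff.rfl
  | eq t s => exact Iff.rfl
  | le t s => exact Iff.rfl
  | rel j a b c d => simp only [ev_rel]; rw [h j hψ.1]
  | slf a b c d => exact Iff.rfl
  | imp φ ψ ih1 ih2 => exact imp_congr (ih1 hψ.1 e) (ih2 hψ.2 e)
  | ball k a φ ih =>
    simp only [ev_ball]
    exact forall_congr' fun b => forall_congr' fun _ => ih hψ.2.2 _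

lemma psi_iffA {i : ℕ} (hi : i < 16) (e : ℕ → ℕ) : RA con θ i (e 0) (e 1) (e 2) (e 3) ↔
    (psi i).ev (RA con θ) (RA con θ i) e := by
  rw [RA_lt (g := id) (s₀ := 0) hi, psi_iff hi]
  exact (ev_congrR (fun j hj => RA_lt (by omega)) (psi_ok hi) e).symm

/-- The syntactic relations are decided with elementary cost. -/
lemma dec_allA (I : Iface (RA con θ)) : ∃ f, EB f ∧ ∀ᶠ B in rich, ∀ N, ∀ j < 16,
    DecR I B (f N) N j := by
  have key : ∀ i ≤ 16, ∃ f, EB f ∧ ∀ᶠ B in rich, ∀ N, ∀ j < i, DecR I B (f N) N j := by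
    intro i
    induction i with
    | zero =>
      intro _
      exact ⟨fun _ => 0, EB.const 0, Eventually.of_forall fun B N j hj => by omega⟩
    | succ i ih =>
      intro hi
      exact dec_rec I (psi_ok (by omega)) (psi_iffA (by omega)) (ih (by omega))
  exact key 16 le_rfl

/-! ### Definability -/

lemma d4_lt {i : ℕ} (hi : i < 16) : D4 (RA con θ i) := by
  rw [RA_lt (g := id) (s₀ := 0) hi]; exact d4_syn hi

lemma d4_16 : D4 (RA con θ 16) := by
  refine dfn_rec (ψ := ψ22) (fun j hj => d4_lt hj) (by simp [ψ22, Ok]) fun e => ?_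
  simp (disch := decide) only [ψ22, ev_bex, ev_and, ev_or, ev_eq, ev_slf,
    Tm.val, update_self, update_of_ne, Tm.val_num, val_ndT, RA]
  constructor
  · intro h
    cases h0 : e 0 with
    | zero => left; rw [h0] at h; exact ⟨rfl, h⟩
    | succ n =>
      right
      rw [h0] at h
      have h' : e 1 = nd 2 (tc (.num n)) := h
      refine ⟨n, by omega, tc (.num n), ?_, by omega, h', by omega, rfl⟩
      rw [h']; exact (lt_nd_r _ _).le
  · rintro (⟨h, h'⟩ | ⟨n, _, y, _, h1, h2, _, h3⟩)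
    · rw [h, h']; rfl
    · rw [h1, h2, h3]; rfl

lemma prr_iff (a y : ℕ) : PRr a y ↔ (IsL a → IsF y → ∃ L, PfR L a ∧ MeR L y) := by
  constructor
  · rintro h ⟨l, rfl⟩ ⟨φ, rfl⟩
    obtain ⟨k, L, hL, _⟩ := h l φ rfl rfl
    exact ⟨lc (φ :: L), ⟨φ :: L, l, rfl, rfl, hL⟩, ⟨φ :: L, φ, rfl, rfl, List.mem_cons_self⟩⟩
  · rintro h l φ rfl rfl
    obtain ⟨L, ⟨l1, t, h1, h2, h3⟩, ⟨l2, φ2, h4, h5, h6⟩⟩ := h ⟨l, rfl⟩ ⟨φ, rfl⟩
    obtain rfl := lc_inj h2
    obtain rfl := fc_inj h5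
    obtain rfl := lc_inj (h1.symm.trans h4)
    exact ⟨plen (φ :: l1), l1, isProof_cons_of_mem h3 h6, le_rfl⟩

lemma nhf_iff (y j : ℕ) : NHF y j ↔ (¬ HasR y j ∧ ¬ FreeR y j) := by
  unfold NHF HasR FreeR
  constructor
  · rintro ⟨h1, h2⟩
    exact ⟨fun ⟨t, h3, h4⟩ => h1 t h3 h4, fun ⟨t, h3, h4⟩ => h2 t h3 h4⟩
  · rintro ⟨h1, h2⟩
    exact ⟨fun t h3 h4 => h1 ⟨t, h3, h4⟩, fun t h3 h4 => h2 ⟨t, h3, h4⟩⟩

lemma sbx_iff (y j r z : ℕ) : SBX y j r z ↔
    ((IsT y → IsT r → SbT y j r z) ∧ (IsF y → IsT r → SbF y j r z)) := by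
  constructor
  · rintro ⟨h1, h2⟩
    refine ⟨?_, ?_⟩
    · rintro ⟨t, rfl⟩ ⟨r', rfl⟩
      exact ⟨t, r', rfl, rfl, h1 t r' rfl rfl⟩
    · rintro ⟨t, rfl⟩ ⟨r', rfl⟩
      exact ⟨t, r', rfl, rfl, h2 t r' rfl rfl⟩
  · rintro ⟨h1, h2⟩
    refine ⟨?_, ?_⟩
    · rintro t r' rfl rfl
      obtain ⟨t2, r2, h3, h4, h5⟩ := h1 ⟨t, rfl⟩ ⟨r', rfl⟩
      obtain rfl := tc_inj h3
      obtain rfl := tc_inj h4
      exact h5
    · rintro t r' rfl rfl
      obtain ⟨t2, r2, h3, h4, h5⟩ := h2 ⟨t, rfl⟩ ⟨r', rfl⟩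
      obtain rfl := fc_inj h3
      obtain rfl := tc_inj h4
      exact h5

lemma ffx_iff (y j r : ℕ) : FFX y j r ↔ (IsF y → IsT r → FFR y j r) := by
  constructor
  · rintro h ⟨t, rfl⟩ ⟨r', rfl⟩
    exact ⟨t, r', rfl, rfl, h t r' rfl rfl⟩
  · rintro h t r' rfl rfl
    obtain ⟨t2, r2, h3, h4, h5⟩ := h ⟨t, rfl⟩ ⟨r', rfl⟩
    obtain rfl := fc_inj h3
    obtain rfl := tc_inj h4
    exact h5

lemma d4_17 : D4 (RA con θ 17) := by
  have key := ((d4_lt (con := con) (θ := θ) (i := 10) (by omega)).app (x 0) (x 0) (x 0) (x 0)).imp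
    (((d4_lt (con := con) (θ := θ) (i := 1) (by omega)).app (x 1) (x 0) (x 0) (x 0)).imp
    ((((d4_lt (con := con) (θ := θ) (i := 13) (by omega)).app (x 4) (x 0) (x 0) (x 0)).and
      ((d4_lt (con := con) (θ := θ) (i := 12) (by omega)).app (x 4) (x 1) (x 0) (x 0))).ex 4))
  refine key.congr fun e => ?_
  simp (disch := decide) only [Tm.val, update_self, update_of_ne, RA, prr_iff]

lemma d4_18 : D4 (RA con θ 18) := by
  have key := ((d4_lt (con := con) (θ := θ) (i := 2) (by omega)).app (x 0) (x 1) (x 0) (x 0)).not.and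
    ((d4_lt (con := con) (θ := θ) (i := 3) (by omega)).app (x 0) (x 1) (x 0) (x 0)).not
  refine key.congr fun e => ?_
  simp only [Tm.val, RA, nhf_iff]

lemma d4_19 : D4 (RA con θ 19) := by
  have h0 := (d4_lt (con := con) (θ := θ) (i := 0) (by omega)).app (x 0) (x 0) (x 0) (x 0)
  have h0' := (d4_lt (con := con) (θ := θ) (i := 0) (by omega)).app (x 2) (x 0) (x 0) (x 0)
  have h1 := (d4_lt (con := con) (θ := θ) (i := 1) (by omega)).app (x 0) (x 0) (x 0) (x 0)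
  have key := (h0.imp (h0'.imp
    ((d4_lt (con := con) (θ := θ) (i := 4) (by omega)).app (x 0) (x 1) (x 2) (x 3)))).and
    (h1.imp (h0'.imp
    ((d4_lt (con := con) (θ := θ) (i := 5) (by omega)).app (x 0) (x 1) (x 2) (x 3))))
  refine key.congr fun e => ?_
  simp only [Tm.val, RA, sbx_iff]

lemma d4_20 : D4 (RA con θ 20) := by
  have h0' := (d4_lt (con := con) (θ := θ) (i := 0) (by omega)).app (x 2) (x 0) (x 0) (x 0)
  have h1 := (d4_lt (con := con) (θ := θ) (i := 1) (by omega)).app (x 0) (x 0) (x 0) (x 0)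
  have key := h1.imp (h0'.imp
    ((d4_lt (con := con) (θ := θ) (i := 6) (by omega)).app (x 0) (x 1) (x 2) (x 3)))
  refine key.congr fun e => ?_
  simp only [Tm.val, RA, ffx_iff]

lemma d4_21 : D4 (RA con θ 21) := by
  have key := (((d4_16 (con := con) (θ := θ)).app (x 0) (x 4) (x 0) (x 0)).and
    ((d4_lt (con := con) (θ := θ) (i := 5) (by omega)).app (Tm.num (fc con)) .zero (x 4) (x 1))).ex 4
  refine key.congr fun e => ?_
  simp (disch := decide) only [Tm.val, update_self, update_of_ne, RA, Tm.val_num]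
  constructor
  · rintro ⟨u, h1, ⟨φ, r', k1, k2, k3⟩⟩
    obtain rfl := fc_inj k1
    obtain rfl := tc_inj (h1.symm.trans k2)
    exact k3
  · intro h
    exact ⟨tc (.num (e 0)), rfl, con, .num (e 0), rfl, rfl, h⟩

lemma d4_22 (hcon : IsCon con) : D4 (RA con θ 22) := by
  refine ⟨all 1 con, fun e => forall_congr' fun n => ?_⟩
  rw [hcon.cP_iff, update_self, update_of_ne (by omega)]

lemma d4_23 (hcon : IsCon con) : D4 (RA con θ 23) := ⟨con, fun e => hcon.cP_iff e⟩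

lemma sat_one {θ : Fm} (hθ : ∀ k, θ.Free k → k = 0) (e : ℕ → ℕ) :
    θ.Sat e ↔ θ.Sat fun _ => e 0 :=
  Fm.sat_congr fun k hk => by rw [hθ k hk]

lemma d4_24 (hθ : ∀ k, θ.Free k → k = 0) : D4 (RA con θ 24) := ⟨θ, fun e => sat_one hθ e⟩

lemma exists_ifaceA (hcon : IsCon con) (hθ : ∀ k, θ.Free k → k = 0) :
    Nonempty (IfaceS (RA con θ)) := by
  refine exists_ifaceS (fun i => ?_) 25 fun j a b c d h => ?_
  · rcases lt_or_ge i 16 with h | h
    · exact d4_lt h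
    · match i, h with
      | 16, _ => exact d4_16
      | 17, _ => exact d4_17
      | 18, _ => exact d4_18
      | 19, _ => exact d4_19
      | 20, _ => exact d4_20
      | 21, _ => exact d4_21
      | 22, _ => exact d4_22 hcon
      | 23, _ => exact d4_23 hcon
      | 24, _ => exact d4_24 hθ
      | n + 25, _ => exact Dfn.false'
  · by_contra hj
    obtain ⟨n, rfl⟩ : ∃ n, j = n + 25 := ⟨j - 25, by omega⟩
    exact h

end Helper31Con.Amp

end

section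

/-!
# Truth of the rules
-/

namespace Helper31Con.Amp

open Function Filter Fm

/-! ### Inversion -/

lemma inv0 {k : ℕ} {t : Tm} (h : nd 0 k = tc t) : t = .var k := by
  cases t <;> simp_all [tc, nd_inj]

lemma inv0f {k : ℕ} {φ : Fm} (h : nd 0 k = fc φ) : False := by
  cases φ <;> simp_all [fc, nd_inj]

lemma inv2 {y : ℕ} {t : Tm} (h : nd 2 y = tc t) : ∃ s, t = .succ s ∧ y = tc s := by
  cases t <;> simp_all [tc, nd_inj]

lemma inv2f {y : ℕ} {φ : Fm} (h : nd 2 y = fc φ) : False := by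
  cases φ <;> simp_all [fc, nd_inj]

lemma inv5 {y : ℕ} {φ : Fm} (h : nd 5 y = fc φ) : φ = .bot ∧ y = 0 := by
  cases φ <;> simp_all [fc, nd_inj]

lemma inv6 {a b : ℕ} {φ : Fm} (h : nd 6 (nd a b) = fc φ) :
    ∃ t s, φ = .eq t s ∧ a = tc t ∧ b = tc s := by
  cases φ <;> simp_all [fc, nd_inj]

lemma inv7 {a b : ℕ} {φ : Fm} (h : nd 7 (nd a b) = fc φ) :
    ∃ t s, φ = .le t s ∧ a = tc t ∧ b = tc s := by
  cases φ <;> simp_all [fc, nd_inj]

lemma inv8 {a b : ℕ} {φ : Fm} (h : nd 8 (nd a b) = fc φ) :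
    ∃ ψ χ, φ = .imp ψ χ ∧ a = fc ψ ∧ b = fc χ := by
  cases φ <;> simp_all [fc, nd_inj]

lemma inv9 {a b : ℕ} {φ : Fm} (h : nd 9 (nd a b) = fc φ) :
    ∃ ψ, φ = .all a ψ ∧ b = fc ψ := by
  cases φ <;> simp_all [fc, nd_inj]

lemma inv9t {y : ℕ} {t : Tm} (h : nd 9 y = tc t) : False := by
  cases t <;> simp_all [tc, nd_inj]

/-! ### Types -/

lemma t_var {y k : ℕ} (h : y = nd 0 k) : IsT y := ⟨.var k, h⟩
lemma t_zero {y : ℕ} (h : y = nd 1 0) : IsT y := ⟨.zero, h⟩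
lemma t_succ {y a : ℕ} (h : y = nd 2 a) : IsT a → IsT y := by
  rintro ⟨t, rfl⟩; exact ⟨.succ t, h⟩
lemma t_bin {y a b d : ℕ} (hd : d = 3 ∨ d = 4) (h : y = nd d (nd a b)) :
    IsT a → IsT b → IsT y := by
  rintro ⟨t, rfl⟩ ⟨s, rfl⟩
  rcases hd with rfl | rfl
  · exact ⟨.add t s, h⟩
  · exact ⟨.mul t s, h⟩
lemma f_bot {y : ℕ} (h : y = nd 5 0) : IsF y := ⟨.bot, h⟩
lemma f_at {y a b d : ℕ} (hd : d = 6 ∨ d = 7) (h : y = nd d (nd a b)) :
    IsT a → IsT b → IsF y := by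
  rintro ⟨t, rfl⟩ ⟨s, rfl⟩
  rcases hd with rfl | rfl
  · exact ⟨.eq t s, h⟩
  · exact ⟨.le t s, h⟩
lemma f_imp {y a b : ℕ} (h : y = nd 8 (nd a b)) : IsF a → IsF b → IsF y := by
  rintro ⟨t, rfl⟩ ⟨s, rfl⟩; exact ⟨.imp t s, h⟩
lemma f_all {y k a : ℕ} (h : y = nd 9 (nd k a)) : IsF a → IsF y := by
  rintro ⟨t, rfl⟩; exact ⟨.all k t, h⟩

/-! ### Free variables -/

lemma nh_var {y j k : ℕ} (h : y = nd 0 k) (hk : k ≠ j) : NHF y j := by
  subst h
  refine ⟨fun t ht hj => ?_, fun φ hφ => (inv0f hφ).elim⟩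
  obtain rfl := inv0 ht
  exact hk hj

lemma nh_c {y j d : ℕ} (hd : d = 1 ∨ d = 5) (h : y = nd d 0) : NHF y j := by
  subst h
  refine ⟨fun t ht => ?_, fun φ hφ => ?_⟩
  · have p1 := nd_pos
    cases t with
    | var k => simp only [tc, nd_inj] at ht; omega
    | zero => simp [Tm.Has]
    | succ t => simp only [tc, nd_inj] at ht; omega
    | add t s => simp only [tc, nd_inj] at ht; omega
    | mul t s => simp only [tc, nd_inj] at ht; omega
  · cases φ with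
    | bot => simp [Fm.Free]
    | eq t s => simp only [fc, nd_inj] at hφ; omega
    | le t s => simp only [fc, nd_inj] at hφ; omega
    | imp t s => simp only [fc, nd_inj] at hφ; omega
    | all t s => simp only [fc, nd_inj] at hφ; omega

lemma nh_succ {y j a : ℕ} (h : y = nd 2 a) (h1 : NHF a j) : NHF y j := by
  subst h
  refine ⟨fun t ht hj => ?_, fun φ hφ => (inv2f hφ).elim⟩
  obtain ⟨s, rfl, rfl⟩ := inv2 ht
  exact h1.1 s rfl hj

/-- The tags of nodes with two subexpressions. -/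
def T2 (d : ℕ) : Prop := d = 3 ∨ d = 4 ∨ d = 6 ∨ d = 7 ∨ d = 8

lemma nh_bin {y j a b d : ℕ} (hd : T2 d) (h : y = nd d (nd a b)) (h1 : NHF a j) (h2 : NHF b j) :
    NHF y j := by
  subst h
  unfold T2 at hd
  refine ⟨fun t ht => ?_, fun φ hφ => ?_⟩
  · cases t with
    | var k => simp only [tc, nd_inj] at ht; omega
    | zero => simp only [tc, nd_inj] at ht; omega
    | succ t => simp only [tc, nd_inj] at ht; omega
    | add t s =>
      simp only [tc, nd_inj] at ht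
      rintro (h | h)
      · exact h1.1 t ht.2.1 h
      · exact h2.1 s ht.2.2 h
    | mul t s =>
      simp only [tc, nd_inj] at ht
      rintro (h | h)
      · exact h1.1 t ht.2.1 h
      · exact h2.1 s ht.2.2 h
  · cases φ with
    | bot => simp only [fc, nd_inj] at hφ; omega
    | eq t s =>
      simp only [fc, nd_inj] at hφ
      rintro (h | h)
      · exact h1.1 t hφ.2.1 h
      · exact h2.1 s hφ.2.2 h
    | le t s =>
      simp only [fc, nd_inj] at hφ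
      rintro (h | h)
      · exact h1.1 t hφ.2.1 h
      · exact h2.1 s hφ.2.2 h
    | imp t s =>
      simp only [fc, nd_inj] at hφ
      rintro (h | h)
      · exact h1.2 t hφ.2.1 h
      · exact h2.2 s hφ.2.2 h
    | all t s => simp only [fc, nd_inj] at hφ; omega

lemma nh_same {y j a : ℕ} (h : y = nd 9 (nd j a)) : NHF y j := by
  subst h
  refine ⟨fun t ht => (inv9t ht).elim, fun φ hφ hf => ?_⟩
  obtain ⟨ψ, rfl, _⟩ := inv9 hφ
  exact hf.1 rfl

lemma nh_all {y j k a : ℕ} (h : y = nd 9 (nd k a)) (h1 : NHF a j) : NHF y j := by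
  subst h
  refine ⟨fun t ht => (inv9t ht).elim, fun φ hφ hf => ?_⟩
  obtain ⟨ψ, rfl, rfl⟩ := inv9 hφ
  exact h1.2 ψ rfl hf.2

/-! ### Substitution -/

lemma sb_same {y j r : ℕ} (h : y = nd 0 j) : SBX y j r r := by
  subst h
  refine ⟨fun t r' ht hr => ?_, fun φ _ hφ => (inv0f hφ).elim⟩
  obtain rfl := inv0 ht
  simpa [Tm.sub] using hr

lemma sb_ne {y j k r : ℕ} (h : y = nd 0 k) (hk : k ≠ j) : SBX y j r y := by
  subst h
  refine ⟨fun t r' ht hr => ?_, fun φ _ hφ => (inv0f hφ).elim⟩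
  obtain rfl := inv0 ht
  simp [Tm.sub, hk, tc]

lemma sb_c {y j d r : ℕ} (hd : d = 1 ∨ d = 5) (h : y = nd d 0) : SBX y j r y := by
  subst h
  refine ⟨fun t _ ht _ => ?_, fun φ _ hφ _ => ?_⟩
  · have p1 := nd_pos
    cases t with
    | var k => simp only [tc, nd_inj] at ht; omega
    | zero => exact ht
    | succ t => simp only [tc, nd_inj] at ht; omega
    | add t s => simp only [tc, nd_inj] at ht; omega
    | mul t s => simp only [tc, nd_inj] at ht; omega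
  · cases φ with
    | bot => exact hφ
    | eq t s => simp only [fc, nd_inj] at hφ; omega
    | le t s => simp only [fc, nd_inj] at hφ; omega
    | imp t s => simp only [fc, nd_inj] at hφ; omega
    | all t s => simp only [fc, nd_inj] at hφ; omega

lemma sb_succ {y z j a b r : ℕ} (h : y = nd 2 a) (h' : z = nd 2 b) (h1 : SBX a j r b) :
    SBX y j r z := by
  subst h h'
  refine ⟨fun t r' ht hr => ?_, fun φ _ hφ => (inv2f hφ).elim⟩
  obtain ⟨s, rfl, rfl⟩ := inv2 ht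
  rw [h1.1 s r' rfl hr]; rfl

lemma sb_bin {y z j a b a' b' d r : ℕ} (hd : T2 d) (h : y = nd d (nd a b))
    (h' : z = nd d (nd a' b')) (h1 : SBX a j r a') (h2 : SBX b j r b') : SBX y j r z := by
  subst h h'
  unfold T2 at hd
  refine ⟨fun t r' ht hr => ?_, fun φ r' hφ hr => ?_⟩
  · cases t with
    | var k => simp only [tc, nd_inj] at ht; omega
    | zero => simp only [tc, nd_inj] at ht; omega
    | succ t => simp only [tc, nd_inj] at ht; omega
    | add t s =>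
      simp only [tc, nd_inj] at ht
      rw [h1.1 t r' ht.2.1 hr, h2.1 s r' ht.2.2 hr, ht.1]; rfl
    | mul t s =>
      simp only [tc, nd_inj] at ht
      rw [h1.1 t r' ht.2.1 hr, h2.1 s r' ht.2.2 hr, ht.1]; rfl
  · cases φ with
    | bot => simp only [fc, nd_inj] at hφ; omega
    | eq t s =>
      simp only [fc, nd_inj] at hφ
      rw [h1.1 t r' hφ.2.1 hr, h2.1 s r' hφ.2.2 hr, hφ.1]; rfl
    | le t s =>
      simp only [fc, nd_inj] at hφ
      rw [h1.1 t r' hφ.2.1 hr, h2.1 s r' hφ.2.2 hr, hφ.1]; rfl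
    | imp t s =>
      simp only [fc, nd_inj] at hφ
      rw [h1.2 t r' hφ.2.1 hr, h2.2 s r' hφ.2.2 hr, hφ.1]; rfl
    | all t s => simp only [fc, nd_inj] at hφ; omega

lemma sb_allsame {y j a r : ℕ} (h : y = nd 9 (nd j a)) : SBX y j r y := by
  subst h
  refine ⟨fun t _ ht => (inv9t ht).elim, fun φ r' hφ hf => ?_⟩
  obtain ⟨ψ, rfl, rfl⟩ := inv9 hφ
  simp [Fm.sub, fc]

lemma sb_all {y z j k a b r : ℕ} (h : y = nd 9 (nd k a)) (h' : z = nd 9 (nd k b)) (hk : k ≠ j)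
    (h1 : SBX a j r b) : SBX y j r z := by
  subst h h'
  refine ⟨fun t _ ht => (inv9t ht).elim, fun φ r' hφ hr => ?_⟩
  obtain ⟨ψ, rfl, rfl⟩ := inv9 hφ
  rw [h1.2 ψ r' rfl hr]
  simp [Fm.sub, hk, fc]

/-! ### Free for -/

lemma ff_bot {y j r : ℕ} (h : y = nd 5 0) : FFX y j r := by
  subst h
  intro φ r' hφ _
  obtain ⟨rfl, _⟩ := inv5 hφ
  trivial

lemma ff_at {y j a b r d : ℕ} (hd : d = 6 ∨ d = 7) (h : y = nd d (nd a b)) : FFX y j r := by
  subst h
  intro φ r' hφ _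
  rcases hd with rfl | rfl
  · obtain ⟨t, s, rfl, _⟩ := inv6 hφ; trivial
  · obtain ⟨t, s, rfl, _⟩ := inv7 hφ; trivial

lemma ff_imp {y j a b r : ℕ} (h : y = nd 8 (nd a b)) (h1 : FFX a j r) (h2 : FFX b j r) :
    FFX y j r := by
  subst h
  intro φ r' hφ hr
  obtain ⟨ψ, χ, rfl, h3, h4⟩ := inv8 hφ
  exact ⟨h1 ψ r' h3 hr, h2 χ r' h4 hr⟩

lemma ff_same {y j a r : ℕ} (h : y = nd 9 (nd j a)) : FFX y j r := by
  subst h
  intro φ r' hφ hr
  obtain ⟨ψ, rfl, _⟩ := inv9 hφ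
  exact Or.inl rfl

lemma ff_nf {y j k a r : ℕ} (h : y = nd 9 (nd k a)) (h1 : NHF a j) : FFX y j r := by
  subst h
  intro φ r' hφ hr
  obtain ⟨ψ, rfl, h3⟩ := inv9 hφ
  exact Or.inr (Or.inl (h1.2 ψ h3))

lemma ff_rec {y j k a r : ℕ} (h : y = nd 9 (nd k a)) (h1 : NHF r k) (h2 : FFX a j r) :
    FFX y j r := by
  subst h
  intro φ r' hφ hr
  obtain ⟨ψ, rfl, h3⟩ := inv9 hφ
  exact Or.inr (Or.inr ⟨h1.1 r' hr, h2 ψ r' h3 hr⟩)

/-! ### Logical axioms -/

lemma pr_ax {a w : ℕ} (h : ∀ φ, w = fc φ → Ax φ) : PRr a w := fun l φ _ hφ =>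
  ⟨plen [φ], [], ⟨trivial, Or.inr (Or.inl (h φ hφ))⟩, le_rfl⟩

lemma pr_k {a w p f g : ℕ} (h1 : w = nd 8 (nd f p)) (h2 : p = nd 8 (nd g f)) : PRr a w := by
  subst h2 h1
  refine pr_ax fun φ h => ?_
  obtain ⟨φ1, φ2, rfl, rfl, h3⟩ := inv8 h
  obtain ⟨φ3, φ4, rfl, rfl, h4⟩ := inv8 h3
  obtain rfl := fc_inj h4
  exact Ax.k _ _

lemma pr_s {a w p q r s t f g h : ℕ} (h1 : w = nd 8 (nd p q)) (h2 : p = nd 8 (nd f r))
    (h3 : r = nd 8 (nd g h)) (h4 : q = nd 8 (nd s t)) (h5 : s = nd 8 (nd f g))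
    (h6 : t = nd 8 (nd f h)) : PRr a w := by
  subst h3 h5 h6 h2 h4 h1
  refine pr_ax fun φ h0 => ?_
  obtain ⟨φ1, φ2, rfl, e1, e2⟩ := inv8 h0
  obtain ⟨φ3, φ4, rfl, e3, e4⟩ := inv8 e1
  obtain ⟨φ5, φ6, rfl, e5, e6⟩ := inv8 e4
  obtain ⟨φ7, φ8, rfl, e7, e8⟩ := inv8 e2
  obtain ⟨φ9, φ10, rfl, e9, e10⟩ := inv8 e7
  obtain ⟨φ11, φ12, rfl, e11, e12⟩ := inv8 e8
  obtain rfl := fc_inj (e3.symm.trans e9)
  obtain rfl := fc_inj (e3.symm.trans e11)
  obtain rfl := fc_inj (e5.symm.trans e10)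
  obtain rfl := fc_inj (e6.symm.trans e12)
  exact Ax.s _ _ _

lemma pr_dne {a w p q b f : ℕ} (h1 : w = nd 8 (nd p f)) (h2 : p = nd 8 (nd q b))
    (h3 : q = nd 8 (nd f b)) (h4 : b = nd 5 0) : PRr a w := by
  subst h4 h3 h2 h1
  refine pr_ax fun φ h0 => ?_
  obtain ⟨φ1, φ2, rfl, e1, e2⟩ := inv8 h0
  obtain ⟨φ3, φ4, rfl, e3, e4⟩ := inv8 e1
  obtain ⟨φ5, φ6, rfl, e5, e6⟩ := inv8 e3
  obtain ⟨rfl, _⟩ := inv5 e4
  obtain ⟨rfl, _⟩ := inv5 e6
  obtain rfl := fc_inj (e2.symm.trans e5)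
  exact Ax.dne _

lemma pr_inst {a w p q f j r : ℕ} (h1 : w = nd 8 (nd p q)) (h2 : p = nd 9 (nd j f))
    (h3 : SBX f j r q) (h4 : FFX f j r) (h5 : IsT r) : PRr a w := by
  subst h2 h1
  obtain ⟨r', rfl⟩ := h5
  refine pr_ax fun φ h0 => ?_
  obtain ⟨φ1, φ2, rfl, e1, e2⟩ := inv8 h0
  obtain ⟨φ3, rfl, e3⟩ := inv9 e1
  have h6 := h3.2 φ3 r' e3 rfl
  obtain rfl := fc_inj (e2.symm.trans h6)
  exact Ax.inst _ _ _ (h4 φ3 r' e3 rfl)

lemma pr_dist {a w p q r f g s j : ℕ} (h1 : w = nd 8 (nd p q)) (h2 : p = nd 9 (nd j r))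
    (h3 : r = nd 8 (nd f g)) (h4 : q = nd 8 (nd f s)) (h5 : s = nd 9 (nd j g)) (h6 : NHF f j) :
    PRr a w := by
  subst h3 h5 h2 h4 h1
  refine pr_ax fun φ h0 => ?_
  obtain ⟨φ1, φ2, rfl, e1, e2⟩ := inv8 h0
  obtain ⟨φ3, rfl, e3⟩ := inv9 e1
  obtain ⟨φ4, φ5, rfl, e4, e5⟩ := inv8 e3
  obtain ⟨φ6, φ7, rfl, e6, e7⟩ := inv8 e2
  obtain ⟨φ8, rfl, e8⟩ := inv9 e7
  obtain rfl := fc_inj (e4.symm.trans e6)
  obtain rfl := fc_inj (e5.symm.trans e8)
  exact Ax.dist _ _ _ (h6.2 _ e4)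

lemma pr_refl {a w t : ℕ} (h1 : w = nd 6 (nd t t)) : PRr a w := by
  subst h1
  refine pr_ax fun φ h0 => ?_
  obtain ⟨t1, t2, rfl, e1, e2⟩ := inv6 h0
  obtain rfl := tc_inj (e1.symm.trans e2)
  exact Ax.refl _

lemma pr_congS {a w p q t s t' s' : ℕ} (h1 : w = nd 8 (nd p q)) (h2 : p = nd 6 (nd t s))
    (h3 : q = nd 6 (nd t' s')) (h4 : t' = nd 2 t) (h5 : s' = nd 2 s) : PRr a w := by
  subst h4 h5 h2 h3 h1
  refine pr_ax fun φ h0 => ?_
  obtain ⟨φ1, φ2, rfl, e1, e2⟩ := inv8 h0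
  obtain ⟨t1, t2, rfl, e3, e4⟩ := inv6 e1
  obtain ⟨t3, t4, rfl, e5, e6⟩ := inv6 e2
  obtain ⟨t5, rfl, e7⟩ := inv2 e5
  obtain ⟨t6, rfl, e8⟩ := inv2 e6
  obtain rfl := tc_inj (e3.symm.trans e7)
  obtain rfl := tc_inj (e4.symm.trans e8)
  exact Ax.congS _ _

lemma inv34 {a b d : ℕ} {t : Tm} (hd : d = 3 ∨ d = 4) (h : nd d (nd a b) = tc t) :
    ∃ t1 t2, a = tc t1 ∧ b = tc t2 ∧ ((d = 3 ∧ t = .add t1 t2) ∨ (d = 4 ∧ t = .mul t1 t2)) := by
  rcases hd with rfl | rfl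
  · cases t <;> simp_all [tc, nd_inj]
  · cases t <;> simp_all [tc, nd_inj]

lemma pr_congAM {a w p q r u t s t' s' y z d : ℕ} (hd : d = 3 ∨ d = 4)
    (h1 : w = nd 8 (nd p q)) (h2 : q = nd 8 (nd r u)) (h3 : p = nd 6 (nd t s))
    (h4 : r = nd 6 (nd t' s')) (h5 : u = nd 6 (nd y z)) (h6 : y = nd d (nd t t'))
    (h7 : z = nd d (nd s s')) : PRr a w := by
  subst h6 h7 h5 h4 h3 h2 h1
  refine pr_ax fun φ h0 => ?_
  obtain ⟨φ1, φ2, rfl, e1, e2⟩ := inv8 h0
  obtain ⟨φ3, φ4, rfl, e3, e4⟩ := inv8 e2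
  obtain ⟨t1, t2, rfl, e5, e6⟩ := inv6 e1
  obtain ⟨t3, t4, rfl, e7, e8⟩ := inv6 e3
  obtain ⟨t5, t6, rfl, e9, e10⟩ := inv6 e4
  obtain ⟨t7, t8, e11, e12, e13⟩ := inv34 hd e9
  obtain ⟨t9, t10, e14, e15, e16⟩ := inv34 hd e10
  obtain rfl := tc_inj (e5.symm.trans e11)
  obtain rfl := tc_inj (e7.symm.trans e12)
  obtain rfl := tc_inj (e6.symm.trans e14)
  obtain rfl := tc_inj (e8.symm.trans e15)
  rcases e13 with ⟨rfl, rfl⟩ | ⟨rfl, rfl⟩
  · rcases e16 with ⟨_, rfl⟩ | ⟨h, _⟩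
    · exact Ax.congAdd _ _ _ _
    · omega
  · rcases e16 with ⟨h, _⟩ | ⟨_, rfl⟩
    · omega
    · exact Ax.congMul _ _ _ _

lemma inv67 {a b d : ℕ} {φ : Fm} (hd : d = 6 ∨ d = 7) (h : nd d (nd a b) = fc φ) :
    ∃ t1 t2, a = tc t1 ∧ b = tc t2 ∧ ((d = 6 ∧ φ = .eq t1 t2) ∨ (d = 7 ∧ φ = .le t1 t2)) := by
  rcases hd with rfl | rfl
  · cases φ <;> simp_all [fc, nd_inj]
  · cases φ <;> simp_all [fc, nd_inj]

lemma pr_congEL {a w p q r u t s t' s' y z d : ℕ} (hd : d = 6 ∨ d = 7)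
    (h1 : w = nd 8 (nd p q)) (h2 : q = nd 8 (nd r u)) (h3 : u = nd 8 (nd y z))
    (h4 : p = nd 6 (nd t s)) (h5 : r = nd 6 (nd t' s')) (h6 : y = nd d (nd t t'))
    (h7 : z = nd d (nd s s')) : PRr a w := by
  subst h6 h7 h3 h4 h5 h2 h1
  refine pr_ax fun φ h0 => ?_
  obtain ⟨φ1, φ2, rfl, e1, e2⟩ := inv8 h0
  obtain ⟨φ3, φ4, rfl, e3, e4⟩ := inv8 e2
  obtain ⟨φ5, φ6, rfl, e5, e6⟩ := inv8 e4
  obtain ⟨t1, t2, rfl, e7, e8⟩ := inv6 e1
  obtain ⟨t3, t4, rfl, e9, e10⟩ := inv6 e3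
  obtain ⟨t7, t8, e11, e12, e13⟩ := inv67 hd e5
  obtain ⟨t9, t10, e14, e15, e16⟩ := inv67 hd e6
  obtain rfl := tc_inj (e7.symm.trans e11)
  obtain rfl := tc_inj (e9.symm.trans e12)
  obtain rfl := tc_inj (e8.symm.trans e14)
  obtain rfl := tc_inj (e10.symm.trans e15)
  rcases e13 with ⟨rfl, rfl⟩ | ⟨rfl, rfl⟩
  · rcases e16 with ⟨_, rfl⟩ | ⟨h, _⟩
    · exact Ax.congEq _ _ _ _
    · omega
  · rcases e16 with ⟨h, _⟩ | ⟨_, rfl⟩
    · omega
    · exact Ax.congLe _ _ _ _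

/-! ### Inferences -/

lemma pr_mp {a f w g : ℕ} (h1 : w = nd 8 (nd f g)) (h2 : PRr a w) (h3 : PRr a f) (h4 : IsF f) :
    PRr a g := by
  subst h1
  obtain ⟨φ, rfl⟩ := h4
  rintro l ψ rfl rfl
  obtain ⟨k1, L1, h5, _⟩ := h2 l (imp φ ψ) rfl rfl
  obtain ⟨k2, L2, h6, _⟩ := h3 l φ rfl rfl
  refine ⟨_, (imp φ ψ :: L1) ++ (φ :: L2), ⟨h5.append h6, Or.inr (Or.inr (Or.inl ⟨φ, ?_, ?_⟩))⟩,
    le_rfl⟩
  · exact List.mem_append_right _ List.mem_cons_self
  · exact List.mem_append_left _ List.mem_cons_self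

lemma pr_gen {a f w j : ℕ} (h1 : w = nd 9 (nd j f)) (h2 : PRr a f) : PRr a w := by
  subst h1
  rintro l ψ rfl h
  obtain ⟨φ, rfl, rfl⟩ := inv9 h
  obtain ⟨k1, L1, h5, _⟩ := h2 l φ rfl rfl
  exact ⟨_, φ :: L1, ⟨h5, Or.inr (Or.inr (Or.inr ⟨j, φ, List.mem_cons_self, rfl⟩))⟩, le_rfl⟩

lemma pr_mem {a y : ℕ} (h : MeR a y) : PRr a y := by
  obtain ⟨l, φ, rfl, rfl, h⟩ := h
  intro l' φ' h1 h2
  obtain rfl := lc_inj h1
  obtain rfl := fc_inj h2
  exact ⟨plen [φ], [], ⟨trivial, Or.inl h⟩, le_rfl⟩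

end Helper31Con.Amp

end
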